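import Pool.Agent.SFG.Targets

/-!
# SFG: a system avoiding a small set (AVD)
-/

set_option autoImplicit false

open Finset

namespace Pool.Agent.SFG

open Pool.Agent.StarF (starForest ramsey)
open Pool.Agent.SFB (Con dg nc Chain Two)

theorem p_AVD : T_AVD := by
  intro V _ _ G a K e c E hcard hE
  have key : ∀ J ⊆ range K, ∑ t ∈ J, a t ≤
      (J.biUnion (fun t => dg G (c t) \ E)).card := by
    intro J hJ
    rcases J.eq_empty_or_nonempty with h0 | h0
    · subst h0
      simp
    · have h1 := hcard J hJ h0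
      have h2 : J.biUnion (fun t => dg G (c t) \ E) = nc G c J \ E := by
        ext w
        simp only [mem_biUnion, mem_sdiff, Pool.Agent.SFB.mem_nc]
        constructor
        · rintro ⟨t, ht, hw, hn⟩
          exact ⟨⟨t, ht, hw⟩, hn⟩
        · rintro ⟨⟨t, ht, hw⟩, hn⟩
          exact ⟨t, ht, hw, hn⟩
      rw [h2]
      have h5 := le_card_sdiff E (nc G c J)
      omega
  obtain ⟨D, hD1, hD2⟩ := Pool.Agent.StarF.hall (range K) a (fun t => dg G (c t) \ E) key
  have hsub : ∀ t < K, D t ⊆ dg G (c t) \ E := fun t ht => (hD1 t (mem_range.2 ht)).1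
  refine ⟨D, ?_, ?_, ?_, ?_⟩
  · intro t ht w hw
    exact (mem_sdiff.1 (hsub t ht hw)).1
  · intro t ht
    rw [disjoint_left]
    intro w hw hc
    exact (mem_sdiff.1 (hsub t ht hw)).2 hc
  · intro t ht
    exact (hD1 t (mem_range.2 ht)).2
  · intro s hs t ht hst
    exact hD2 s (mem_range.2 hs) t (mem_range.2 ht) hst

end Pool.Agent.SFG
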