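import Pool.Agent.SFG.Targets

/-!
# SFG: averaging (helper83)
-/

set_option autoImplicit false

open Finset

namespace Pool.Agent.SFG

open Pool.Agent.StarF (starForest ramsey)
open Pool.Agent.SFB (Con dg nc Chain Two)

/-- AVE. -/
theorem p_AVE : T_AVE := by
  intro V _ _ G Y X L P hP W
  have h1 : ∑ v, P v * ((dg G v ∩ W).card : ℝ) = ∑ w ∈ W, ∑ v ∈ dg G w, P v := by
    have h2 : ∀ v, P v * ((dg G v ∩ W).card : ℝ) = ∑ w ∈ W, if w ∈ dg G v then P v else 0 := by
      intro v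
      rw [← Finset.sum_filter, Finset.sum_const, nsmul_eq_mul, mul_comm]
      congr 3
      ext w
      rw [mem_inter, mem_filter, and_comm]
    have h3 : ∀ w, ∑ v ∈ dg G w, P v = ∑ v, if w ∈ dg G v then P v else 0 := by
      intro w
      rw [← Finset.sum_filter]
      refine Finset.sum_congr ?_ fun _ _ => rfl
      ext v
      rw [mem_filter, SFB.mem_dg_comm]
      simp
    rw [Finset.sum_congr rfl fun v _ => h2 v, Finset.sum_comm]
    exact Finset.sum_congr rfl fun w _ => (h3 w).symm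
  rw [h1]
  have h4 : ∑ w ∈ W ∩ X, ∑ v ∈ dg G w, P v ≤ ∑ w ∈ W, ∑ v ∈ dg G w, P v :=
    Finset.sum_le_sum_of_subset_of_nonneg inter_subset_left
      fun w _ _ => Finset.sum_nonneg fun v _ => hP.nn v
  have h5 : ∑ w ∈ W ∩ X, (1 - P w) ≤ ∑ w ∈ W ∩ X, (2 * ∑ v ∈ dg G w, P v) :=
    Finset.sum_le_sum fun w hw => hP.cov w (mem_inter.1 hw).2
  have h6 : ∑ w ∈ W ∩ X, P w ≤ 1 := by
    rw [← hP.one]
    exact Finset.sum_le_sum_of_subset_of_nonneg (subset_univ _) fun w _ _ => hP.nn w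
  rw [← Finset.mul_sum, Finset.sum_sub_distrib, Finset.sum_const, nsmul_eq_mul, mul_one] at h5
  linarith

end Pool.Agent.SFG
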