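import Pool.Agent.SFG.Targets

set_option autoImplicit false

open Finset

namespace Pool.Agent.SFG

open Pool.Agent.StarF (starForest ramsey)
open Pool.Agent.SFB (Con dg nc Chain Two)

/-- The part of `X` outside the system is large. -/
theorem AVG_.out_card {V : Type} [Fintype V] [DecidableEq V] (G : SimpleGraph V)
    (X : Finset V) (a : ℕ → ℕ) (K r : ℕ) (c : ℕ → V) (D : ℕ → Finset V)
    (hr : (Xᶜ).card ≤ r) (hD : Sys G a K c ∅ D) :
    Fintype.card V ≤ (Out K D ∩ X).card + r + ∑ t ∈ range K, a t := by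
  have hsub : (univ : Finset V) ⊆ (Out K D ∩ X) ∪ Xᶜ ∪ (range K).biUnion D := by
    intro v _
    by_cases h1 : v ∈ X
    · by_cases h2 : v ∈ (range K).biUnion D
      · exact mem_union_right _ h2
      · refine mem_union_left _ (mem_union_left _ (mem_inter.2 ⟨?_, h1⟩))
        unfold Out
        rw [mem_sdiff]
        exact ⟨mem_univ _, h2⟩
    · exact mem_union_left _ (mem_union_right _ (mem_compl.2 h1))
  have h1 := card_le_card hsub
  have h2 := card_union_le ((Out K D ∩ X) ∪ Xᶜ) ((range K).biUnion D)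
  have h3 := card_union_le (Out K D ∩ X) Xᶜ
  have h4 : ((range K).biUnion D).card ≤ ∑ t ∈ range K, a t := by
    refine card_biUnion_le.trans (le_of_eq (sum_congr rfl fun t ht => ?_))
    exact hD.crd t (mem_range.1 ht)
  rw [card_univ] at h1
  omega

theorem p_AVG (hAVE : T_AVE) (hINE : T_INE) : T_AVG := by
  intro V _ _ G Y X L P a k K r c J D hP hr hr1 hv hD hN
  have hout := AVG_.out_card G X a K r c D hr hD
  have have1 := hAVE V G Y X L P hP (Out K D)
  set A : V → ℝ := fun v => ((dg G v ∩ Out K D).card : ℝ) with hA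
  set B : V → ℝ := fun v => (((dg G v ∩ (range K \ J v).biUnion D).card : ℝ) +
    (((nc G c (J v) ∩ Out K D) \ dg G v).card : ℝ)) with hB
  have hle : ∀ v, P v * A v + P v * B v ≤ P v * ((a K : ℝ) + k) := by
    intro v
    by_cases h1 : v ∈ Y
    · have h2 := hINE V G a k K c v (J v) D (hv v h1) hD
      have h3 : A v + B v ≤ (a K : ℝ) + k := by
        simp only [hA, hB]
        have h4 : (((dg G v ∩ Out K D).card + (dg G v ∩ (range K \ J v).biUnion D).card +
          ((nc G c (J v) ∩ Out K D) \ dg G v).card : ℕ) : ℝ) ≤ ((a K + k : ℕ) : ℝ) := by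
          exact_mod_cast h2
        push_cast at h4
        linarith
      have h5 := mul_le_mul_of_nonneg_left h3 (hP.nn v)
      linarith
    · rw [hP.sp v h1]
      simp
  have hsum : ∑ v, P v * A v + ∑ v, P v * B v ≤ (a K : ℝ) + k := by
    calc ∑ v, P v * A v + ∑ v, P v * B v = ∑ v, (P v * A v + P v * B v) := by
          rw [sum_add_distrib]
      _ ≤ ∑ v, P v * ((a K : ℝ) + k) := sum_le_sum fun v _ => hle v
      _ = (∑ v, P v) * ((a K : ℝ) + k) := by rw [sum_mul]
      _ = (a K : ℝ) + k := by rw [hP.one, one_mul]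
  have h6 : (2 * (a K : ℝ)) ≤ ((Out K D ∩ X).card : ℝ) + r := by
    have h7 : 2 * a K ≤ (Out K D ∩ X).card + r := by omega
    exact_mod_cast h7
  have h8 : ((Out K D ∩ X).card : ℝ) - 1 ≤ 2 * ∑ v, P v * A v := have1
  have h9 : (1 : ℝ) ≤ r := by exact_mod_cast hr1
  show ∑ v, P v * B v ≤ r + k
  linarith

end Pool.Agent.SFG
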