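import Pool.Agent.SFG.Targets

/-!
# SFG-BVL: the Ramsey number
-/

set_option autoImplicit false

open Finset

namespace Pool.Agent.SFG

open Pool.Agent.StarF (starForest ramsey)
open Pool.Agent.SFB (Con dg nc Chain Two)

theorem p_BVL (hUPP : T_UPP) (hLOW : T_LOW) (hCNV : T_CNV) (hLOB : T_LOB) : T_BVL := by
  intro a k K q e N1 hK hk hanti haK hPar hN1
  set S : Set ℕ :=
    {N : ℕ | ∀ x y c : ℕ, x + y = N → c + 1 < k → (c < x ∨ c = 0) →
      PF (fun i : Fin k => a i) x y c} with hS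
  set R : Set ℕ := {N : ℕ | ∀ G : SimpleGraph (Fin N),
    (starForest (fun i : Fin k => a i)).IsContained G ∨
      (starForest (fun i : Fin k => a i)).IsContained Gᶜ} with hR
  have hRS : R ⊆ S := by
    intro N hN x y c hxy _ hc
    subst hxy
    by_contra hcon
    obtain ⟨G, h1, h2⟩ := hLOW k (fun i : Fin k => a i) x y c hc hcon
    rcases hN G with h | h
    · exact h1 h
    · exact h2 h
  have hR1 : N1 ∈ R := fun G => hN1 G
  have hRm : sInf R ∈ R := Nat.sInf_mem ⟨_, hR1⟩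
  have hSm : sInf S ∈ S := Nat.sInf_mem ⟨_, hRS hR1⟩
  have h1 : sInf S ≤ sInf R := Nat.sInf_le (hRS hRm)
  have h2 : sInf R ≤ N1 := Nat.sInf_le hR1
  have h3 : ∑ t ∈ range (K + 1), a t + a K ≤ sInf S := by
    by_contra hcon
    obtain ⟨x, y, hxy, hpf⟩ := hLOB a k K hK hk hanti haK (sInf S) (not_le.1 hcon)
    exact hpf ((hCNV k a x y 0).mpr (hSm x y 0 hxy (by omega) (Or.inr rfl)))
  have h4 : sInf S ∈ R := fun G => hUPP a k K q e (sInf S) (hPar _ h3 (h1.trans h2))
    (fun x y c hxy hck hc => (hCNV k a x y c).mpr (hSm x y c hxy hck hc)) G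
  exact le_antisymm (Nat.sInf_le h4) h1

end Pool.Agent.SFG
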