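import Pool.Agent.SFG.Targets
import Pool.Agent.SFB.P_CL1

/-!
# SFG: CL1, classification of the neighbourhoods
-/

set_option autoImplicit false

open Finset

namespace Pool.Agent.SFG

open Pool.Agent.StarF (starForest ramsey)
open Pool.Agent.SFB (Con dg nc Chain Two)

namespace CL1_

open Pool.Agent.SFB (mem_dg mem_nc)
open Pool.Agent.SFB.CL1_ (sd centres)

variable {V : Type} [Fintype V] [DecidableEq V]

/-- one side -/
theorem side (G : SimpleGraph V) (a : ℕ → ℕ) (k K L M : ℕ) (c : ℕ → V) (u : V) (X : Finset V)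
    (J J' : Finset ℕ) (hcK : c K = u) (hM : M ≤ L + 1) (hL : k + 2 ≤ L) (haK : 10 * L ≤ a K)
    (hX : ∑ t ∈ J', a t + a K ≤ X.card + 2 * L) (hJ : J ⊆ insert K J') (hKJ' : K ∉ J')
    (hn : (nc G c J).card ≤ ∑ t ∈ J, a t + k) (t : ℕ) (htJ : t ∈ J)
    (hs : (symmDiff (dg G (c t)) X).card ≤ M) : (dg G u \ X).card ≤ 6 * L := by
  obtain ⟨h1, h2, h3⟩ := sd _ _ _ hs
  have h4 : dg G (c t) ⊆ nc G c J := fun w hw => mem_nc.2 ⟨t, htJ, hw⟩
  have h5 := Finset.card_le_card h4
  have hKJ : K ∈ J := by
    by_contra h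
    have h6 : J ⊆ J' := by
      intro s hs
      rcases Finset.mem_insert.1 (hJ hs) with h7 | h7
      · exact absurd (h7 ▸ hs) h
      · exact h7
    have h7 : ∑ s ∈ J, a s ≤ ∑ s ∈ J', a s := Finset.sum_le_sum_of_subset h6
    omega
  have h8 : ∑ s ∈ J, a s ≤ ∑ s ∈ J', a s + a K := by
    have := Finset.sum_le_sum_of_subset (f := a) hJ
    rw [Finset.sum_insert hKJ'] at this
    omega
  have h9 : dg G u ∪ dg G (c t) ⊆ nc G c J := by
    refine Finset.union_subset ?_ h4
    intro w hw
    exact mem_nc.2 ⟨K, hKJ, by rw [hcK]; exact hw⟩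
  have h10 := Finset.card_le_card h9
  have h11 : (dg G u \ dg G (c t)).card + (dg G (c t)).card = (dg G u ∪ dg G (c t)).card :=
    Finset.card_sdiff_add_card _ _
  have h12 : dg G u \ X ⊆ (dg G u \ dg G (c t)) ∪ (dg G (c t) \ X) := by
    intro w hw
    simp only [Finset.mem_union, Finset.mem_sdiff] at hw ⊢
    tauto
  have h13 := (Finset.card_le_card h12).trans (Finset.card_union_le _ _)
  omega

/-- Two neighbourhoods which nearly cover everything. -/
theorem cover (D1 D2 X0 : Finset V) (M : ℕ) (h1 : (X0 \ D1).card ≤ M)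
    (h2 : (X0ᶜ \ D2).card ≤ M) (W : Finset V) :
    W.card ≤ (D1 ∩ W).card + (D2 ∩ W).card + 2 * M := by
  have h3 : W ⊆ ((D1 ∩ W) ∪ (D2 ∩ W)) ∪ ((X0 \ D1) ∪ (X0ᶜ \ D2)) := by
    intro w hw
    simp only [Finset.mem_union, Finset.mem_inter, Finset.mem_sdiff, Finset.mem_compl]
    tauto
  have h4 := (Finset.card_le_card h3).trans (Finset.card_union_le _ _)
  have h5 := Finset.card_union_le (D1 ∩ W) (D2 ∩ W)
  have h6 := Finset.card_union_le (X0 \ D1) (X0ᶜ \ D2)
  omega

omit [Fintype V] in
theorem pick (S U : Finset V) (h : U.card < S.card) : ∃ u ∈ S, u ∉ U := by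
  by_contra hc
  push Not at hc
  have h1 : S ⊆ U := fun x hx => hc x hx
  have h2 := Finset.card_le_card h1
  omega

/-- The oracle. -/
theorem orc (G : SimpleGraph V) (a : ℕ → ℕ) (k i M : ℕ) (X0 : Finset V)
    (T1 : k + 2 ≤ (univ.filter (fun v => (symmDiff (dg G v) X0).card ≤ M)).card)
    (T2 : k + 2 ≤ (univ.filter (fun v => (symmDiff (dg G v) X0ᶜ).card ≤ M)).card)
    (hN : ∑ t ∈ range i, a t + 2 * a i + 2 * k + 2 * M ≤ Fintype.card V) : Orc G a k i := by
  intro U W hU hW
  obtain ⟨u1, h1, g1⟩ := pick _ U (show U.card < _ by exact lt_of_lt_of_le (by omega) T1)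
  obtain ⟨u2, h2, g2⟩ := pick _ U (show U.card < _ by exact lt_of_lt_of_le (by omega) T2)
  have e1 := (sd _ _ _ (Finset.mem_filter.1 h1).2).1
  have e2 := (sd _ _ _ (Finset.mem_filter.1 h2).2).1
  have h3 := cover (dg G u1) (dg G u2) X0 M e1 e2 W
  rcases Nat.lt_or_ge (dg G u1 ∩ W).card (a i + k) with h4 | h4
  · exact ⟨u2, g2, by omega⟩
  · exact ⟨u1, g1, h4⟩

end CL1_

open CL1_ in
open Pool.Agent.SFB (mem_dg mem_nc) in
open Pool.Agent.SFB.CL1_ (sd centres) in
theorem p_CL1 (hGRD : T_GRD) : T_CL1 := by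
  intro V _ _ G a k K q e M X0 J1 J2 hP hCon hM hT u
  set L := LL k q with hL
  have hL1 := hP.L1
  have hee := hP.e1
  have hl := hP.l1
  have hk := hP.hk
  have hk2 := hP.k2
  have ha1 := hP.aK
  have hlo := hP.lo
  have haK : 10 * L ≤ a K := by omega
  have hS : a K ≤ ∑ t ∈ range (K + 1), a t :=
    Finset.single_le_sum (f := a) (fun _ _ => Nat.zero_le _)
      (Finset.mem_range.2 (Nat.lt_succ_self K))
  have hN : 2 * M < Fintype.card V := by omega
  have hT1 := hT.T1
  have hT2 := hT.T2
  obtain ⟨c, hci, hcK, hc1, hc2⟩ := centres u K M (dg G) X0 J1 J2 hT.dsj hT.uni hN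
    (le_trans (by omega) hT1) (le_trans (by omega) hT2)
  have horc : ∀ i, K + 1 ≤ i → i < k → Orc G a k i := by
    intro i hi hik
    refine orc G a k i M X0 hT1 hT2 ?_
    have h1 := hP.gap' hik (by omega)
    omega
  have hex : ∃ J ⊆ range (K + 1), J.Nonempty ∧
      (nc G c J).card < ∑ t ∈ J, a t + k := by
    by_contra h
    push Not at h
    exact hCon (hGRD V G k (K + 1) a c (by omega) hci h horc)
  obtain ⟨J, hJ, hJne, hlt⟩ := hex
  have hn : (nc G c J).card ≤ ∑ t ∈ J, a t + k := by omega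
  have hK1 : K ∉ J1 := fun h => by
    have := Finset.mem_range.1 (hT.uni ▸ Finset.mem_union_left J2 h)
    omega
  have hK2 : K ∉ J2 := fun h => by
    have := Finset.mem_range.1 (hT.uni ▸ Finset.mem_union_right J1 h)
    omega
  have hmem : ∀ t ∈ J, t = K ∨ t ∈ J1 ∨ t ∈ J2 := by
    intro t ht
    have h1 := Finset.mem_range.1 (hJ ht)
    rcases Nat.lt_or_ge t K with h2 | h2
    · right
      exact Finset.mem_union.1 (hT.uni.symm ▸ Finset.mem_range.2 h2)
    · left
      omega
  by_cases hA : ∃ t ∈ J, t ∈ J1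
  · obtain ⟨t, htJ, ht1⟩ := hA
    by_cases hB : ∃ s ∈ J, s ∈ J2
    · exfalso
      obtain ⟨s, hsJ, hs2⟩ := hB
      have h1 := (sd _ _ _ (hc1 t ht1)).1
      have h2 := (sd _ _ _ (hc2 s hs2)).1
      have h3 := cover (dg G (c t)) (dg G (c s)) X0 M h1 h2 (univ \ (nc G c J))
      have h4 : dg G (c t) ∩ (univ \ nc G c J) = ∅ := by
        ext w
        simp only [Finset.mem_inter, Finset.mem_sdiff, Finset.mem_univ, true_and,
          Finset.notMem_empty, iff_false, not_and, not_not]
        exact fun hw => mem_nc.2 ⟨t, htJ, hw⟩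
      have h5 : dg G (c s) ∩ (univ \ nc G c J) = ∅ := by
        ext w
        simp only [Finset.mem_inter, Finset.mem_sdiff, Finset.mem_univ, true_and,
          Finset.notMem_empty, iff_false, not_and, not_not]
        exact fun hw => mem_nc.2 ⟨s, hsJ, hw⟩
      rw [h4, h5, Finset.card_empty] at h3
      have h7 : Fintype.card V ≤ (univ \ nc G c J).card + (nc G c J).card := by
        have := Finset.card_le_card_sdiff_add_card (s := (univ : Finset V)) (t := nc G c J)
        rwa [Finset.card_univ] at this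
      have h6 : ∑ t ∈ J, a t ≤ ∑ t ∈ range (K + 1), a t := Finset.sum_le_sum_of_subset hJ
      omega
    · right
      left
      have hsub : J ⊆ insert K J1 := by
        intro s hs
        rcases hmem s hs with h | h | h
        · exact Finset.mem_insert.2 (Or.inl h)
        · exact Finset.mem_insert.2 (Or.inr h)
        · exact absurd ⟨s, hs, h⟩ hB
      exact side G a k K L M c u X0 J J1 hcK hM (by omega) haK hT.lo1 hsub hK1 hn t htJ
        (hc1 t ht1)
  · by_cases hB : ∃ s ∈ J, s ∈ J2
    · right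
      right
      obtain ⟨s, hsJ, hs2⟩ := hB
      have hsub : J ⊆ insert K J2 := by
        intro s hs
        rcases hmem s hs with h | h | h
        · exact Finset.mem_insert.2 (Or.inl h)
        · exact absurd ⟨s, hs, h⟩ hA
        · exact Finset.mem_insert.2 (Or.inr h)
      have h := side G a k K L M c u X0ᶜ J J2 hcK hM (by omega) haK hT.lo2 hsub hK2 hn s hsJ
        (hc2 s hs2)
      have h2 : dg G u ∩ X0 = dg G u \ X0ᶜ := by
        ext w
        simp only [Finset.mem_inter, Finset.mem_sdiff, Finset.mem_compl, not_not]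
      rw [h2]
      exact h
    · left
      have hJK : ∀ t ∈ J, t = K := by
        intro t ht
        rcases hmem t ht with h | h | h
        · exact h
        · exact absurd ⟨t, ht, h⟩ hA
        · exact absurd ⟨t, ht, h⟩ hB
      have hJ0 : J = {K} := by
        obtain ⟨t, ht⟩ := hJne
        ext s
        rw [Finset.mem_singleton]
        constructor
        · exact hJK s
        · rintro rfl
          exact hJK t ht ▸ ht
      have h1 : dg G u ⊆ nc G c J := by
        intro w hw
        exact mem_nc.2 ⟨K, by rw [hJ0]; exact Finset.mem_singleton_self K, by rw [hcK]; exact hw⟩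
      have h2 := (Finset.card_le_card h1).trans hn
      rw [hJ0, Finset.sum_singleton] at h2
      exact h2

end Pool.Agent.SFG
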