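import Pool.Agent.SFG.Targets

/-!
# SFG, CNV: conversion of fits
-/

set_option autoImplicit false

open Finset

namespace Pool.Agent.SFG

open Pool.Agent.StarF (starForest ramsey)
open Pool.Agent.SFB (Con dg nc Chain Two)

namespace CNV_

lemma compl_map {k : ℕ} (B : Finset (Fin k)) :
    range k \ B.map Fin.valEmbedding = (Bᶜ).map Fin.valEmbedding := by
  ext t
  simp only [mem_sdiff, mem_range, mem_map, Fin.valEmbedding_apply, mem_compl]
  constructor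
  · rintro ⟨ht, h⟩
    exact ⟨⟨t, ht⟩, fun hB => h ⟨⟨t, ht⟩, hB, rfl⟩, rfl⟩
  · rintro ⟨i, hi, rfl⟩
    refine ⟨i.isLt, ?_⟩
    rintro ⟨j, hj, hji⟩
    exact hi (Fin.val_injective hji ▸ hj)

/-- the condition of `pf` for the set `A` -/
def cond (a : ℕ → ℕ) (k x y c : ℕ) (A : Finset ℕ) : Prop :=
  (∑ t ∈ A, a t + A.card ≤ x ∧ ∑ t ∈ range k \ A, a t + (range k \ A).card ≤ y ∧
      (A.card = 1 → ∑ t ∈ A, a t + 1 + c ≤ x)) ∨
    ∃ z : ℕ, z ≤ (range k \ A).card * c + x * c % 2 ∧ (range k \ A = ∅ → z = 0) ∧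
      ∑ t ∈ A, a t + (range k \ A).card + z ≤ x ∧ ∑ t ∈ range k \ A, a t + A.card ≤ y + z

/-- the condition of `PF` for the set `B` -/
def cond' {k : ℕ} (n : Fin k → ℕ) (x y c : ℕ) (A : Finset (Fin k)) : Prop :=
  (∑ i ∈ A, n i + A.card ≤ x ∧ ∑ i ∈ Aᶜ, n i + (Aᶜ).card ≤ y ∧
      (A.card = 1 → ∑ i ∈ A, n i + 1 + c ≤ x)) ∨
    ∃ z : ℕ, z ≤ (Aᶜ).card * c + x * c % 2 ∧ (Aᶜ = ∅ → z = 0) ∧
      ∑ i ∈ A, n i + (Aᶜ).card + z ≤ x ∧ ∑ i ∈ Aᶜ, n i + A.card ≤ y + z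

lemma key {k : ℕ} (a : ℕ → ℕ) (x y c : ℕ) (B : Finset (Fin k)) :
    cond a k x y c (B.map Fin.valEmbedding) ↔ cond' (fun i : Fin k => a i) x y c B := by
  unfold cond cond'
  rw [compl_map, sum_map, sum_map, card_map, card_map, map_eq_empty]
  rfl

end CNV_

/-- CNV. -/
theorem p_CNV : T_CNV := by
  intro k a x y c
  constructor
  · rintro ⟨A, hA, h⟩
    have hmap : (univ.filter (fun i : Fin k => (i : ℕ) ∈ A)).map Fin.valEmbedding = A := by
      ext t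
      simp only [mem_map, mem_filter, mem_univ, true_and, Fin.valEmbedding_apply]
      constructor
      · rintro ⟨i, hi, rfl⟩
        exact hi
      · intro ht
        exact ⟨⟨t, mem_range.1 (hA ht)⟩, ht, rfl⟩
    refine ⟨univ.filter (fun i : Fin k => (i : ℕ) ∈ A), ?_⟩
    have h1 := (CNV_.key a x y c (univ.filter (fun i : Fin k => (i : ℕ) ∈ A))).1 (by
      rw [hmap]
      exact h)
    exact h1
  · rintro ⟨B, h⟩
    refine ⟨B.map Fin.valEmbedding, ?_, (CNV_.key a x y c B).2 h⟩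
    intro t ht
    obtain ⟨i, -, rfl⟩ := mem_map.1 ht
    exact mem_range.2 i.isLt

end Pool.Agent.SFG
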