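import Pool.Agent.SFG.Targets

/-!
# SFG, E1B: a vertex of `X` of large degree
-/

set_option autoImplicit false

open Finset

namespace Pool.Agent.SFG

open Pool.Agent.StarF (starForest ramsey)
open Pool.Agent.SFB (Con dg nc Chain Two)

namespace E1B_

theorem ex_centres {V : Type} [DecidableEq V] (s : Finset V) (k : ℕ) (v : V)
    (h : k ≤ s.card) : ∃ c : ℕ → V, Set.InjOn c (Set.Iio k) ∧ (∀ t < k, c t ∈ s) := by
  obtain ⟨s', hs', hc⟩ := Finset.exists_subset_card_eq h
  let f := s'.equivFinOfCardEq hc
  refine ⟨fun t => if ht : t < k then ((f.symm ⟨t, ht⟩ : s') : V) else v, ?_, ?_⟩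
  · intro i hi j hj hij
    have hi' : i < k := hi
    have hj' : j < k := hj
    simp only [hi', hj', dif_pos] at hij
    have h1 := Subtype.ext hij
    have h2 := f.symm.injective h1
    exact congrArg Fin.val h2
  · intro t ht
    simp only [ht, dif_pos]
    exact hs' (f.symm ⟨t, ht⟩).2

theorem inner_bound {V : Type} [DecidableEq V] {A B : Finset V} {l : ℕ}
    (h : (symmDiff A B).card ≤ l) : (A \ B).card ≤ l ∧ (B \ A).card ≤ l := by
  have h1 : symmDiff A B = (A \ B) ∪ (B \ A) := rfl
  constructor
  · refine le_trans (card_le_card ?_) h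
    rw [h1]
    exact subset_union_left
  · refine le_trans (card_le_card ?_) h
    rw [h1]
    exact subset_union_right

end E1B_

open E1B_ in
theorem p_E1B (hEMB : Pool.Agent.SFB.T_EMB) : T_E1B := by
  intro V _ _ G k l t a X v hT hv htk hd hS
  obtain ⟨hv1, -⟩ := inner_bound (hT.inn v hv)
  set R := ∑ s ∈ (range k).erase t, a s with hR
  have hSK : ∑ s ∈ range k, a s = R + a t := by
    rw [hR, sum_erase_add _ _ (mem_range.2 htk)]
  -- the free points for the centres
  have h1 : (Xᶜ).card ≤ (Xᶜ \ dg G v).card + (dg G v \ X).card := by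
    have h2 : Xᶜ ⊆ (Xᶜ \ dg G v) ∪ (dg G v \ X) := by
      intro w hw
      rw [mem_union, mem_sdiff, mem_sdiff]
      rw [mem_compl] at hw
      by_cases h3 : w ∈ dg G v
      · exact Or.inr ⟨h3, hw⟩
      · exact Or.inl ⟨mem_compl.2 hw, h3⟩
    exact (card_le_card h2).trans (card_union_le _ _)
  obtain ⟨c0, hc1, hc2⟩ := ex_centres (Xᶜ \ dg G v) k v (by omega)
  set c := Function.update c0 t v with hc
  have hct : c t = v := by rw [hc, Function.update_self]
  have hcu : ∀ u, u ≠ t → c u = c0 u := fun u hu => by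
    rw [hc, Function.update_of_ne hu]
  have hcX : ∀ u < k, u ≠ t → c u ∉ X := fun u hu hut => by
    rw [hcu u hut]
    exact mem_compl.1 (mem_sdiff.1 (hc2 u hu)).1
  have hcv : ∀ u < k, u ≠ t → c u ∉ dg G v := fun u hu hut => by
    rw [hcu u hut]
    exact (mem_sdiff.1 (hc2 u hu)).2
  have hCc : ((range k).image c).card ≤ k := by
    refine card_image_le.trans ?_
    rw [card_range]
  have hcard : ∀ A B : Finset V, A.card ≤ (A \ B).card + B.card := by
    intro A B
    have h3 := card_le_card_sdiff_add_card (s := A) (t := B)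
    exact h3
  have hinj : Set.InjOn c (Set.Iio k) := by
    intro i hi j hj hij
    have hi' : i < k := hi
    have hj' : j < k := hj
    by_cases h4 : i = t
    · by_cases h5 : j = t
      · rw [h4, h5]
      · rw [h4, hct] at hij
        exact absurd (hij ▸ hv) (hcX j hj' h5)
    · by_cases h5 : j = t
      · rw [h5, hct] at hij
        exact absurd (hij ▸ hv) (hcX i hi' h4)
      · rw [hcu i h4, hcu j h5] at hij
        exact hc1 hi hj hij
  refine hEMB V G k a c hinj ?_
  intro J hJ hJne
  by_cases hJK : J = {t}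
  · subst hJK
    rw [sum_singleton]
    refine hd.trans (card_le_card ?_)
    intro w hw
    rw [mem_sdiff]
    constructor
    · rw [Pool.Agent.SFB.mem_nc]
      exact ⟨t, mem_singleton_self t, by rw [hct]; exact hw⟩
    · rw [mem_image]
      rintro ⟨u, hu, rfl⟩
      rw [mem_range] at hu
      by_cases h4 : u = t
      · rw [h4, hct] at hw
        exact Pool.Agent.SFB.not_mem_dg hw
      · exact hcv u hu h4 hw
  · -- some `u ≠ t` in `J`
    obtain ⟨u, huJ, hut⟩ : ∃ u ∈ J, u ≠ t := by
      by_contra hcon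
      push Not at hcon
      exact hJK (eq_singleton_iff_nonempty_unique_mem.2 ⟨hJne, hcon⟩)
    have huk : u < k := mem_range.1 (hJ huJ)
    obtain ⟨-, ht2⟩ := inner_bound (hT.out (c u) (hcX u huk hut))
    have hb := hcard Xᶜ (Xᶜ \ dg G (c u))
    have h7 : (Xᶜ ∩ dg G (c u)) ⊆ nc G c J := by
      intro w hw
      rw [Pool.Agent.SFB.mem_nc]
      exact ⟨u, huJ, (mem_inter.1 hw).2⟩
    have h8 : Xᶜ \ (Xᶜ \ dg G (c u)) = Xᶜ ∩ dg G (c u) := by
      ext w
      simp only [mem_sdiff, mem_inter]
      tauto
    rw [h8] at hb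
    have h9 := hcard (nc G c J) ((range k).image c)
    by_cases hKJ : t ∈ J
    · have h10 : (dg G v ∩ X) ∪ (Xᶜ ∩ dg G (c u)) ⊆ nc G c J := by
        refine union_subset ?_ h7
        intro w hw
        rw [Pool.Agent.SFB.mem_nc]
        exact ⟨t, hKJ, by rw [hct]; exact (mem_inter.1 hw).1⟩
      have h11 : Disjoint (dg G v ∩ X) (Xᶜ ∩ dg G (c u)) := by
        rw [disjoint_left]
        intro w hw hw'
        exact (mem_compl.1 (mem_inter.1 hw').1) (mem_inter.1 hw).2
      have h12 := card_le_card h10
      rw [card_union_of_disjoint h11] at h12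
      have h13 := hcard (dg G v) (dg G v \ X)
      have h14 : dg G v \ (dg G v \ X) = dg G v ∩ X := by
        ext w
        simp only [mem_sdiff, mem_inter]
        tauto
      rw [h14] at h13
      have h15 : ∑ s ∈ J, a s ≤ ∑ s ∈ range k, a s := sum_le_sum_of_subset hJ
      omega
    · have h12 := card_le_card h7
      have h15 : ∑ s ∈ J, a s ≤ R := by
        refine sum_le_sum_of_subset ?_
        intro s hs
        exact mem_erase.2 ⟨fun h => hKJ (h ▸ hs), hJ hs⟩
      omega

end Pool.Agent.SFG
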