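import Pool.Agent.SFG.Targets

/-!
# SFG: target EXA, the exact part
-/

set_option autoImplicit false

open Finset

namespace Pool.Agent.SFG

open Pool.Agent.StarF (starForest ramsey)
open Pool.Agent.SFB (Con dg nc Chain Two)

theorem p_EXA (hFTB : Pool.Agent.SFB.T_FTB) (hFTR : Pool.Agent.SFB.T_FTR) (hTIG : T_TIG) :
    T_EXA := by
  intro V _ _ G a k K q e X hP hT hX hXc hf
  have hXX : (Xᶜ)ᶜ = X := compl_compl X
  have hsum : X.card + (Xᶜ).card = Fintype.card V := X.card_add_card_compl
  by_cases hx : ∃ t < k, a t + 1 ≤ X.card ∧ X.card < a t + k + el k q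
  · exact hTIG V G a k K q e X hP hT hX hXc hf hx
  by_cases hy : ∃ t < k, a t + 1 ≤ (Xᶜ).card ∧ (Xᶜ).card < a t + k + el k q
  · exact hTIG V G a k K q e Xᶜ hP hT.symm hXc (by rw [hXX]; exact hX) hf hy
  have hx' : ∀ t < k, a t + 1 ≤ X.card → a t + k + el k q ≤ X.card := by
    intro t ht h1
    by_contra h2
    exact hx ⟨t, ht, h1, by omega⟩
  have hy' : ∀ t < k, a t + 1 ≤ (Xᶜ).card → a t + k + el k q ≤ (Xᶜ).card := by
    intro t ht h1
    by_contra h2
    exact hy ⟨t, ht, h1, by omega⟩
  obtain ⟨A, hA, hor⟩ := hf X.card (Xᶜ).card 0 hsum (by have := hP.k2; omega)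
    (Or.inr rfl)
  have hk := hP.k2
  have hm : ∀ t < k, el k q ≤ a t := fun t ht => by
    have := hP.m2 t ht
    omega
  have hu : A ∪ range k \ A = range k := union_sdiff_of_subset hA
  have hd : Disjoint A (range k \ A) := disjoint_sdiff
  have hc : A.card + (range k \ A).card = k := by
    rw [card_sdiff_of_subset hA, card_range]
    have := card_le_card hA
    rw [card_range] at this
    omega
  have hbX := hP.b2 hX
  have hbXc := hP.b2 hXc
  have hsA : A.card = 1 → ∃ u < k, ∑ t ∈ A, a t = a u := by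
    intro h1
    obtain ⟨u, rfl⟩ := card_eq_one.1 h1
    exact ⟨u, mem_range.1 (hA (mem_singleton_self u)), sum_singleton _ _⟩
  have hsB : (range k \ A).card = 1 → ∃ u < k, ∑ t ∈ range k \ A, a t = a u := by
    intro h1
    obtain ⟨u, h2⟩ := card_eq_one.1 h1
    refine ⟨u, ?_, by rw [h2, sum_singleton]⟩
    have h3 : u ∈ range k \ A := by
      rw [h2]
      exact mem_singleton_self u
    exact mem_range.1 (mem_sdiff.1 h3).1
  rcases hor with ⟨h1, h2, -⟩ | ⟨z, hz, -, h1, h2⟩
  · left
    refine hFTB V G k (el k q) (el k q) a A (range k \ A) X hT hu hd hm le_rfl hbX hbXc h1 h2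
      ?_ ?_
    · intro h3
      obtain ⟨u, hu1, hu2⟩ := hsA h3
      rw [h3, hu2] at h1
      have := hx' u hu1 h1
      omega
    · intro h3
      obtain ⟨u, hu1, hu2⟩ := hsB h3
      rw [h3, hu2] at h2
      have := hy' u hu1 h2
      omega
  · right
    have hz0 : z = 0 := by
      simpa using hz
    subst hz0
    refine hFTR V G k (el k q) (el k q) a A (range k \ A) X hT hu hd hm le_rfl hbX hbXc
      (by omega) (by omega) ?_ ?_
    · intro h3
      obtain ⟨u, hu1, hu2⟩ := hsA h3
      have := hx' u hu1 (by omega)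
      omega
    · intro h3
      obtain ⟨u, hu1, hu2⟩ := hsB h3
      have := hy' u hu1 (by omega)
      omega

end Pool.Agent.SFG
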