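import Pool.Agent.SFG.Targets
import Pool.Agent.SFB.P_EXT

set_option autoImplicit false

/-!
# SFG-EXT: extension of a chain
-/

open Finset

namespace Pool.Agent.SFG

open Pool.Agent.StarF (starForest ramsey)
open Pool.Agent.SFB (Con dg nc Chain Two)

theorem p_EXT (hAVE : T_AVE) : T_EXT := by
  intro V _ _ G Y X L P a f i r c D hP hX hcX hc hN
  set U : Finset V := (range i).biUnion D with hU
  have hUc : U.card ≤ ∑ t ∈ range i, a t := by
    refine le_trans Finset.card_biUnion_le ?_
    exact Finset.sum_le_sum fun t ht => (hc.crd t (mem_range.1 ht)).le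
  have h1 := hAVE V G Y X L P hP (univ \ U)
  -- the intersection is large
  have h2 : Fintype.card V ≤ ((univ \ U) ∩ X).card + U.card + (Xᶜ).card := by
    have h3 : (univ : Finset V) ⊆ (((univ \ U) ∩ X) ∪ U) ∪ Xᶜ := by
      intro x _
      by_cases hx : x ∈ X
      · by_cases hxU : x ∈ U
        · simp [hxU]
        · simp [hx, hxU]
      · simp [hx]
    have h4 := Finset.card_le_card h3
    rw [Finset.card_univ] at h4
    exact h4.trans (le_trans (Finset.card_union_le _ _)
      (Nat.add_le_add_right (Finset.card_union_le _ _) _))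
  have h3 : (2 * (a i + f) + 1 : ℝ) ≤ (((univ \ U) ∩ X).card : ℝ) := by
    have h5 : 2 * (a i + f) + 1 ≤ ((univ \ U) ∩ X).card := by omega
    exact_mod_cast h5
  have h4 : ((a i + f : ℕ) : ℝ) ≤ ∑ v, P v * ((dg G v ∩ (univ \ U)).card : ℝ) := by
    push_cast
    linarith
  -- a good vertex
  obtain ⟨v, hv0, hv⟩ : ∃ v, P v ≠ 0 ∧ a i + f ≤ (dg G v ∩ (univ \ U)).card := by
    by_contra hcon
    have h5 : ∀ v, P v * ((dg G v ∩ (univ \ U)).card : ℝ) ≤ P v * ((a i + f : ℕ) - 1 : ℝ) := by
      intro v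
      rcases eq_or_ne (P v) 0 with h6 | h6
      · rw [h6, zero_mul, zero_mul]
      · refine mul_le_mul_of_nonneg_left ?_ (hP.nn v)
        have h7 : ¬ a i + f ≤ (dg G v ∩ (univ \ U)).card := fun h => hcon ⟨v, h6, h⟩
        have h8 : (dg G v ∩ (univ \ U)).card + 1 ≤ a i + f := by omega
        have h9 : (((dg G v ∩ (univ \ U)).card + 1 : ℕ) : ℝ) ≤ ((a i + f : ℕ) : ℝ) := by
          exact_mod_cast h8
        rw [Nat.cast_add, Nat.cast_one] at h9
        linarith
    have h6 := Finset.sum_le_sum fun v (_ : v ∈ (univ : Finset V)) => h5 v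
    rw [← Finset.sum_mul, hP.one, one_mul] at h6
    linarith
  have hvY : v ∈ Y := by
    by_contra h
    exact hv0 (hP.sp v h)
  have hset : ∀ u, dg G u ∩ (univ \ U) = dg G u \ U := by
    intro u
    ext x
    simp
  rcases Nat.eq_zero_or_pos i with hi | hi
  · -- a vertex of maximal degree
    obtain ⟨u, -, hu⟩ := Finset.exists_max_image (univ : Finset V) (fun w => (dg G w).card)
      ⟨v, mem_univ v⟩
    have hU0 : U = ∅ := by
      rw [hU, hi]
      rfl
    refine Pool.Agent.SFB.EXT_.ext_of G a f i c D hc u (fun t ht => absurd ht (by omega)) ?_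
      (fun _ w => hu w (mem_univ w))
    rw [← hU, hU0, sdiff_empty]
    rw [hset, hU0, sdiff_empty] at hv
    exact hv.trans (hu v (mem_univ v))
  · refine Pool.Agent.SFB.EXT_.ext_of G a f i c D hc v (fun t ht h => hcX t ht (h ▸ hvY)) ?_
      (fun h => absurd h (by omega))
    rw [← hU, ← hset]
    exact hv

end Pool.Agent.SFG
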