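import Pool.Agent.SFG.Targets

/-!
# SFG: points far apart
-/

set_option autoImplicit false

open Finset

namespace Pool.Agent.SFG

open Pool.Agent.StarF (starForest ramsey)
open Pool.Agent.SFB (Con dg nc Chain Two)

namespace FAR_

variable {V : Type} [DecidableEq V]

/-- The set of points which are close to `u`. -/
def F (E : V → Finset V) (u : V) : Finset V := insert u (E u ∪ (E u).biUnion E)

lemma card_F {E : V → Finset V} {l : ℕ} (hl : ∀ u, (E u).card ≤ l) (u : V) :
    (F E u).card ≤ l ^ 2 + l + 1 := by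
  unfold F
  refine (card_insert_le _ _).trans (Nat.succ_le_succ ((card_union_le _ _).trans ?_))
  have h1 : ((E u).biUnion E).card ≤ (E u).card * l := card_biUnion_le_card_mul _ _ _ fun w _ => hl w
  have h2 : (E u).card * l ≤ l * l := Nat.mul_le_mul_right _ (hl u)
  have h3 := hl u
  rw [pow_two]
  omega

lemma far {E : V → Finset V} (hs : ∀ u w, w ∈ E u → u ∈ E w) {u x : V} (hx : x ∉ F E u) :
    u ≠ x ∧ x ∉ E u ∧ u ∉ E x ∧ Disjoint (E u) (E x) := by
  unfold F at hx
  rw [mem_insert, mem_union, mem_biUnion] at hx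
  push Not at hx
  refine ⟨fun h => hx.1 h.symm, hx.2.1, fun h => hx.2.1 (hs _ _ h), ?_⟩
  rw [disjoint_left]
  intro w h1 h2
  exact hx.2.2 w h1 (hs _ _ h2)

lemma aux {E : V → Finset V} {l : ℕ} {X : Finset V} (hs : ∀ u w, w ∈ E u → u ∈ E w)
    (hl : ∀ u, (E u).card ≤ l) (b : ℕ) {v0 : V} (hv : v0 ∈ X) (B : Finset ℕ) :
    b ∉ B → (B.card + 1) * (l ^ 2 + l + 1) ≤ X.card →
    ∃ c : ℕ → V, c b = v0 ∧ (∀ t ∈ insert b B, c t ∈ X) ∧
      ∀ s ∈ insert b B, ∀ t ∈ insert b B, s ≠ t →
        c s ≠ c t ∧ c s ∉ E (c t) ∧ Disjoint (E (c s)) (E (c t)) := by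
  induction B using Finset.induction_on with
  | empty =>
    intro _ _
    refine ⟨fun _ => v0, rfl, fun _ _ => hv, fun s h1 t h2 h3 => ?_⟩
    rw [mem_insert] at h1 h2
    rcases h1 with h1 | h1
    · rcases h2 with h2 | h2
      · exact absurd (h1.trans h2.symm) h3
      · exact absurd h2 (notMem_empty _)
    · exact absurd h1 (notMem_empty _)
  | insert a B ha ih =>
    intro hb hX
    rw [mem_insert, not_or] at hb
    rw [card_insert_of_notMem ha] at hX
    obtain ⟨c, hcb, hcX, hc⟩ := ih hb.2 (le_trans (Nat.mul_le_mul_right _ (by omega)) hX)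
    set W : Finset V := (insert b B).biUnion (fun s => F E (c s)) with hW
    have hWc : W.card ≤ (B.card + 1) * (l ^ 2 + l + 1) := by
      have h1 : W.card ≤ (insert b B).card * (l ^ 2 + l + 1) :=
        card_biUnion_le_card_mul _ _ _ fun s _ => card_F hl (c s)
      rwa [card_insert_of_notMem hb.2] at h1
    have hlt : W.card < X.card := by
      have h2 : (B.card + 1 + 1) * (l ^ 2 + l + 1) =
          (B.card + 1) * (l ^ 2 + l + 1) + (l ^ 2 + l + 1) := by ring
      omega
    obtain ⟨x, hxX, hxW⟩ := exists_mem_notMem_of_card_lt_card hlt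
    have hxF : ∀ s ∈ insert b B, x ∉ F E (c s) := by
      intro s h1 h2
      exact hxW (mem_biUnion.2 ⟨s, h1, h2⟩)
    have haI : a ∉ insert b B := by
      rw [mem_insert, not_or]
      exact ⟨fun h => hb.1 h.symm, ha⟩
    have hne : ∀ s ∈ insert b B, Function.update c a x s = c s := by
      intro s h1
      refine Function.update_of_ne (fun h2 => haI ?_) x c
      rwa [← h2]
    have hI : ∀ s, s ∈ insert b (insert a B) → s = a ∨ s ∈ insert b B := by
      intro s h1
      rw [mem_insert, mem_insert] at h1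
      rw [mem_insert]
      tauto
    refine ⟨Function.update c a x, ?_, ?_, ?_⟩
    · rw [hne b (mem_insert_self b B), hcb]
    · intro t ht
      rcases hI t ht with h1 | h1
      · rw [h1, Function.update_self]
        exact hxX
      · rw [hne t h1]
        exact hcX t h1
    · intro s h1 t h2 h3
      rcases hI s h1 with h4 | h4
      · rcases hI t h2 with h5 | h5
        · exact absurd (h4.trans h5.symm) h3
        · rw [h4, Function.update_self, hne t h5]
          have h6 := far hs (hxF t h5)
          exact ⟨h6.1.symm, h6.2.1, h6.2.2.2.symm⟩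
      · rcases hI t h2 with h5 | h5
        · rw [h5, Function.update_self, hne s h4]
          have h6 := far hs (hxF s h4)
          exact ⟨h6.1, h6.2.2.1, h6.2.2.2⟩
        · rw [hne s h4, hne t h5]
          exact hc s h4 t h5 h3

end FAR_

theorem p_FAR : T_FAR := by
  intro V _ _ E l X B b v0 hs hl hb hv hX
  have h1 : (B.erase b).card + 1 = B.card := card_erase_add_one hb
  have h2 := FAR_.aux hs hl b hv (B.erase b) (notMem_erase b B) (by rw [h1]; exact hX)
  rwa [insert_erase hb] at h2

end Pool.Agent.SFG
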