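import Pool.Agent.SFG.Targets

/-!
# SFG, FTI: the exact blue embedding which uses the blue edges inside the first block
-/

set_option autoImplicit false

open Finset

namespace Pool.Agent.SFG

open Pool.Agent.StarF (starForest ramsey)
open Pool.Agent.SFB (Con dg nc Chain Two mem_dg mem_dg_comm not_mem_dg mem_dg_compl mem_nc)

namespace FTI_

variable {V : Type} [Fintype V] [DecidableEq V]

theorem split (S X : Finset V) : (S ∩ X).card + (S ∩ Xᶜ).card ≤ S.card := by
  rw [← card_union_of_disjoint]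
  · refine card_le_card ?_
    intro w hw
    rw [mem_union, mem_inter, mem_inter] at hw
    rcases hw with hw | hw
    · exact hw.1
    · exact hw.1
  · rw [disjoint_left]
    intro w hw hw'
    exact (mem_compl.1 (mem_inter.1 hw').2) (mem_inter.1 hw).2

theorem side (U D E C : Finset V) (hD : ∀ w ∈ U, w ∉ E → w ∈ D) :
    U.card ≤ ((D \ C) ∩ U).card + E.card + (C ∩ U).card := by
  have h1 : U ⊆ (((D \ C) ∩ U) ∪ E) ∪ (C ∩ U) := by
    intro w hw
    rw [mem_union, mem_union, mem_inter, mem_sdiff, mem_inter]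
    by_cases h2 : w ∈ C
    · exact Or.inr ⟨h2, hw⟩
    · by_cases h3 : w ∈ E
      · exact Or.inl (Or.inr h3)
      · exact Or.inl (Or.inl ⟨⟨hD w hw h3, h2⟩, hw⟩)
  have h2 := card_le_card h1
  have h3 := card_union_le (((D \ C) ∩ U) ∪ E) (C ∩ U)
  have h4 := card_union_le ((D \ C) ∩ U) E
  omega

theorem ex_inj (A : Finset ℕ) (Y : Finset V) (v : V) (h : A.card ≤ Y.card) :
    ∃ c : ℕ → V, (∀ t ∈ A, c t ∈ Y) ∧ Set.InjOn c (A : Set ℕ) := by
  haveI : Nonempty V := ⟨v⟩
  have h1 : (A : Set ℕ).encard ≤ (Y : Set V).encard := by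
    rw [Set.encard_coe_eq_coe_finsetCard, Set.encard_coe_eq_coe_finsetCard]
    exact_mod_cast h
  obtain ⟨f, hf, hi⟩ := (A.finite_toSet).exists_injOn_of_encard_le h1
  exact ⟨f, fun t ht => hf (mem_coe.2 ht), hi⟩

/-- The exceptional set of `u`. -/
noncomputable def ex (G : SimpleGraph V) (X : Finset V) (u : V) : Finset V :=
  (symmDiff (dg G u) (if u ∈ X then X else Xᶜ)) \ {u}

theorem mem_ex {G : SimpleGraph V} {X : Finset V} {u w : V} :
    w ∈ ex G X u ↔ w ≠ u ∧ (w ∈ dg G u ↔ ¬ (u ∈ X ↔ w ∈ X)) := by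
  unfold ex
  rw [mem_sdiff, mem_singleton, mem_symmDiff]
  by_cases h : u ∈ X
  · simp only [h, if_true, true_iff]
    tauto
  · simp only [h, if_false, false_iff, mem_compl]
    tauto

theorem ex_symm {G : SimpleGraph V} {X : Finset V} (u w : V) (h : w ∈ ex G X u) :
    u ∈ ex G X w := by
  rw [mem_ex] at h ⊢
  rw [mem_dg_comm]
  exact ⟨h.1.symm, by tauto⟩

theorem ex_card {G : SimpleGraph V} {X : Finset V} {l : ℕ} (h : Two G X l) (u : V) :
    (ex G X u).card ≤ l := by
  unfold ex
  refine (card_le_card sdiff_subset).trans ?_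
  by_cases hu : u ∈ X
  · simp only [hu, if_true]
    exact h.inn u hu
  · simp only [hu, if_false]
    exact h.out u hu

theorem mem_blue {G : SimpleGraph V} {X : Finset V} {u w : V} (h : w ≠ u) :
    w ∈ dg Gᶜ u ↔ ((u ∈ X ↔ w ∈ X) ↔ w ∈ ex G X u) := by
  rw [mem_dg_compl, mem_ex]
  tauto

end FTI_

open FTI_ in
theorem p_FTI (hEMB : Pool.Agent.SFB.T_EMB) (hFAR : T_FAR) : T_FTI := by
  intro V _ _ G k l c ε a A B X v0 hT hAB hdis hB2 hc hv0 hcv hX hXc hsA hsB hsN ha
  have hAk : A ⊆ range k := hAB ▸ subset_union_left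
  have hBk : B ⊆ range k := hAB ▸ subset_union_right
  have hABc : A.card + B.card = k := by
    rw [← card_union_of_disjoint hdis, hAB, card_range]
  obtain ⟨b, hb⟩ : B.Nonempty := by
    rw [← card_pos]
    omega
  obtain ⟨cB, hb0, hcX, hcf⟩ := hFAR V (ex G X) l X B b v0 ex_symm (ex_card hT) hb hv0
    ((Nat.mul_le_mul_right _ (by omega : B.card ≤ k)).trans hX)
  obtain ⟨cA, hcA, hiA⟩ := ex_inj A Xᶜ v0 (by omega)
  obtain ⟨cc, hcc⟩ : ∃ cc : ℕ → V, cc = fun t => if t ∈ B then cB t else cA t := ⟨_, rfl⟩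
  have ccB : ∀ t ∈ B, cc t = cB t := by
    intro t ht
    rw [hcc]
    simp only [ht, if_true]
  have ccA : ∀ t ∈ A, cc t = cA t := by
    intro t ht
    have h1 : t ∉ B := disjoint_left.1 hdis ht
    rw [hcc]
    simp only [h1, if_false]
  have inX : ∀ t ∈ B, cc t ∈ X := fun t ht => by
    rw [ccB t ht]
    exact hcX t ht
  have outX : ∀ t ∈ A, cc t ∉ X := fun t ht => by
    rw [ccA t ht]
    exact mem_compl.1 (hcA t ht)
  have far : ∀ s ∈ B, ∀ t ∈ B, s ≠ t →
      cc s ≠ cc t ∧ cc s ∉ ex G X (cc t) ∧ Disjoint (ex G X (cc s)) (ex G X (cc t)) := by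
    intro s hs t ht hst
    rw [ccB s hs, ccB t ht]
    exact hcf s hs t ht hst
  have hmem : ∀ t < k, t ∈ A ∨ t ∈ B := by
    intro t ht
    rw [← mem_union, hAB, mem_range]
    exact ht
  have hinj : Set.InjOn cc (Set.Iio k) := by
    intro i hi j hj hij
    rcases hmem i hi with h1 | h1 <;> rcases hmem j hj with h2 | h2
    · rw [ccA i h1, ccA j h2] at hij
      exact hiA (mem_coe.2 h1) (mem_coe.2 h2) hij
    · exact absurd (inX j h2) (hij ▸ outX i h1)
    · exact absurd (inX i h1) (hij ▸ outX j h2)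
    · by_contra hne
      exact (far i h1 j h2 hne).1 hij
  obtain ⟨C, hC⟩ : ∃ C : Finset V, C = (range k).image cc := ⟨_, rfl⟩
  have hCX : (C ∩ X).card ≤ B.card := by
    refine le_trans (card_le_card ?_) (card_image_le (s := B) (f := cc))
    intro w hw
    rw [mem_inter, hC, mem_image] at hw
    obtain ⟨⟨t, ht, rfl⟩, hw⟩ := hw
    rcases hmem t (mem_range.1 ht) with h1 | h1
    · exact absurd hw (outX t h1)
    · exact mem_image_of_mem _ h1
  have hCXc : (C ∩ Xᶜ).card ≤ A.card := by
    refine le_trans (card_le_card ?_) (card_image_le (s := A) (f := cc))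
    intro w hw
    rw [mem_inter, hC, mem_image] at hw
    obtain ⟨⟨t, ht, rfl⟩, hw⟩ := hw
    rcases hmem t (mem_range.1 ht) with h1 | h1
    · exact mem_image_of_mem _ h1
    · exact absurd (inX t h1) (mem_compl.1 hw)
  -- large sets of neighbours
  have bigB : ∀ t ∈ B, (Xᶜ).card ≤ ((dg Gᶜ (cc t) \ C) ∩ Xᶜ).card + l + A.card := by
    intro t ht
    have h1 := side Xᶜ (dg Gᶜ (cc t)) (ex G X (cc t)) C (by
      intro w hw hw'
      rw [mem_compl] at hw
      have h2 := inX t ht
      have hne : w ≠ cc t := fun h => hw (by rw [h]; exact h2)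
      rw [mem_blue (X := X) hne]
      tauto)
    have h2 := ex_card hT (cc t)
    omega
  have bigA : ∀ t ∈ A, X.card ≤ ((dg Gᶜ (cc t) \ C) ∩ X).card + l + B.card := by
    intro t ht
    have h1 := side X (dg Gᶜ (cc t)) (ex G X (cc t)) C (by
      intro w hw hw'
      have h2 := outX t ht
      have hne : w ≠ cc t := fun h => h2 (by rw [← h]; exact hw)
      rw [mem_blue (X := X) hne]
      tauto)
    have h2 := ex_card hT (cc t)
    omega
  refine hEMB V Gᶜ k a cc hinj ?_
  intro J hJ hJne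
  rw [← hC]
  have mono : ∀ t ∈ J, ∀ U : Finset V,
      ((dg Gᶜ (cc t) \ C) ∩ U).card ≤ ((nc Gᶜ cc J \ C) ∩ U).card := by
    intro t ht U
    refine card_le_card ?_
    intro w hw
    rw [mem_inter, mem_sdiff] at hw ⊢
    exact ⟨⟨mem_nc.2 ⟨t, ht, hw.1.1⟩, hw.1.2⟩, hw.2⟩
  have hsp := split (nc Gᶜ cc J \ C) X
  have hcX' := card_add_card_compl X
  by_cases hJA : ∃ s ∈ J, s ∈ A
  · obtain ⟨s, hsJ, hsA'⟩ := hJA
    have h1 := bigA s hsA'
    have h2 := mono s hsJ X
    by_cases hJB : ∃ t ∈ J, t ∈ B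
    · obtain ⟨t, htJ, htB⟩ := hJB
      have h3 := bigB t htB
      have h4 := mono t htJ Xᶜ
      have h5 : ∑ t ∈ J, a t ≤ ∑ t ∈ range k, a t := sum_le_sum_of_subset hJ
      omega
    · push Not at hJB
      have h5 : ∑ t ∈ J, a t ≤ ∑ t ∈ A, a t := by
        refine sum_le_sum_of_subset ?_
        intro t ht
        rcases hmem t (mem_range.1 (hJ ht)) with h6 | h6
        · exact h6
        · exact absurd h6 (hJB t ht)
      omega
  · push Not at hJA
    have hJB : J ⊆ B := by
      intro t ht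
      rcases hmem t (mem_range.1 (hJ ht)) with h6 | h6
      · exact absurd h6 (hJA t ht)
      · exact h6
    by_cases hBJ : B ⊆ J
    · have hJeq : J = B := Subset.antisymm hJB hBJ
      rw [hJeq] at hsp mono ⊢
      -- outside `X`
      have h1 : (Xᶜ).card ≤ ((nc Gᶜ cc B \ C) ∩ Xᶜ).card + 0 + (C ∩ Xᶜ).card := by
        refine side Xᶜ (nc Gᶜ cc B) ∅ C ?_ |>.trans (by simp)
        intro w hw _
        rw [mem_compl] at hw
        obtain ⟨s, hs, t, ht, hst⟩ := Finset.one_lt_card.1 (show 1 < B.card by omega)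
        have h2 := (far s hs t ht hst).2.2
        have h3 : ∀ r ∈ B, w ∉ ex G X (cc r) → w ∈ nc Gᶜ cc B := by
          intro r hr hr'
          refine mem_nc.2 ⟨r, hr, ?_⟩
          have h4 := inX r hr
          have hne : w ≠ cc r := fun h => hw (by rw [h]; exact h4)
          rw [mem_blue (X := X) hne]
          tauto
        by_cases h5 : w ∈ ex G X (cc s)
        · exact h3 t ht (disjoint_left.1 h2 h5)
        · exact h3 s hs h5
      -- inside `X`
      have h2 : ∑ t ∈ B, (dg Gᶜ (cc t) ∩ X).card ≤ ((nc Gᶜ cc B \ C) ∩ X).card := by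
        rw [← card_biUnion]
        · refine card_le_card ?_
          intro w hw
          rw [mem_biUnion] at hw
          obtain ⟨t, ht, hw⟩ := hw
          rw [mem_inter] at hw
          rw [mem_inter, mem_sdiff]
          refine ⟨⟨mem_nc.2 ⟨t, ht, hw.1⟩, ?_⟩, hw.2⟩
          intro hwC
          rw [hC, mem_image] at hwC
          obtain ⟨s, hs, rfl⟩ := hwC
          rcases hmem s (mem_range.1 hs) with h3 | h3
          · exact outX s h3 hw.2
          · by_cases h4 : s = t
            · rw [h4] at hw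
              exact (mem_dg_compl.1 hw.1).1 rfl
            · have h5 := far s h3 t ht h4
              rw [mem_blue (X := X) h5.1] at hw
              exact h5.2.1 (hw.1.1 ⟨fun _ => inX s h3, fun _ => inX t ht⟩)
        · intro s hs t ht hst
          have h5 := (far s hs t ht hst).2.2
          show Disjoint (dg Gᶜ (cc s) ∩ X) (dg Gᶜ (cc t) ∩ X)
          rw [disjoint_left]
          intro w hw hw'
          rw [mem_inter] at hw hw'
          have h6 := (mem_dg_compl.1 hw.1).1
          have h7 := (mem_dg_compl.1 hw'.1).1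
          rw [mem_blue (X := X) h6] at hw
          rw [mem_blue (X := X) h7] at hw'
          exact disjoint_left.1 h5 (hw.1.1 ⟨fun _ => hw.2, fun _ => inX s hs⟩)
            (hw'.1.1 ⟨fun _ => hw.2, fun _ => inX t ht⟩)
      have h3 : B.card * c + ε ≤ ∑ t ∈ B, (dg Gᶜ (cc t) ∩ X).card := by
        rw [← sum_erase_add _ _ hb]
        have h4 : (B.erase b).card * c ≤ ∑ t ∈ B.erase b, (dg Gᶜ (cc t) ∩ X).card := by
          rw [← smul_eq_mul]
          exact card_nsmul_le_sum _ _ _ fun t ht => hc _ (inX t (mem_of_mem_erase ht))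
        have h5 : c + ε ≤ (dg Gᶜ (cc b) ∩ X).card := by
          rw [ccB b hb, hb0]
          exact hcv
        have h6 : B.card * c = (B.erase b).card * c + c := by
          have h7 := card_erase_add_one hb
          rw [← h7]
          ring
        omega
      omega
    · obtain ⟨t0, ht0, ht0J⟩ := not_subset.1 hBJ
      obtain ⟨s, hs⟩ := hJne
      have h1 := bigB s (hJB hs)
      have h2 := mono s hs Xᶜ
      have h3 : ∑ t ∈ J, a t + a t0 ≤ ∑ t ∈ B, a t := by
        rw [← sum_erase_add _ _ ht0]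
        refine Nat.add_le_add_right (sum_le_sum_of_subset ?_) _
        intro j hj
        rw [mem_erase]
        exact ⟨fun h => ht0J (h ▸ hj), hJB hj⟩
      have h4 := ha t0 (mem_range.1 (hBk ht0))
      have h5 : B.card * c ≤ k * c := Nat.mul_le_mul_right _ (by omega)
      omega

end Pool.Agent.SFG
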