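import Pool.Agent.SFG.Targets

set_option autoImplicit false

open Finset

namespace Pool.Agent.SFG

open Pool.Agent.StarF (starForest ramsey)
open Pool.Agent.SFB (Con dg nc Chain Two mem_dg mem_nc)

namespace GRD_

variable {V : Type} [Fintype V] [DecidableEq V]

/-- One step of the greedy extension. -/
lemma step (G : SimpleGraph V) (k i : ℕ) (a : ℕ → ℕ) (c : ℕ → V) (hik : i < k)
    (hinj : Set.InjOn c (Set.Iio i))
    (hH : ∀ J ⊆ range i, J.Nonempty → ∑ t ∈ J, a t + k ≤ (nc G c J).card)
    (hO : Orc G a k i) :
    ∃ c' : ℕ → V, Set.InjOn c' (Set.Iio (i + 1)) ∧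
      ∀ J ⊆ range (i + 1), J.Nonempty → ∑ t ∈ J, a t + k ≤ (nc G c' J).card := by
  obtain ⟨D, hD, hdsj⟩ := Pool.Agent.StarF.hall (range i) a (fun t => dg G (c t)) (by
    intro J hJ
    rcases J.eq_empty_or_nonempty with h | h
    · rw [h]
      simp
    · have h1 := hH J hJ h
      have h2 : (nc G c J).card = (J.biUnion fun t => dg G (c t)).card := rfl
      rw [← h2]
      omega)
  have hcard : ∀ J ⊆ range i, (J.biUnion D).card = ∑ t ∈ J, a t := by
    intro J hJ
    rw [card_biUnion]
    · exact sum_congr rfl fun t ht => (hD t (hJ ht)).2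
    · intro s hs t ht hst
      exact hdsj s (hJ hs) t (hJ ht) hst
  obtain ⟨u, huU, hu⟩ := hO ((range i).image c) (univ \ (range i).biUnion D)
    (card_image_le.trans (by rw [card_range]; omega)) (by
      have h1 : (univ \ (range i).biUnion D).card = Fintype.card V -
          ((range i).biUnion D).card := by
        rw [card_sdiff_of_subset (subset_univ _), card_univ]
      have h2 : ((range i).biUnion D).card ≤ Fintype.card V := card_le_univ _
      rw [h1, ← hcard (range i) (Subset.refl _)]
      omega)
  have hne : ∀ t < i, u ≠ c t := by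
    intro t ht h
    exact huU (mem_image.2 ⟨t, mem_range.2 ht, h.symm⟩)
  have hup : ∀ t < i, Function.update c i u t = c t := fun t ht =>
    Function.update_of_ne (Nat.ne_of_lt ht) _ _
  refine ⟨Function.update c i u, ?_, ?_⟩
  · intro s hs t ht hst
    rw [Set.mem_Iio] at hs ht
    rcases Nat.lt_or_ge s i with h1 | h1
    · rcases Nat.lt_or_ge t i with h2 | h2
      · rw [hup s h1, hup t h2] at hst
        exact hinj h1 h2 hst
      · have h3 : t = i := by omega
        rw [hup s h1, h3, Function.update_self] at hst
        exact absurd hst.symm (hne s h1)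
    · have h3 : s = i := by omega
      rcases Nat.lt_or_ge t i with h2 | h2
      · rw [hup t h2, h3, Function.update_self] at hst
        exact absurd hst (hne t h2)
      · omega
  · intro J hJ hJn
    by_cases hi : i ∈ J
    · have hJ' : J.erase i ⊆ range i := by
        intro t ht
        have h1 := mem_range.1 (hJ (mem_of_mem_erase ht))
        have h2 := ne_of_mem_erase ht
        exact mem_range.2 (by omega)
      have hsub : (J.erase i).biUnion D ∪ (dg G u ∩ (univ \ (range i).biUnion D)) ⊆
          nc G (Function.update c i u) J := by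
        intro w hw
        rw [mem_union, mem_biUnion] at hw
        rw [mem_nc]
        rcases hw with ⟨t, ht, hwt⟩ | hw
        · have h1 := mem_range.1 (hJ' ht)
          refine ⟨t, mem_of_mem_erase ht, ?_⟩
          rw [hup t h1]
          exact (hD t (hJ' ht)).1 hwt
        · refine ⟨i, hi, ?_⟩
          rw [Function.update_self]
          exact (mem_inter.1 hw).1
      have hdis : Disjoint ((J.erase i).biUnion D) (dg G u ∩ (univ \ (range i).biUnion D)) := by
        rw [disjoint_left]
        intro w hw hw'
        have h1 := (mem_sdiff.1 (mem_inter.1 hw').2).2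
        apply h1
        rw [mem_biUnion] at hw ⊢
        obtain ⟨t, ht, hwt⟩ := hw
        exact ⟨t, hJ' ht, hwt⟩
      have h1 := card_le_card hsub
      rw [card_union_of_disjoint hdis, hcard _ hJ'] at h1
      have h2 := sum_erase_add J a hi
      omega
    · have hJ' : J ⊆ range i := by
        intro t ht
        have h1 := mem_range.1 (hJ ht)
        have h2 : t ≠ i := fun h => hi (h ▸ ht)
        exact mem_range.2 (by omega)
      have h1 := hH J hJ' hJn
      have h2 : nc G (Function.update c i u) J = nc G c J := by
        unfold nc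
        exact biUnion_congr rfl fun t ht => by rw [hup t (mem_range.1 (hJ' ht))]
      rw [h2]
      exact h1

end GRD_

/-- Greedy extension. -/
theorem p_GRD (hEMB : Pool.Agent.SFB.T_EMB) : T_GRD := by
  intro V _ _ G k i0 a c hi0 hinj hH hO
  have key : ∀ i, i0 ≤ i → i ≤ k → ∃ c' : ℕ → V, Set.InjOn c' (Set.Iio i) ∧
      ∀ J ⊆ range i, J.Nonempty → ∑ t ∈ J, a t + k ≤ (nc G c' J).card := by
    intro i hi
    induction i, hi using Nat.le_induction with
    | base => exact fun _ => ⟨c, hinj, hH⟩
    | succ i hi ih =>
      intro hik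
      obtain ⟨c', h1, h2⟩ := ih (by omega)
      exact GRD_.step G k i a c' (by omega) h1 h2 (hO i hi (by omega))
  obtain ⟨c', h1, h2⟩ := key k hi0 le_rfl
  refine hEMB V G k a c' h1 fun J hJ hJn => ?_
  have h3 := h2 J hJ hJn
  have h4 : ((range k).image c').card ≤ k := card_image_le.trans (by rw [card_range])
  have h5 := le_card_sdiff ((range k).image c') (nc G c' J)
  omega

end Pool.Agent.SFG
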