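import Pool.Agent.SFG.Targets

/-!
# SFG: the basic inequality
-/

set_option autoImplicit false

open Finset

namespace Pool.Agent.SFG

open Pool.Agent.StarF (starForest ramsey)
open Pool.Agent.SFB (Con dg nc Chain Two)

theorem p_INE : T_INE := by
  intro V _ _ G a k K c v J D hV hD
  obtain ⟨hJ, hcard⟩ := hV
  set W : Finset V := dg G v ∪ nc G c J with hW
  set A1 : Finset V := dg G v ∩ Out K D with hA1
  set A2 : Finset V := dg G v ∩ (range K \ J).biUnion D with hA2
  set A3 : Finset V := (nc G c J ∩ Out K D) \ dg G v with hA3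
  set A4 : Finset V := J.biUnion D with hA4
  have hOut : ∀ x, x ∈ Out K D → ∀ t < K, x ∉ D t := by
    intro x hx t ht hxt
    simp only [Out, mem_sdiff, mem_univ, true_and] at hx
    exact hx (mem_biUnion.2 ⟨t, mem_range.2 ht, hxt⟩)
  have h1 : A1 ⊆ W := by
    intro x hx
    rw [hA1, mem_inter] at hx
    exact mem_union_left _ hx.1
  have h2 : A2 ⊆ W := by
    intro x hx
    rw [hA2, mem_inter] at hx
    exact mem_union_left _ hx.1
  have h3 : A3 ⊆ W := by
    intro x hx
    rw [hA3, mem_sdiff, mem_inter] at hx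
    exact mem_union_right _ hx.1.1
  have h4 : A4 ⊆ W := by
    intro x hx
    rw [hA4, mem_biUnion] at hx
    obtain ⟨t, ht, hxt⟩ := hx
    exact mem_union_right _ (Pool.Agent.SFB.mem_nc.2 ⟨t, ht, hD.sub t (mem_range.1 (hJ ht)) hxt⟩)
  have d12 : Disjoint A1 A2 := by
    rw [disjoint_left]
    intro x hx hx'
    rw [hA1, mem_inter] at hx
    rw [hA2, mem_inter, mem_biUnion] at hx'
    obtain ⟨-, t, ht, hxt⟩ := hx'
    rw [mem_sdiff, mem_range] at ht
    exact hOut x hx.2 t ht.1 hxt
  have d123 : Disjoint (A1 ∪ A2) A3 := by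
    rw [disjoint_left]
    intro x hx hx'
    rw [hA3, mem_sdiff] at hx'
    rw [mem_union, hA1, hA2, mem_inter, mem_inter] at hx
    rcases hx with hx | hx
    · exact hx'.2 hx.1
    · exact hx'.2 hx.1
  have d1234 : Disjoint ((A1 ∪ A2) ∪ A3) A4 := by
    rw [disjoint_left]
    intro x hx hx'
    rw [hA4, mem_biUnion] at hx'
    obtain ⟨t, ht, hxt⟩ := hx'
    have htK : t < K := mem_range.1 (hJ ht)
    rw [mem_union, mem_union, hA1, hA2, hA3, mem_inter, mem_inter, mem_sdiff, mem_inter] at hx
    rcases hx with (hx | hx) | hx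
    · exact hOut x hx.2 t htK hxt
    · obtain ⟨s, hs, hxs⟩ := mem_biUnion.1 hx.2
      rw [mem_sdiff, mem_range] at hs
      have hst : s ≠ t := fun h => hs.2 (h ▸ ht)
      exact (disjoint_left.1 (hD.dsj s hs.1 t htK hst)) hxs hxt
    · exact hOut x hx.1.2 t htK hxt
  have hsum : A1.card + A2.card + A3.card + A4.card ≤ W.card := by
    rw [← card_union_of_disjoint d12, ← card_union_of_disjoint d123,
      ← card_union_of_disjoint d1234]
    exact card_le_card (union_subset (union_subset (union_subset h1 h2) h3) h4)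
  have hJc : A4.card = ∑ t ∈ J, a t := by
    rw [hA4, card_biUnion]
    · exact sum_congr rfl fun t ht => hD.crd t (mem_range.1 (hJ ht))
    · intro s hs t ht hst
      exact hD.dsj s (mem_range.1 (hJ hs)) t (mem_range.1 (hJ ht)) hst
  omega

end Pool.Agent.SFG
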