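import Pool.Agent.SFG.Targets

/-!
# SFG, LOB: lower bound for the block number
-/

set_option autoImplicit false

open Finset

namespace Pool.Agent.SFG

open Pool.Agent.StarF (starForest ramsey)
open Pool.Agent.SFB (Con dg nc Chain Two)

/-- LOB. -/
theorem p_LOB : T_LOB := by
  intro a k K hK hKk hanti haK N hN
  set S := ∑ t ∈ range (K + 1), a t with hS
  have hS2 : 2 * a K ≤ S := by
    rw [hS, Finset.sum_range_succ]
    have h0 : a 0 ≤ ∑ t ∈ range K, a t :=
      Finset.single_le_sum (f := a) (fun _ _ => Nat.zero_le _) (Finset.mem_range.mpr hK)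
    have h1 := hanti 0 K (Nat.zero_le _) hKk
    omega
  have hne : ∀ A : Finset ℕ, ∀ t ∈ A, t ≤ K → a K ≤ ∑ t ∈ A, a t := by
    intro A t ht htK
    have h1 : a t ≤ ∑ t ∈ A, a t :=
      Finset.single_le_sum (f := a) (fun _ _ => Nat.zero_le _) ht
    have h2 := hanti t K htK hKk
    omega
  have hsub : range (K + 1) ⊆ range k := Finset.range_subset_range.2 hKk
  have hB : ∀ A : Finset ℕ, (∀ t ∈ A, ¬ t ≤ K) → S ≤ ∑ t ∈ range k \ A, a t := by
    intro A hA
    rw [hS]
    refine Finset.sum_le_sum_of_subset fun t ht => ?_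
    rw [mem_sdiff]
    exact ⟨hsub ht, fun h => hA t h (Nat.lt_succ_iff.1 (mem_range.1 ht))⟩
  refine ⟨min (a K) N, N - min (a K) N, by omega, ?_⟩
  rintro ⟨A, hA, ⟨h1, h2, -⟩ | ⟨z, hz, -, h1, h2⟩⟩
  · by_cases h : ∃ t ∈ A, t ≤ K
    · obtain ⟨t, ht, htK⟩ := h
      have h3 := hne A t ht htK
      have h4 : 0 < A.card := card_pos.2 ⟨t, ht⟩
      omega
    · push Not at h
      have h3 := hB A (fun t ht => not_le.2 (h t ht))
      omega
  · have hz0 : z = 0 := by simpa using hz
    subst hz0
    by_cases h : ∃ t ∈ A, t ≤ K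
    · obtain ⟨t, ht, htK⟩ := h
      have h3 := hne A t ht htK
      have h4 : (range k \ A).card = 0 := by omega
      have h5 : range k \ A = ∅ := card_eq_zero.mp h4
      have h6 : A = range k := Subset.antisymm hA (sdiff_eq_empty_iff_subset.mp h5)
      have h7 : S ≤ ∑ t ∈ range k, a t := by
        rw [hS]
        exact Finset.sum_le_sum_of_subset hsub
      rw [h6] at h1
      omega
    · push Not at h
      have h3 := hB A (fun t ht => not_le.2 (h t ht))
      omega

end Pool.Agent.SFG
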