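import Pool.Agent.SFG.Targets

set_option autoImplicit false

open Finset

namespace Pool.Agent.SFG

open Pool.Agent.StarF (starForest ramsey)
open Pool.Agent.SFB (Con dg nc Chain Two mem_dg)

namespace LWB_

lemma red_left {x y : ℕ} {H : SimpleGraph (Fin x)} {a b : Fin x}
    (h : (red y H)ᶜ.Adj (Sum.inl a) (Sum.inl b)) : H.Adj a b := by
  rw [SimpleGraph.compl_adj] at h
  by_contra hn
  apply h.2
  change Hᶜ.Adj a b
  rw [SimpleGraph.compl_adj]
  exact ⟨fun e => h.1 (by rw [e]), hn⟩

lemma red_right {x y : ℕ} {H : SimpleGraph (Fin x)} {a b : Fin y}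
    (h : (red y H)ᶜ.Adj (Sum.inr a) (Sum.inr b)) : False := by
  rw [SimpleGraph.compl_adj] at h
  apply h.2
  change (⊤ : SimpleGraph (Fin y)).Adj a b
  rw [SimpleGraph.top_adj]
  exact fun e => h.1 (by rw [e])

section

variable {k : ℕ} {n : Fin k → ℕ} {x y : ℕ}

lemma cnt1 (φ : (Σ i : Fin k, Option (Fin (n i))) → Fin x ⊕ Fin y)
    (hφ : Function.Injective φ) :
    ∑ i, (univ.filter (fun o : Option (Fin (n i)) => (φ ⟨i, o⟩).isLeft = true)).card ≤ x := by
  rw [← Finset.card_sigma]
  calc _ ≤ ((univ : Finset (Fin x)).map (Function.Embedding.inl (β := Fin y))).card := by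
        apply Finset.card_le_card_of_injOn φ
        · rintro ⟨i, o⟩ h
          rw [mem_coe, mem_sigma, mem_filter] at h
          obtain ⟨a, ha⟩ := Sum.isLeft_iff.1 h.2.2
          rw [mem_coe, mem_map, ha]
          exact ⟨a, mem_univ _, rfl⟩
        · intro s _ t _ h
          exact hφ h
    _ = x := by simp

lemma cnt2 (φ : (Σ i : Fin k, Option (Fin (n i))) → Fin x ⊕ Fin y)
    (hφ : Function.Injective φ) :
    ∑ i, (univ.filter (fun o : Option (Fin (n i)) => (φ ⟨i, o⟩).isRight = true)).card ≤ y := by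
  rw [← Finset.card_sigma]
  calc _ ≤ ((univ : Finset (Fin y)).map (Function.Embedding.inr (α := Fin x))).card := by
        apply Finset.card_le_card_of_injOn φ
        · rintro ⟨i, o⟩ h
          rw [mem_coe, mem_sigma, mem_filter] at h
          obtain ⟨a, ha⟩ := Sum.isRight_iff.1 h.2.2
          rw [mem_coe, mem_map, ha]
          exact ⟨a, mem_univ _, rfl⟩
        · intro s _ t _ h
          exact hφ h
    _ = y := by simp

end

lemma some_card {m : ℕ} (p : Option (Fin m) → Prop) [DecidablePred p] :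
    (univ.filter (fun j => p (some j))).card ≤ (univ.filter p).card := by
  have h1 : (univ.filter (fun j => p (some j))).map Function.Embedding.some ⊆ univ.filter p := by
    intro o ho
    rw [mem_map] at ho
    obtain ⟨j, hj, rfl⟩ := ho
    exact mem_filter.2 ⟨mem_univ _, (mem_filter.1 hj).2⟩
  have h2 := card_le_card h1
  rwa [card_map] at h2

lemma none_some_card {m : ℕ} (p : Option (Fin m) → Prop) [DecidablePred p] (h : p none) :
    1 + (univ.filter (fun j => p (some j))).card ≤ (univ.filter p).card := by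
  have h1 : insert none ((univ.filter (fun j => p (some j))).map Function.Embedding.some) ⊆
      univ.filter p := by
    intro o ho
    rw [mem_insert, mem_map] at ho
    rcases ho with rfl | ⟨j, hj, rfl⟩
    · exact mem_filter.2 ⟨mem_univ _, h⟩
    · exact mem_filter.2 ⟨mem_univ _, (mem_filter.1 hj).2⟩
  have h2 := card_le_card h1
  rw [card_insert_of_notMem (by simp), card_map] at h2
  omega

lemma none_card {m : ℕ} (p : Option (Fin m) → Prop) [DecidablePred p] (h : p none) :
    1 ≤ (univ.filter p).card :=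
  Finset.card_pos.2 ⟨none, mem_filter.2 ⟨mem_univ _, h⟩⟩

end LWB_

open LWB_ in
theorem p_LWB : T_LWB := by
  classical
  rintro k n x y c H hH ⟨φ⟩
  have hadj : ∀ (i : Fin k) (j : Fin (n i)),
      (red y H)ᶜ.Adj (φ ⟨i, none⟩) (φ ⟨i, some j⟩) := by
    intro i j
    have h1 : (starForest n).Adj ⟨i, none⟩ ⟨i, some j⟩ := ⟨rfl, Or.inl ⟨rfl, by simp⟩⟩
    exact φ.toHom.map_adj h1
  have c1 := cnt1 (φ := fun s => φ s) φ.injective
  have c2 := cnt2 (φ := fun s => φ s) φ.injective
  set A : Finset (Fin k) := univ.filter (fun i => (φ ⟨i, none⟩).isRight = true) with hA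
  have hAc : ∀ i, i ∈ Aᶜ → ∃ u, φ ⟨i, none⟩ = Sum.inl u := by
    intro i hi
    rw [mem_compl, hA, mem_filter] at hi
    have h1 : ¬ (φ ⟨i, none⟩).isRight = true := fun h => hi ⟨mem_univ _, h⟩
    cases h2 : φ ⟨i, none⟩ with
    | inl u => exact ⟨u, rfl⟩
    | inr u => rw [h2] at h1; exact absurd rfl h1
  let zz : Fin k → ℕ := fun i =>
    (univ.filter (fun j : Fin (n i) => (φ ⟨i, some j⟩).isLeft = true)).card
  let yy : Fin k → ℕ := fun i =>
    (univ.filter (fun j : Fin (n i) => (φ ⟨i, some j⟩).isRight = true)).card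
  have hzy : ∀ i, n i = zz i + yy i := by
    intro i
    have h1 := Finset.card_filter_add_card_filter_not (s := (univ : Finset (Fin (n i))))
      (fun j : Fin (n i) => (φ ⟨i, some j⟩).isLeft = true)
    rw [card_univ, Fintype.card_fin] at h1
    have h2 : univ.filter (fun j : Fin (n i) => ¬ (φ ⟨i, some j⟩).isLeft = true) =
        univ.filter (fun j : Fin (n i) => (φ ⟨i, some j⟩).isRight = true) := by
      apply Finset.filter_congr
      intro j _
      cases φ ⟨i, some j⟩ <;> simp
    rw [h2] at h1
    exact h1.symm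
  refine ⟨A, Or.inr ⟨∑ i ∈ Aᶜ, zz i, ?_, ?_, ?_, ?_⟩⟩
  · -- the bound for `z`
    let D : Fin x ⊕ Fin y → ℕ := Sum.elim (fun v => (dg H v).card) (fun _ => 0)
    let cc : Fin k → Fin x ⊕ Fin y := fun i => φ ⟨i, none⟩
    have hcc : Function.Injective cc := by
      intro i j hij
      have h1 := φ.injective hij
      exact congrArg Sigma.fst h1
    have h1 : ∀ i ∈ Aᶜ, zz i ≤ D (cc i) := by
      intro i hi
      obtain ⟨u, hu⟩ := hAc i hi
      have h2 : D (cc i) = (dg H u).card := by
        change D (φ ⟨i, none⟩) = _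
        rw [hu]
        rfl
      rw [h2]
      calc zz i ≤ ((dg H u).map (Function.Embedding.inl (β := Fin y))).card := by
            apply Finset.card_le_card_of_injOn (fun j => φ ⟨i, some j⟩)
            · intro j hj
              rw [mem_coe, mem_filter] at hj
              obtain ⟨w, hw⟩ := Sum.isLeft_iff.1 hj.2
              have h3 := hadj i j
              rw [hu, hw] at h3
              simp only [mem_coe, mem_map]
              exact ⟨w, mem_dg.2 (red_left h3), hw.symm⟩
            · intro j _ j' _ hjj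
              have h3 := φ.injective hjj
              rw [Sigma.mk.injEq] at h3
              exact Option.some.inj (eq_of_heq h3.2)
        _ = (dg H u).card := card_map _
    let S : Finset (Fin x) := univ.filter (fun v => Sum.inl v ∈ Aᶜ.image cc)
    have hS : Aᶜ.image cc = S.map (Function.Embedding.inl (β := Fin y)) := by
      ext w
      rw [mem_map]
      constructor
      · intro hw
        obtain ⟨i, hi, hiw⟩ := mem_image.1 hw
        obtain ⟨u, hu⟩ := hAc i hi
        have h3 : Sum.inl u = w := by rw [← hiw]; exact hu.symm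
        refine ⟨u, mem_filter.2 ⟨mem_univ _, ?_⟩, h3⟩
        rw [h3]
        exact hw
      · rintro ⟨u, hu, rfl⟩
        exact (mem_filter.1 hu).2
    have h2 : S.card = (Aᶜ).card := by
      have h3 := congrArg Finset.card hS
      rw [card_map, card_image_of_injective _ hcc] at h3
      exact h3.symm
    calc ∑ i ∈ Aᶜ, zz i ≤ ∑ i ∈ Aᶜ, D (cc i) := sum_le_sum h1
      _ = ∑ w ∈ Aᶜ.image cc, D w := (sum_image fun i _ j _ h => hcc h).symm
      _ = ∑ v ∈ S, (dg H v).card := by rw [hS, sum_map]; rfl
      _ ≤ S.card * c + x * c % 2 := hH S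
      _ = (Aᶜ).card * c + x * c % 2 := by rw [h2]
  · intro h
    rw [h, sum_empty]
  · refine le_trans ?_ c1
    rw [← Finset.sum_add_sum_compl A
      (fun i => (univ.filter (fun o : Option (Fin (n i)) => (φ ⟨i, o⟩).isLeft = true)).card)]
    have g1 : ∑ i ∈ A, n i ≤ ∑ i ∈ A,
        (univ.filter (fun o : Option (Fin (n i)) => (φ ⟨i, o⟩).isLeft = true)).card := by
      apply sum_le_sum
      intro i hi
      rw [hA, mem_filter] at hi
      obtain ⟨u, hu⟩ := Sum.isRight_iff.1 hi.2
      refine le_trans ?_ (some_card _)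
      have h1 : yy i = 0 := by
        change (univ.filter (fun j : Fin (n i) => (φ ⟨i, some j⟩).isRight = true)).card = 0
        rw [card_eq_zero, filter_eq_empty_iff]
        intro j _ hj
        obtain ⟨w, hw⟩ := Sum.isRight_iff.1 hj
        have h3 := hadj i j
        rw [hu, hw] at h3
        exact red_right h3
      have h2 := hzy i
      rw [h1, add_zero] at h2
      exact h2.le
    have g2 : ∑ i ∈ Aᶜ, (1 + zz i) ≤ ∑ i ∈ Aᶜ,
        (univ.filter (fun o : Option (Fin (n i)) => (φ ⟨i, o⟩).isLeft = true)).card := by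
      apply sum_le_sum
      intro i hi
      obtain ⟨u, hu⟩ := hAc i hi
      exact none_some_card (fun o : Option (Fin (n i)) => (φ ⟨i, o⟩).isLeft = true)
        (by rw [hu]; rfl)
    rw [sum_add_distrib, sum_const, smul_eq_mul, mul_one] at g2
    omega
  · have g0 : ∑ i ∈ Aᶜ, n i = ∑ i ∈ Aᶜ, zz i + ∑ i ∈ Aᶜ, yy i := by
      rw [← sum_add_distrib]
      exact sum_congr rfl fun i _ => hzy i
    have g1 : ∑ i ∈ Aᶜ, yy i ≤ ∑ i ∈ Aᶜ,
        (univ.filter (fun o : Option (Fin (n i)) => (φ ⟨i, o⟩).isRight = true)).card :=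
      sum_le_sum fun i _ =>
        some_card (fun o : Option (Fin (n i)) => (φ ⟨i, o⟩).isRight = true)
    have g2 : ∑ i ∈ A, 1 ≤ ∑ i ∈ A,
        (univ.filter (fun o : Option (Fin (n i)) => (φ ⟨i, o⟩).isRight = true)).card := by
      apply sum_le_sum
      intro i hi
      rw [hA, mem_filter] at hi
      exact none_card (fun o : Option (Fin (n i)) => (φ ⟨i, o⟩).isRight = true) hi.2
    rw [sum_const, smul_eq_mul, mul_one] at g2
    rw [← Finset.sum_add_sum_compl A
      (fun i => (univ.filter (fun o : Option (Fin (n i)) => (φ ⟨i, o⟩).isRight = true)).card)]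
      at c2
    omega

end Pool.Agent.SFG
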