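import Pool.Agent.SFG.Targets

set_option autoImplicit false

open Finset

namespace Pool.Agent.SFG

open Pool.Agent.StarF (starForest ramsey)
open Pool.Agent.SFB (Con dg nc Chain Two mem_dg)

namespace LWR_

section

variable {k : ℕ} {n : Fin k → ℕ} {x y : ℕ}

lemma cnt1 (φ : (Σ i : Fin k, Option (Fin (n i))) → Fin x ⊕ Fin y)
    (hφ : Function.Injective φ) :
    ∑ i, (univ.filter (fun o : Option (Fin (n i)) => (φ ⟨i, o⟩).isLeft = true)).card ≤ x := by
  rw [← Finset.card_sigma]
  calc _ ≤ ((univ : Finset (Fin x)).map (Function.Embedding.inl (β := Fin y))).card := by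
        apply Finset.card_le_card_of_injOn φ
        · rintro ⟨i, o⟩ h
          rw [mem_coe, mem_sigma, mem_filter] at h
          obtain ⟨a, ha⟩ := Sum.isLeft_iff.1 h.2.2
          rw [mem_coe, mem_map, ha]
          exact ⟨a, mem_univ _, rfl⟩
        · intro s _ t _ h
          exact hφ h
    _ = x := by simp

lemma cnt2 (φ : (Σ i : Fin k, Option (Fin (n i))) → Fin x ⊕ Fin y)
    (hφ : Function.Injective φ) :
    ∑ i, (univ.filter (fun o : Option (Fin (n i)) => (φ ⟨i, o⟩).isRight = true)).card ≤ y := by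
  rw [← Finset.card_sigma]
  calc _ ≤ ((univ : Finset (Fin y)).map (Function.Embedding.inr (α := Fin x))).card := by
        apply Finset.card_le_card_of_injOn φ
        · rintro ⟨i, o⟩ h
          rw [mem_coe, mem_sigma, mem_filter] at h
          obtain ⟨a, ha⟩ := Sum.isRight_iff.1 h.2.2
          rw [mem_coe, mem_map, ha]
          exact ⟨a, mem_univ _, rfl⟩
        · intro s _ t _ h
          exact hφ h
    _ = y := by simp

end

lemma all_card {m : ℕ} (p : Option (Fin m) → Prop) [DecidablePred p] (h : ∀ o, p o) :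
    m + 1 ≤ (univ.filter p).card := by
  rw [Finset.filter_true_of_mem fun o _ => h o, card_univ, Fintype.card_option, Fintype.card_fin]

lemma sum1 {k : ℕ} (n g : Fin k → ℕ) (A : Finset (Fin k)) (h : ∀ i ∈ A, n i + 1 ≤ g i) :
    ∑ i ∈ A, n i + A.card ≤ ∑ i, g i := by
  calc ∑ i ∈ A, n i + A.card = ∑ i ∈ A, (n i + 1) := by
        rw [Finset.sum_add_distrib, Finset.sum_const, smul_eq_mul, mul_one]
    _ ≤ ∑ i ∈ A, g i := Finset.sum_le_sum h
    _ ≤ ∑ i, g i := Finset.sum_le_sum_of_subset (subset_univ A)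

lemma red_left {x y : ℕ} {H : SimpleGraph (Fin x)} {a : Fin x} {w : Fin x ⊕ Fin y}
    (h : (red y H).Adj (Sum.inl a) w) : ∃ b, w = Sum.inl b ∧ a ≠ b ∧ ¬ H.Adj a b := by
  cases w with
  | inl b =>
    change Hᶜ.Adj a b at h
    rw [SimpleGraph.compl_adj] at h
    exact ⟨b, rfl, h.1, h.2⟩
  | inr b => simp [red] at h

lemma red_right {x y : ℕ} {H : SimpleGraph (Fin x)} {a : Fin y} {w : Fin x ⊕ Fin y}
    (h : (red y H).Adj (Sum.inr a) w) : ∃ b, w = Sum.inr b := by
  cases w with
  | inl b => simp [red] at h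
  | inr b => exact ⟨b, rfl⟩

end LWR_

open LWR_ in
theorem p_LWR : T_LWR := by
  classical
  rintro k n x y c H hH ⟨φ⟩
  have hadj : ∀ (i : Fin k) (j : Fin (n i)),
      (red y H).Adj (φ ⟨i, none⟩) (φ ⟨i, some j⟩) := by
    intro i j
    have h1 : (starForest n).Adj ⟨i, none⟩ ⟨i, some j⟩ := ⟨rfl, Or.inl ⟨rfl, by simp⟩⟩
    exact φ.toHom.map_adj h1
  have c1 := cnt1 (φ := fun s => φ s) φ.injective
  have c2 := cnt2 (φ := fun s => φ s) φ.injective
  set A : Finset (Fin k) := univ.filter (fun i => (φ ⟨i, none⟩).isLeft = true) with hA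
  refine ⟨A, Or.inl ⟨?_, ?_, ?_⟩⟩
  · refine (sum1 n _ A ?_).trans c1
    intro i hi
    rw [hA, mem_filter] at hi
    obtain ⟨u, hu⟩ := Sum.isLeft_iff.1 hi.2
    apply all_card
    intro o
    cases o with
    | none => exact hi.2
    | some j =>
      have h1 := hadj i j
      rw [hu] at h1
      obtain ⟨b, hb, -⟩ := red_left h1
      exact Sum.isLeft_iff.2 ⟨b, hb⟩
  · refine (sum1 n _ Aᶜ ?_).trans c2
    intro i hi
    rw [mem_compl, hA, mem_filter] at hi
    have hi' : (φ ⟨i, none⟩).isRight = true := by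
      have h1 : ¬ (φ ⟨i, none⟩).isLeft = true := fun h => hi ⟨mem_univ _, h⟩
      cases h2 : φ ⟨i, none⟩ with
      | inl u => rw [h2] at h1; exact absurd rfl h1
      | inr u => rfl
    obtain ⟨u, hu⟩ := Sum.isRight_iff.1 hi'
    apply all_card
    intro o
    cases o with
    | none => exact hi'
    | some j =>
      have h1 := hadj i j
      rw [hu] at h1
      obtain ⟨b, hb⟩ := red_right h1
      exact Sum.isRight_iff.2 ⟨b, hb⟩
  · intro hA1
    obtain ⟨i, hi⟩ := card_eq_one.1 hA1
    have hiA : i ∈ A := by rw [hi]; exact mem_singleton_self i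
    rw [hA, mem_filter] at hiA
    obtain ⟨u, hu⟩ := Sum.isLeft_iff.1 hiA.2
    rw [hi, sum_singleton]
    have h0 : ∀ j : Fin (n i), ∃ b, φ ⟨i, some j⟩ = Sum.inl b ∧ u ≠ b ∧ ¬ H.Adj u b := by
      intro j
      have h1 := hadj i j
      rw [hu] at h1
      exact red_left h1
    choose f hf using h0
    have hfi : Function.Injective f := by
      intro j j' hjj
      have h1 : φ ⟨i, some j⟩ = φ ⟨i, some j'⟩ := by rw [(hf j).1, (hf j').1, hjj]
      have h3 := φ.injective h1
      rw [Sigma.mk.injEq] at h3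
      exact Option.some.inj (eq_of_heq h3.2)
    have h4 : (univ.image f).card = n i := by
      rw [card_image_of_injective _ hfi, card_univ, Fintype.card_fin]
    have h5 : Disjoint (univ.image f) (insert u (dg H u)) := by
      rw [disjoint_left]
      intro b hb hb'
      obtain ⟨j, -, rfl⟩ := mem_image.1 hb
      rcases mem_insert.1 hb' with h | h
      · exact (hf j).2.1 h.symm
      · exact (hf j).2.2 (mem_dg.1 h)
    have h6 : u ∉ dg H u := fun h => H.loopless.irrefl u (mem_dg.1 h)
    have h7 := card_le_univ ((univ.image f) ∪ (insert u (dg H u)))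
    rw [card_union_of_disjoint h5, h4, card_insert_of_notMem h6, Fintype.card_fin] at h7
    have h8 := hH u
    omega

end Pool.Agent.SFG
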