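import Pool.Agent.SFG.Targets
import Pool.Agent.SFB.P_MMX

/-!
# SFG-MMX: minimax on the sets with `L` elements
-/

set_option autoImplicit false

open Finset

namespace Pool.Agent.SFG

open Pool.Agent.StarF (starForest ramsey)
open Pool.Agent.SFB (Con dg nc Chain Two)

namespace MMX_

variable {V : Type} [Fintype V] [DecidableEq V]

/-- The weights of the points. -/
noncomputable def PP (Y : Finset V) (L : ℕ) (Q : Finset V → ℝ) (u : V) : ℝ :=
  (∑ A ∈ powersetCard L Y, (if u ∈ A then Q A else 0)) / L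

lemma wt (Y : Finset V) (L : ℕ) (Q : Finset V → ℝ) (f : V → ℝ) :
    ∑ u, PP Y L Q u * f u = (∑ A ∈ powersetCard L Y, Q A * ∑ u ∈ A, f u) / L := by
  have h1 : ∀ u, PP Y L Q u * f u =
      (∑ A ∈ powersetCard L Y, (if u ∈ A then Q A * f u else 0)) / L := by
    intro u
    unfold PP
    rw [div_mul_eq_mul_div, sum_mul]
    congr 1
    apply sum_congr rfl
    intro A _
    split_ifs <;> simp
  rw [sum_congr rfl (fun u _ => h1 u), ← sum_div, sum_comm]
  congr 1
  apply sum_congr rfl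
  intro A _
  rw [mul_sum, ← sum_filter]
  congr 1
  ext u
  simp

lemma core (Y : Finset V) (L : ℕ) (hL : 1 ≤ L) (M : V → V → ℝ) (Q : Finset V → ℝ)
    (h0 : ∀ A ∈ powersetCard L Y, 0 ≤ Q A) (h1 : ∑ A ∈ powersetCard L Y, Q A = 1)
    (h2 : ∀ B ∈ powersetCard L Y, 0 ≤ ∑ A ∈ powersetCard L Y, Q A * ∑ u ∈ A, ∑ w ∈ B, M u w) :
    ∃ X ⊆ Y, (Y \ X).card < L ∧ ∃ P : V → ℝ, (∀ v, 0 ≤ P v) ∧ (∀ v, v ∉ Y → P v = 0) ∧
      ∑ v, P v = 1 ∧ (∀ v, L * P v ≤ 1) ∧ ∀ w ∈ X, 0 ≤ ∑ u, P u * M u w := by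
  have hL' : (0 : ℝ) < L := by exact_mod_cast hL
  set g : V → ℝ := fun w => ∑ u, PP Y L Q u * M u w with hg
  have hB : (Y.filter (fun w => g w < 0)).card < L := by
    by_contra hc
    push Not at hc
    obtain ⟨B, hBs, hBc⟩ := exists_subset_card_eq hc
    have hBY : B ∈ powersetCard L Y :=
      mem_powersetCard.2 ⟨hBs.trans (filter_subset _ _), hBc⟩
    have h3 := h2 B hBY
    have h4 := wt Y L Q (fun u => ∑ w ∈ B, M u w)
    have h5 : ∑ u, PP Y L Q u * ∑ w ∈ B, M u w = ∑ w ∈ B, g w := by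
      simp only [hg]
      rw [sum_comm]
      apply sum_congr rfl
      intro u _
      rw [mul_sum]
    have h6 : ∑ w ∈ B, g w < 0 := by
      apply sum_neg
      · intro w hw
        exact (mem_filter.1 (hBs hw)).2
      · rw [← card_pos, hBc]
        exact hL
    have h7 : 0 ≤ (∑ A ∈ powersetCard L Y, Q A * ∑ u ∈ A, ∑ w ∈ B, M u w) / (L : ℝ) :=
      div_nonneg h3 hL'.le
    rw [← h4, h5] at h7
    linarith
  refine ⟨Y.filter (fun w => 0 ≤ g w), filter_subset _ _, ?_, PP Y L Q, ?_, ?_, ?_, ?_, ?_⟩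
  · refine lt_of_le_of_lt (card_le_card ?_) hB
    intro w hw
    rw [mem_sdiff, mem_filter] at hw
    rw [mem_filter]
    refine ⟨hw.1, ?_⟩
    by_contra hc
    exact hw.2 ⟨hw.1, not_lt.1 hc⟩
  · intro v
    unfold PP
    apply div_nonneg _ hL'.le
    apply sum_nonneg
    intro A hA
    split_ifs
    · exact h0 A hA
    · exact le_rfl
  · intro v hv
    unfold PP
    rw [sum_eq_zero, zero_div]
    intro A hA
    rw [if_neg]
    exact fun h => hv ((mem_powersetCard.1 hA).1 h)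
  · have h3 := wt Y L Q (fun _ => 1)
    simp only [mul_one] at h3
    rw [h3]
    have h4 : ∑ A ∈ powersetCard L Y, Q A * ∑ _u ∈ A, (1 : ℝ) = L := by
      have : ∀ A ∈ powersetCard L Y, Q A * ∑ _u ∈ A, (1 : ℝ) = Q A * L := by
        intro A hA
        rw [sum_const, (mem_powersetCard.1 hA).2, nsmul_eq_mul, mul_one]
      rw [sum_congr rfl this, ← sum_mul, h1, one_mul]
    rw [h4]
    exact div_self hL'.ne'
  · intro v
    unfold PP
    rw [mul_div_cancel₀ _ hL'.ne', ← h1]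
    apply sum_le_sum
    intro A hA
    split_ifs
    · exact le_rfl
    · exact h0 A hA
  · intro w hw
    exact (mem_filter.1 hw).2

end MMX_

open MMX_ in
open Pool.Agent.SFB.MMX_ in
theorem p_MMX : T_MMX := by
  classical
  intro V _ _ G Y L hL hLY
  have hne : (powersetCard L Y).Nonempty := powersetCard_nonempty.2 hLY
  have hsym : ∀ A B : Finset V, ∑ u ∈ A, ∑ w ∈ B, MM G u w = ∑ u ∈ B, ∑ w ∈ A, MM G u w := by
    intro A B
    rw [sum_comm]
    apply sum_congr rfl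
    intro u _
    apply sum_congr rfl
    intro w _
    exact MM_symm G w u
  rcases Pool.Agent.StarF.ville (powersetCard L Y) hne
    (fun A B => ∑ u ∈ A, ∑ w ∈ B, MM G u w) hsym with ⟨Q, h0, h1, h2⟩ | ⟨Q, h0, h1, h2⟩
  · obtain ⟨X, hX, hc, P, p0, p1, p2, p3, p4⟩ := core Y L hL (MM G) Q h0 h1 h2
    refine ⟨X, hX, hc, Or.inl ⟨P, p0, p1, p2, p3, ?_⟩⟩
    intro w hw
    have h3 := p4 w hw
    rw [msum] at h3
    have h4 := part G w P
    rw [p2] at h4
    linarith
  · have h2' : ∀ B ∈ powersetCard L Y,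
        0 ≤ ∑ A ∈ powersetCard L Y, Q A * ∑ u ∈ A, ∑ w ∈ B, (fun u w => - MM G u w) u w := by
      intro B hB
      have h3 := h2 B hB
      simp only [sum_neg_distrib, mul_neg]
      linarith
    obtain ⟨X, hX, hc, P, p0, p1, p2, p3, p4⟩ :=
      core Y L hL (fun u w => - MM G u w) Q h0 h1 h2'
    refine ⟨X, hX, hc, Or.inr ⟨P, p0, p1, p2, p3, ?_⟩⟩
    intro w hw
    have h3 := p4 w hw
    simp only [mul_neg, sum_neg_distrib] at h3
    rw [msum] at h3
    have h4 := part G w P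
    rw [p2] at h4
    linarith

end Pool.Agent.SFG
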