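import Pool.Agent.SFG.Targets

/-!
# SFG: ORC (the oracle of a cover)
-/

set_option autoImplicit false

open Finset

namespace Pool.Agent.SFG

open Pool.Agent.StarF (starForest ramsey)
open Pool.Agent.SFB (Con dg nc Chain Two)

namespace ORC_

/-- the bound of one term -/
theorem term {p w N q e k m : ℝ} (hp : 0 ≤ p) (hk : 0 < k) (he : 0 ≤ e) (hm : 0 ≤ m)
    (hlow : k * q * p ≤ 1) (hw : w ≤ N) (hN : N ≤ q * e) : p * w ≤ e / k + p * m := by
  have h1 : p * w ≤ p * (q * e) := mul_le_mul_of_nonneg_left (hw.trans hN) hp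
  have h2 : p * (q * e) ≤ e / k := by
    rw [le_div_iff₀ hk]
    have h3 := mul_le_mul_of_nonneg_right hlow he
    nlinarith
  have h4 : 0 ≤ p * m := mul_nonneg hp hm
  linarith

end ORC_

/-- ORC. -/
theorem p_ORC (hAVE : T_AVE) : T_ORC := by
  intro V _ _ G Y X P a k q e i r hk hq hC hX hV hbig U W hU hW
  by_contra hcon
  push Not at hcon
  have hk0 : (0 : ℝ) < k := by exact_mod_cast hk
  have he0 : (0 : ℝ) ≤ e := Nat.cast_nonneg e
  have hVr : (Fintype.card V : ℝ) ≤ q * e := by exact_mod_cast hV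
  have hterm : ∀ v, P v * ((dg G v ∩ W).card : ℝ) ≤
      (if v ∈ U then (e : ℝ) / k else 0) + P v * ((a i : ℝ) + k) := by
    intro v
    by_cases hv : v ∈ U
    · rw [if_pos hv]
      have h1 := hC.low v
      push_cast at h1
      refine ORC_.term (hC.nn v) hk0 he0 (by positivity) h1 ?_ hVr
      exact_mod_cast Finset.card_le_univ _
    · rw [if_neg hv, zero_add]
      have h1 := hcon v hv
      refine mul_le_mul_of_nonneg_left ?_ (hC.nn v)
      have h2 : (dg G v ∩ W).card ≤ a i + k := h1.le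
      exact_mod_cast h2
  have hsum : ∑ v, P v * ((dg G v ∩ W).card : ℝ) ≤ e + ((a i : ℝ) + k) := by
    refine (Finset.sum_le_sum fun v _ => hterm v).trans ?_
    rw [Finset.sum_add_distrib, ← Finset.sum_mul, hC.one, one_mul, Finset.sum_ite_mem,
      Finset.univ_inter, Finset.sum_const, nsmul_eq_mul]
    have h1 : (U.card : ℝ) * ((e : ℝ) / k) ≤ k * ((e : ℝ) / k) :=
      mul_le_mul_of_nonneg_right (by exact_mod_cast hU) (by positivity)
    have h2 : (k : ℝ) * ((e : ℝ) / k) = e := by field_simp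
    linarith
  have hA := hAVE V G Y X (k * q) P hC W
  have hcard : W.card ≤ (W ∩ X).card + (Xᶜ).card := by
    have h1 : W.card = (W ∩ X).card + (W \ X).card := (Finset.card_inter_add_card_sdiff W X).symm
    have h2 : (W \ X).card ≤ (Xᶜ).card := by
      apply Finset.card_le_card
      intro x hx
      rw [Finset.mem_compl]
      exact (Finset.mem_sdiff.1 hx).2
    omega
  have hfin : 2 * a i + 2 * k + 2 * e + 2 ≤ (W ∩ X).card := by omega
  have hfin' : 2 * (a i : ℝ) + 2 * k + 2 * e + 2 ≤ ((W ∩ X).card : ℝ) := by exact_mod_cast hfin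
  linarith

end Pool.Agent.SFG
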