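import Pool.Agent.SFG.Targets

/-!
# SFG: PRT, parity
-/

set_option autoImplicit false

open Finset

namespace Pool.Agent.SFG

open Pool.Agent.StarF (starForest ramsey)
open Pool.Agent.SFB (Con dg nc Chain Two)

namespace PRT_

variable {V : Type} [Fintype V] [DecidableEq V]

/-- The number of ordered adjacent pairs in `X` is even. -/
lemma even_sum (G : SimpleGraph V) (X : Finset V) : Even (∑ v ∈ X, (dg G v ∩ X).card) := by
  induction X using Finset.induction_on with
  | empty => rw [sum_empty]; exact Even.zero
  | insert a X ha ih =>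
    rw [sum_insert ha]
    have h1 : dg G a ∩ insert a X = dg G a ∩ X :=
      inter_insert_of_notMem Pool.Agent.SFB.not_mem_dg
    have h2 : ∀ v ∈ X, (dg G v ∩ insert a X).card =
        (dg G v ∩ X).card + if v ∈ dg G a then 1 else 0 := by
      intro v _
      split_ifs with h
      · rw [inter_insert_of_mem (Pool.Agent.SFB.mem_dg_comm.1 h), card_insert_of_notMem]
        exact fun hh => ha (mem_inter.1 hh).2
      · rw [inter_insert_of_notMem (fun hh => h (Pool.Agent.SFB.mem_dg_comm.1 hh)), add_zero]
    have h3 : ∑ v ∈ X, (if v ∈ dg G a then 1 else 0) = (dg G a ∩ X).card := by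
      rw [← card_filter]
      congr 1
      ext v
      rw [mem_filter, mem_inter, and_comm]
    rw [h1, sum_congr rfl h2, sum_add_distrib, h3]
    have h4 : (dg G a ∩ X).card + (∑ v ∈ X, (dg G v ∩ X).card + (dg G a ∩ X).card) =
        ((dg G a ∩ X).card + (dg G a ∩ X).card) + ∑ v ∈ X, (dg G v ∩ X).card := by omega
    rw [h4]
    exact Even.add ⟨_, rfl⟩ ih

end PRT_

/-- PRT. -/
theorem p_PRT : T_PRT := by
  intro V _ _ G X c hX h
  by_contra hcon
  push Not at hcon
  have h1 : ∀ v ∈ X, (dg G v ∩ X).card = c := by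
    intro v hv
    have h2 := h v hv
    have h3 := hcon v hv
    have h4 := Nat.mod_lt (X.card * c) (by norm_num : 0 < 2)
    omega
  have h5 := PRT_.even_sum G X
  rw [sum_congr rfl h1, sum_const, smul_eq_mul] at h5
  obtain ⟨v, hv⟩ := hX
  have h6 := h v hv
  have h7 := hcon v hv
  have h8 : X.card * c % 2 = 0 := Nat.even_iff.1 h5
  omega

end Pool.Agent.SFG
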