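import Pool.Agent.SFG.Targets

/-!
# SFG: almost regular graphs (REG)
-/

set_option autoImplicit false

open Finset

namespace Pool.Agent.SFG

open Pool.Agent.StarF (starForest ramsey)
open Pool.Agent.SFB (Con dg nc Chain Two)

namespace REG_

/-- The set of differences. -/
def P (x c s : ℕ) : Prop := (1 ≤ s ∧ s ≤ c / 2) ∨ x ≤ s + c / 2 ∨ (c % 2 = 1 ∧ 2 * s = x)

instance (x c s : ℕ) : Decidable (P x c s) := by
  unfold P
  infer_instance

theorem P_zero {x c : ℕ} (h : c < x) : ¬ P x c 0 := by
  unfold P
  omega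

theorem P_symm {x c s : ℕ} (hs : 1 ≤ s) (hx : s < x) : P x c (x - s) ↔ P x c s := by
  unfold P
  omega

theorem card_P {x c : ℕ} (h : c < x) :
    ((range x).filter (P x c)).card = 2 * (c / 2) + (if c % 2 = 1 ∧ x % 2 = 0 then 1 else 0) := by
  have h1 : (range x).filter (P x c) = (Icc 1 (c / 2) ∪ Ico (x - c / 2) x) ∪
      (if c % 2 = 1 ∧ x % 2 = 0 then {x / 2} else ∅) := by
    ext s
    simp only [mem_filter, mem_range, mem_union, mem_Icc, mem_Ico]
    unfold P
    split_ifs with h2
    · simp only [mem_singleton]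
      omega
    · simp only [notMem_empty, or_false]
      omega
  have h2 : Disjoint (Icc 1 (c / 2)) (Ico (x - c / 2) x) := by
    rw [disjoint_left]
    intro s hs hs'
    simp only [mem_Icc, mem_Ico] at hs hs'
    omega
  have h3 : Disjoint (Icc 1 (c / 2) ∪ Ico (x - c / 2) x)
      (if c % 2 = 1 ∧ x % 2 = 0 then {x / 2} else ∅) := by
    split_ifs with h3
    · rw [disjoint_singleton_right, mem_union, mem_Icc, mem_Ico]
      omega
    · exact disjoint_empty_right _
  rw [h1, card_union_of_disjoint h3, card_union_of_disjoint h2, Nat.card_Icc, Nat.card_Ico]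
  split_ifs with h4
  · rw [card_singleton]
    omega
  · rw [card_empty]
    omega

theorem card_fin (n : ℕ) (Q : ℕ → Prop) [DecidablePred Q] :
    ((univ : Finset (Fin (n + 1))).filter (fun s => Q s.val)).card =
      ((range (n + 1)).filter Q).card := by
  rw [card_filter, card_filter, ← Fin.sum_univ_eq_sum_range (fun i => if Q i then 1 else 0)]

theorem P_neg {n c : ℕ} (_h : c < n + 1) (s : Fin (n + 1)) :
    P (n + 1) c (-s).val ↔ P (n + 1) c s.val := by
  have h1 : (-s).val = (n + 1 - s.val) % (n + 1) := Fin.val_neg' s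
  rcases Nat.eq_zero_or_pos s.val with h0 | h0
  · rw [h1, h0, Nat.sub_zero, Nat.mod_self]
  · rw [h1, Nat.mod_eq_of_lt (by omega)]
    exact P_symm h0 s.isLt

theorem card_sub {n c : ℕ} (h : c < n + 1) (v : Fin (n + 1)) :
    ((univ : Finset (Fin (n + 1))).filter (fun j => P (n + 1) c (j - v).val)).card =
      2 * (c / 2) + (if c % 2 = 1 ∧ (n + 1) % 2 = 0 then 1 else 0) := by
  rw [← card_P h, ← card_fin n (P (n + 1) c)]
  refine card_bij (fun j _ => j - v) ?_ ?_ ?_
  · intro j hj
    rw [mem_filter] at hj ⊢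
    exact ⟨mem_univ _, hj.2⟩
  · intro j _ j' _ hjj
    exact sub_left_injective hjj
  · intro s hs
    rw [mem_filter] at hs
    refine ⟨s + v, ?_, add_sub_cancel_right s v⟩
    rw [mem_filter, add_sub_cancel_right]
    exact ⟨mem_univ _, hs.2⟩

/-- The additional edges if `x = n + 1` and `c` are odd. -/
def E (n c : ℕ) (i j : ℕ) : Prop :=
  c % 2 = 1 ∧ n % 2 = 0 ∧ (i + n / 2 = j ∨ j + n / 2 = i)

instance (n c i j : ℕ) : Decidable (E n c i j) := by
  unfold E
  infer_instance

theorem disj {n c : ℕ} (h : c < n + 1) (i j : Fin (n + 1)) (hE : E n c i.val j.val) :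
    ¬ P (n + 1) c (j - i).val := by
  obtain ⟨h1, h2, h3⟩ := hE
  rcases h3 with h3 | h3
  · have h4 : (j - i).val = n / 2 := by
      rw [Fin.sub_val_of_le (Fin.le_def.2 (by omega))]
      omega
    rw [h4]
    unfold P
    omega
  · have h4 : (i - j).val = n / 2 := by
      rw [Fin.sub_val_of_le (Fin.le_def.2 (by omega))]
      omega
    rw [← neg_sub, P_neg h, h4]
    unfold P
    omega

/-- The graph. -/
def H (n c : ℕ) (h : c < n + 1) : SimpleGraph (Fin (n + 1)) where
  Adj i j := P (n + 1) c (j - i).val ∨ E n c i.val j.val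
  symm := ⟨by
    intro i j hij
    rcases hij with hij | hij
    · left
      rw [← neg_sub, P_neg h]
      exact hij
    · right
      exact ⟨hij.1, hij.2.1, hij.2.2.symm⟩⟩
  loopless := ⟨by
    intro i hi
    rcases hi with hi | hi
    · rw [sub_self] at hi
      exact P_zero h hi
    · obtain ⟨h1, h2, h3⟩ := hi
      omega⟩

theorem card_E {n c : ℕ} (h : c < n + 1) (v : Fin (n + 1)) :
    ((univ : Finset (Fin (n + 1))).filter (fun j => E n c v.val j.val)).card =
      if c % 2 = 1 ∧ n % 2 = 0 then (if v.val = n / 2 then 2 else 1) else 0 := by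
  rw [card_fin n (fun j => E n c v.val j)]
  have hv := v.isLt
  split_ifs with h1 h2
  · have h3 : (range (n + 1)).filter (fun j => E n c v.val j) = {0, n} := by
      ext j
      simp only [mem_filter, mem_range, mem_insert, mem_singleton]
      unfold E
      omega
    rw [h3, card_pair (by omega)]
  · rcases Nat.lt_or_ge v.val (n / 2) with h4 | h4
    · have h3 : (range (n + 1)).filter (fun j => E n c v.val j) = {v.val + n / 2} := by
        ext j
        simp only [mem_filter, mem_range, mem_singleton]
        unfold E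
        omega
      rw [h3, card_singleton]
    · have h3 : (range (n + 1)).filter (fun j => E n c v.val j) = {v.val - n / 2} := by
        ext j
        simp only [mem_filter, mem_range, mem_singleton]
        unfold E
        omega
      rw [h3, card_singleton]
  · rw [card_eq_zero, filter_eq_empty_iff]
    intro j _ hj
    exact h1 ⟨hj.1, hj.2.1⟩

theorem card_dg {n c : ℕ} (h : c < n + 1) (v : Fin (n + 1)) :
    (dg (H n c h) v).card = 2 * (c / 2) + (if c % 2 = 1 ∧ (n + 1) % 2 = 0 then 1 else 0) +
      if c % 2 = 1 ∧ n % 2 = 0 then (if v.val = n / 2 then 2 else 1) else 0 := by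
  have h1 : dg (H n c h) v =
      (univ : Finset (Fin (n + 1))).filter (fun j => P (n + 1) c (j - v).val) ∪
      (univ : Finset (Fin (n + 1))).filter (fun j => E n c v.val j.val) := by
    ext j
    rw [Pool.Agent.SFB.mem_dg, mem_union, mem_filter, mem_filter]
    constructor
    · rintro (h | h)
      · exact Or.inl ⟨mem_univ _, h⟩
      · exact Or.inr ⟨mem_univ _, h⟩
    · rintro (h | h)
      · exact Or.inl h.2
      · exact Or.inr h.2
  have h2 : Disjoint
      ((univ : Finset (Fin (n + 1))).filter (fun j => P (n + 1) c (j - v).val))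
      ((univ : Finset (Fin (n + 1))).filter (fun j => E n c v.val j.val)) := by
    rw [disjoint_left]
    intro j hj hj'
    exact disj h v j (mem_filter.1 hj').2 (mem_filter.1 hj).2
  rw [h1, card_union_of_disjoint h2, card_sub h, card_E h]

end REG_

open REG_ in
theorem p_REG : T_REG := by
  intro x c h
  obtain ⟨n, rfl⟩ : ∃ n, x = n + 1 := ⟨x - 1, by omega⟩
  have h1 : (n + 1) * c % 2 = ((n + 1) % 2) * (c % 2) % 2 := Nat.mul_mod _ _ _
  refine ⟨H n c h, ⟨n / 2, by omega⟩, ?_, ?_⟩
  · intro v hv
    have hv' : v.val ≠ n / 2 := fun h' => hv (Fin.ext h')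
    rw [card_dg h, if_neg hv']
    split_ifs <;> omega
  · rw [card_dg h, if_pos rfl]
    rcases Nat.mod_two_eq_zero_or_one c with h2 | h2 <;>
      rcases Nat.mod_two_eq_zero_or_one (n + 1) with h3 | h3 <;>
      rw [h3, h2] at h1 <;> generalize (n + 1) * c = t at h1 ⊢ <;> split_ifs <;> omega

end Pool.Agent.SFG
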