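import Pool.Agent.SFG.Targets

/-!
# SFG: SMA
-/

set_option autoImplicit false

open Finset

namespace Pool.Agent.SFG

open Pool.Agent.StarF (starForest ramsey)
open Pool.Agent.SFB (Con dg nc Chain Two)

namespace SMA_

variable {V : Type} [Fintype V] [DecidableEq V]

/-- The part of the set in the block `B`. -/
noncomputable def blk (G : SimpleGraph V) (c : ℕ → V) (J : V → Finset ℕ) (B : Finset V)
    (v : V) : Finset V :=
  (nc G c (J v) ∩ B) \ dg G v

lemma blk_sub {G : SimpleGraph V} {a : ℕ → ℕ} {K : ℕ} {c : ℕ → V} {J : V → Finset ℕ}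
    {B : Finset V} {D : ℕ → Finset V} (h : Sys G a K c B D) (v : V) :
    blk G c J B v ⊆ (nc G c (J v) ∩ Out K D) \ dg G v := by
  intro w hw
  simp only [blk, mem_sdiff, mem_inter] at hw ⊢
  obtain ⟨⟨h1, h2⟩, h4⟩ := hw
  refine ⟨⟨h1, ?_⟩, h4⟩
  unfold Out
  rw [mem_sdiff]
  refine ⟨mem_univ _, ?_⟩
  intro h6
  rw [mem_biUnion] at h6
  obtain ⟨t, ht, hwt⟩ := h6
  exact (Finset.disjoint_left.1 (h.avE t (mem_range.1 ht)) hwt) h2

lemma card_le {G : SimpleGraph V} {q : ℕ} {c : ℕ → V} {J : V → Finset ℕ} {B : ℕ → Finset V}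
    (hB : ∀ v, ∃ j < q, v ∈ B j) (v : V) :
    (nc G c (J v) \ dg G v).card ≤ ∑ j ∈ range q, (blk G c J (B j) v).card := by
  have h1 : nc G c (J v) \ dg G v ⊆ (range q).biUnion (fun j => blk G c J (B j) v) := by
    intro w hw
    rw [mem_sdiff] at hw
    obtain ⟨j, hj, hwj⟩ := hB w
    rw [mem_biUnion]
    refine ⟨j, mem_range.2 hj, ?_⟩
    simp only [blk, mem_sdiff, mem_inter]
    exact ⟨⟨hw.1, hwj⟩, hw.2⟩
  exact (card_le_card h1).trans card_biUnion_le

end SMA_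

open SMA_ in
theorem p_SMA (hAVD : T_AVD) (hAVG : T_AVG) (hBLQ : Pool.Agent.SFB.T_BLQ) : T_SMA := by
  intro V _ _ G Y X L P a k K q e r c J hP hX hr hV hall hN hq
  obtain ⟨B, hB1, hB2⟩ := hBLQ V q e hq
  have hj : ∀ j, ∑ v, P v * ((blk G c J (B j) v).card : ℝ) ≤ r + k := by
    intro j
    obtain ⟨D, hD⟩ := hAVD V G a K e c (B j) hall (hB1 j)
    have hD0 : Sys G a K c ∅ D :=
      ⟨hD.sub, fun t _ => Finset.disjoint_empty_right _, hD.crd, hD.dsj⟩
    have h1 := hAVG V G Y X L P a k K r c J D hP hX hr hV hD0 hN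
    refine le_trans ?_ h1
    refine Finset.sum_le_sum fun v _ => mul_le_mul_of_nonneg_left ?_ (hP.nn v)
    have h2 : ((blk G c J (B j) v).card : ℝ) ≤
        (((nc G c (J v) ∩ Out K D) \ dg G v).card : ℝ) := by
      exact_mod_cast card_le_card (blk_sub hD v)
    have h3 : (0 : ℝ) ≤ ((dg G v ∩ (range K \ J v).biUnion D).card : ℝ) := Nat.cast_nonneg _
    linarith
  calc ∑ v, P v * ((nc G c (J v) \ dg G v).card : ℝ)
      ≤ ∑ v, P v * (∑ j ∈ range q, ((blk G c J (B j) v).card : ℝ)) := by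
        refine Finset.sum_le_sum fun v _ => mul_le_mul_of_nonneg_left ?_ (hP.nn v)
        exact_mod_cast card_le hB2 v
    _ = ∑ j ∈ range q, ∑ v, P v * ((blk G c J (B j) v).card : ℝ) := by
        rw [Finset.sum_comm]
        simp only [Finset.mul_sum]
    _ ≤ ∑ _j ∈ range q, ((r : ℝ) + k) := Finset.sum_le_sum fun j _ => hj j
    _ = q * (r + k) := by
        rw [Finset.sum_const, card_range, nsmul_eq_mul]

end Pool.Agent.SFG
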