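import Pool.Agent.SFG.Targets

/-!
# SFG: the target T_SMB
-/

set_option autoImplicit false

open Finset

namespace Pool.Agent.SFG

open Pool.Agent.StarF (starForest ramsey)
open Pool.Agent.SFB (Con dg nc Chain Two)

namespace SMB_

variable {V : Type} [Fintype V] [DecidableEq V]

/-- A block `E` of the neighbourhood of `c 0` which is contained in `D 0`. -/
lemma block (hAVG : T_AVG) {G : SimpleGraph V} {Y X : Finset V} {L : ℕ} {P : V → ℝ}
    {a : ℕ → ℕ} {k K r : ℕ} {c : ℕ → V} {J : V → Finset ℕ} {D : ℕ → Finset V} {E : Finset V}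
    (hP : Cov G Y X L P) (hX : (Xᶜ).card ≤ r) (hr : 1 ≤ r)
    (hJ : ∀ v ∈ Y, Vio G a k K c v (J v)) (hN : ∑ t ∈ range K, a t + 2 * a K ≤ Fintype.card V)
    (hK : 1 ≤ K) (hD : Sys G a K c ∅ D) (hE : E ⊆ D 0) :
    ∑ v, P v * (if 0 ∈ J v then 0 else ((dg G v ∩ E).card : ℝ)) ≤ r + k := by
  refine le_trans (Finset.sum_le_sum fun v _ => ?_)
    (hAVG V G Y X L P a k K r c J D hP hX hr hJ hD hN)
  refine mul_le_mul_of_nonneg_left ?_ (hP.nn v)
  split_ifs with h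
  · positivity
  · have h1 : dg G v ∩ E ⊆ dg G v ∩ (range K \ J v).biUnion D := by
      intro w hw
      rw [mem_inter] at hw ⊢
      refine ⟨hw.1, mem_biUnion.2 ⟨0, ?_, hE hw.2⟩⟩
      rw [mem_sdiff, mem_range]
      exact ⟨hK, h⟩
    have h2 : ((dg G v ∩ E).card : ℝ) ≤ ((dg G v ∩ (range K \ J v).biUnion D).card : ℝ) := by
      exact_mod_cast card_le_card h1
    have h3 : (0 : ℝ) ≤ (((nc G c (J v) ∩ Out K D) \ dg G v).card : ℝ) := by
      positivity
    linarith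

omit [Fintype V] in
/-- Covering a set by blocks. -/
lemma cover {q : ℕ} {B : ℕ → Finset V} (hB : ∀ v, ∃ j < q, v ∈ B j) (Y Z : Finset V) :
    (Y ∩ Z).card ≤ ∑ j ∈ range q, (Y ∩ (B j ∩ Z)).card := by
  have h1 : Y ∩ Z ⊆ (range q).biUnion (fun j => Y ∩ (B j ∩ Z)) := by
    intro w hw
    rw [mem_inter] at hw
    obtain ⟨j, hj, hwj⟩ := hB w
    refine mem_biUnion.2 ⟨j, mem_range.2 hj, ?_⟩
    rw [mem_inter, mem_inter]
    exact ⟨hw.1, hwj, hw.2⟩
  exact (card_le_card h1).trans card_biUnion_le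

end SMB_

theorem p_SMB (hAV0 : T_AV0) (hAVG : T_AVG) (hBLQ : Pool.Agent.SFB.T_BLQ) : T_SMB := by
  intro V _ _ G Y X L P a k K q e r c J hP hX hr hJ hS hN hq hK he
  obtain ⟨B, hB1, hB2⟩ := hBLQ V q e hq
  have hsys : ∀ j, ∃ D : ℕ → Finset V, Sys G a K c ∅ D ∧ B j ∩ dg G (c 0) ⊆ D 0 := by
    intro j
    obtain ⟨D, hD, hD0⟩ := hAV0 V G a K e c (B j ∩ dg G (c 0)) hS
      ((card_le_card inter_subset_left).trans (hB1 j)) inter_subset_right he
    exact ⟨D, hD, hD0 hK⟩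
  choose D hD hD0 using hsys
  have h1 : ∀ j ∈ range q, ∑ v, P v * (if 0 ∈ J v then 0 else
      ((dg G v ∩ (B j ∩ dg G (c 0))).card : ℝ)) ≤ r + k := fun j _ =>
    SMB_.block hAVG hP hX hr hJ hN hK (hD j) (hD0 j)
  have h2 := Finset.sum_le_sum h1
  rw [Finset.sum_comm, Finset.sum_const, card_range, nsmul_eq_mul] at h2
  refine le_trans (Finset.sum_le_sum fun v _ => ?_) h2
  rw [← Finset.mul_sum]
  refine mul_le_mul_of_nonneg_left ?_ (hP.nn v)
  split_ifs with h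
  · rw [Finset.sum_const_zero]
  · have h4 := SMB_.cover hB2 (dg G v) (dg G (c 0))
    exact_mod_cast h4

end Pool.Agent.SFG
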