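import Pool.Agent.SFG.Targets

set_option autoImplicit false

/-!
# SFG: STC, the structure (helper65)
-/

open Finset

namespace Pool.Agent.SFG

open Pool.Agent.StarF (starForest ramsey)
open Pool.Agent.SFB (Con dg nc Chain Two)

namespace STC_

/-- the set `F` if it is small, otherwise the empty set -/
def sm {V : Type} [DecidableEq V] (F : Finset V) (n : ℕ) : Finset V :=
  if F.card ≤ n then F else ∅

theorem sm_card {V : Type} [DecidableEq V] (F : Finset V) (n : ℕ) : (sm F n).card ≤ n := by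
  unfold sm
  split_ifs with h
  · exact h
  · simp

theorem sm_mem {V : Type} [DecidableEq V] {F : Finset V} {n : ℕ} (h : F.card ≤ n) {v : V}
    (hv : v ∈ F) : v ∈ sm F n := by
  unfold sm
  rw [if_pos h]
  exact hv

/-- the final step -/
theorem fin (hTYC : T_TYC) (hCL1 : T_CL1) (hCL2 : Pool.Agent.SFB.T_CL2)
    (hBLK : Pool.Agent.SFB.T_BLK) {V : Type} [Fintype V]
    [DecidableEq V] (G : SimpleGraph V) (a : ℕ → ℕ) (k K q e : ℕ) (X0 : Finset V)
    (J1 J2 : Finset ℕ) (hP : Par a k K q e (Fintype.card V)) (h1 : ¬ Con G k a)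
    (h2 : ¬ Con Gᶜ k a) (hT : Typ G a k K (LL k q) (LL k q) X0 J1 J2) :
    ∃ X : Finset V, (Two G X (el k q) ∨ Two Gᶜ X (el k q)) ∧
    a K ≤ X.card + el k q ∧ a K ≤ (Xᶜ).card + el k q := by
  have hT' := hTYC V G a k K (LL k q) X0 J1 J2 hT
  have c1 := hCL1 V G a k K q e (LL k q) X0 J1 J2 hP h1 (by omega) hT
  have c2 := hCL1 V Gᶜ a k K q e (LL k q + 1) X0 J1 J2 hP h2 le_rfl hT'
  have hL := hP.L1
  have he := hP.e1
  have hl := hP.l1
  have ha := hP.aK
  have hk := hP.k2
  have h3 := hP.three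
  have lo1 := hT.lo1
  have lo2 := hT.lo2
  have c3 := hCL2 V G k (LL k q) (a K) X0 (by omega) (by omega) (by omega) (by omega) (by omega)
    h3
  obtain ⟨X, hX, hb1, hb2⟩ := hBLK V G (a K - 2 * LL k q) (20 * LL k q) X0 (by omega) (by omega)
    (by omega) (fun u => c3 u (c1 u) (c2 u))
  refine ⟨X, ?_, by omega, by omega⟩
  rcases hX with hX | hX
  · exact Or.inl (hX.mono (by omega))
  · exact Or.inr (hX.mono (by omega))

end STC_

open STC_ in
theorem p_STC (hMMX : T_MMX) (hMCH : Pool.Agent.SFB.T_MCH) (hCOL : T_COL) (hTYC : T_TYC)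
    (hCL1 : T_CL1) (hCL2 : Pool.Agent.SFB.T_CL2) (hBLK : Pool.Agent.SFB.T_BLK) : T_STC := by
  intro V _ _ G a k K q e hP h1 h2
  have h3 := hP.three
  have hL := hP.L1
  have hL2 := hP.L2
  have he := hP.e1
  have hl := hP.l1
  have ha := hP.aK
  have hk := hP.k2
  have hKk := hP.hk
  have hq := hP.q1
  have hkq : k ≤ k * q := by
    calc k = k * 1 := (mul_one k).symm
      _ ≤ k * q := Nat.mul_le_mul_left _ hq
  have : Nonempty V := Fintype.card_pos_iff.1 (by omega)
  obtain ⟨i, hi, c, D, hC, hmax⟩ := hMCH V G a e K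
  obtain ⟨i', hi', c', D', hC', hmax'⟩ := hMCH V Gᶜ a e K
  obtain ⟨F1, hF1⟩ : ∃ F : Finset V,
      F = univ.filter (fun v => (symmDiff (dg G v) (dg G (c 0))).card ≤ LL k q) := ⟨_, rfl⟩
  obtain ⟨F2, hF2⟩ : ∃ F : Finset V,
      F = univ.filter (fun v => (symmDiff (dg G v) (dg G (c 0))ᶜ).card ≤ LL k q) := ⟨_, rfl⟩
  obtain ⟨F3, hF3⟩ : ∃ F : Finset V,
      F = univ.filter (fun v => (symmDiff (dg Gᶜ v) (dg Gᶜ (c' 0))).card ≤ LL k q) := ⟨_, rfl⟩
  obtain ⟨F4, hF4⟩ : ∃ F : Finset V,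
      F = univ.filter (fun v => (symmDiff (dg Gᶜ v) (dg Gᶜ (c' 0))ᶜ).card ≤ LL k q) :=
    ⟨_, rfl⟩
  obtain ⟨R, hR⟩ : ∃ R : Finset V, R = (((((range i).image c ∪ (range i').image c') ∪
      sm F1 (k + 1)) ∪ sm F2 (k + 1)) ∪ sm F3 (k + 1)) ∪ sm F4 (k + 1) := ⟨_, rfl⟩
  have hRc : R.card ≤ 6 * k + 2 := by
    rw [hR]
    have e1 := card_union_le (((((range i).image c ∪ (range i').image c') ∪
      sm F1 (k + 1)) ∪ sm F2 (k + 1)) ∪ sm F3 (k + 1)) (sm F4 (k + 1))
    have e2 := card_union_le ((((range i).image c ∪ (range i').image c') ∪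
      sm F1 (k + 1)) ∪ sm F2 (k + 1)) (sm F3 (k + 1))
    have e3 := card_union_le (((range i).image c ∪ (range i').image c') ∪
      sm F1 (k + 1)) (sm F2 (k + 1))
    have e4 := card_union_le ((range i).image c ∪ (range i').image c') (sm F1 (k + 1))
    have e5 := card_union_le ((range i).image c) ((range i').image c')
    have e6 : ((range i).image c).card ≤ i := card_image_le.trans (by rw [card_range])
    have e7 : ((range i').image c').card ≤ i' := card_image_le.trans (by rw [card_range])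
    have s1 := sm_card F1 (k + 1)
    have s2 := sm_card F2 (k + 1)
    have s3 := sm_card F3 (k + 1)
    have s4 := sm_card F4 (k + 1)
    omega
  have hcR : ∀ t < i, c t ∈ R := by
    intro t ht
    rw [hR]
    have : c t ∈ (range i).image c := mem_image_of_mem _ (mem_range.2 ht)
    simp only [mem_union]
    tauto
  have hcR' : ∀ t < i', c' t ∈ R := by
    intro t ht
    rw [hR]
    have : c' t ∈ (range i').image c' := mem_image_of_mem _ (mem_range.2 ht)
    simp only [mem_union]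
    tauto
  have hF : ∀ v, (v ∈ sm F1 (k + 1) ∨ v ∈ sm F2 (k + 1) ∨ v ∈ sm F3 (k + 1) ∨
      v ∈ sm F4 (k + 1)) → v ∈ R := by
    intro v hv
    rw [hR]
    simp only [mem_union]
    tauto
  have hYc : k * q ≤ (Rᶜ).card := by
    rw [card_compl]
    omega
  obtain ⟨X, hXY, hXc, hCovs⟩ := hMMX V G (Rᶜ) (k * q) (by omega) hYc
  have hX9 : (Xᶜ).card ≤ 9 * (k * q) := by
    have hsub : Xᶜ ⊆ R ∪ (Rᶜ \ X) := by
      intro v hv
      rw [mem_compl] at hv
      rw [mem_union, mem_sdiff, mem_compl]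
      tauto
    have := (card_le_card hsub).trans (card_union_le _ _)
    omega
  have hnot : ∀ t < i, c t ∉ Rᶜ := fun t ht h => (mem_compl.1 h) (hcR t ht)
  have hnot' : ∀ t < i', c' t ∉ Rᶜ := fun t ht h => (mem_compl.1 h) (hcR' t ht)
  rcases hCovs with ⟨P, hCov⟩ | ⟨P, hCov⟩
  · obtain ⟨J1, J2, hT⟩ := hCOL V G (Rᶜ) X P a k K q e i c D hP h1 hCov hX9 hi hC hmax hnot
      (by
        rw [← hF1]
        intro hs v hv
        by_contra hcon
        have hv1 : v ∈ F1 := by
          rw [hF1, mem_filter]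
          exact ⟨mem_univ _, not_lt.1 hcon⟩
        exact (mem_compl.1 hv) (hF v (Or.inl (sm_mem hs hv1))))
      (by
        rw [← hF2]
        intro hs v hv
        by_contra hcon
        have hv1 : v ∈ F2 := by
          rw [hF2, mem_filter]
          exact ⟨mem_univ _, not_lt.1 hcon⟩
        exact (mem_compl.1 hv) (hF v (Or.inr (Or.inl (sm_mem hs hv1)))))
    exact fin hTYC hCL1 hCL2 hBLK G a k K q e _ J1 J2 hP h1 h2 hT
  · obtain ⟨J1, J2, hT⟩ := hCOL V Gᶜ (Rᶜ) X P a k K q e i' c' D' hP h2 hCov hX9 hi' hC' hmax'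
      hnot'
      (by
        rw [← hF3]
        intro hs v hv
        by_contra hcon
        have hv1 : v ∈ F3 := by
          rw [hF3, mem_filter]
          exact ⟨mem_univ _, not_lt.1 hcon⟩
        exact (mem_compl.1 hv) (hF v (Or.inr (Or.inr (Or.inl (sm_mem hs hv1))))))
      (by
        rw [← hF4]
        intro hs v hv
        by_contra hcon
        have hv1 : v ∈ F4 := by
          rw [hF4, mem_filter]
          exact ⟨mem_univ _, not_lt.1 hcon⟩
        exact (mem_compl.1 hv) (hF v (Or.inr (Or.inr (Or.inr (sm_mem hs hv1))))))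
    have h4 : ¬ Con (Gᶜ)ᶜ k a := by rwa [compl_compl]
    obtain ⟨X, hX, hX1, hX2⟩ := fin hTYC hCL1 hCL2 hBLK Gᶜ a k K q e _ J1 J2 hP h2 h4 hT
    rw [compl_compl] at hX
    exact ⟨X, hX.symm, hX1, hX2⟩

end Pool.Agent.SFG
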