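import Pool.Agent.SFG.Targets

set_option autoImplicit false

open Finset

namespace Pool.Agent.SFG

open Pool.Agent.StarF (starForest ramsey)
open Pool.Agent.SFB (Con dg nc Chain Two mem_dg_compl)

namespace TYC_

lemma sub1 {V : Type} [Fintype V] [DecidableEq V] (G : SimpleGraph V) (X0 : Finset V) (v : V) :
    symmDiff (dg Gᶜ v) X0 ⊆ insert v (symmDiff (dg G v) X0ᶜ) := by
  intro w hw
  rw [mem_symmDiff, mem_dg_compl] at hw
  rw [mem_insert, mem_symmDiff, mem_compl]
  by_cases h : w = v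
  · exact Or.inl h
  · right
    rcases hw with ⟨⟨-, h1⟩, h2⟩ | ⟨h1, h2⟩
    · exact Or.inr ⟨h2, h1⟩
    · left
      have h3 : w ∈ dg G v := by
        by_contra h4
        exact h2 ⟨h, h4⟩
      exact ⟨h3, fun h4 => h4 h1⟩

lemma sub2 {V : Type} [Fintype V] [DecidableEq V] (G : SimpleGraph V) (X0 : Finset V) (v : V) :
    symmDiff (dg Gᶜ v) X0ᶜ ⊆ insert v (symmDiff (dg G v) X0) := by
  have h := sub1 G X0ᶜ v
  rwa [compl_compl] at h

end TYC_

open TYC_ in
theorem p_TYC : T_TYC := by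
  intro V _ _ G a k K L X0 J1 J2 h
  refine ⟨h.dsj, h.uni, h.lo1, h.up1, h.lo2, h.up2, ?_, ?_⟩
  · refine h.T2.trans (card_le_card ?_)
    intro v hv
    rw [mem_filter] at hv ⊢
    refine ⟨mem_univ _, ?_⟩
    exact (card_le_card (sub1 G X0 v)).trans ((card_insert_le _ _).trans (by omega))
  · refine h.T1.trans (card_le_card ?_)
    intro v hv
    rw [mem_filter] at hv ⊢
    refine ⟨mem_univ _, ?_⟩
    exact (card_le_card (sub2 G X0 v)).trans ((card_insert_le _ _).trans (by omega))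

end Pool.Agent.SFG
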