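import Pool.Agent.SFG.Targets

/-!
# SFG-UPP: the upper bound
-/

set_option autoImplicit false

open Finset

namespace Pool.Agent.SFG

open Pool.Agent.StarF (starForest ramsey)
open Pool.Agent.SFB (Con dg nc Chain Two)

theorem p_UPP (hSTC : T_STC) (hEXA : T_EXA) : T_UPP := by
  intro a k K q e N hP hfit G
  have hN : Par a k K q e (Fintype.card (Fin N)) := by rwa [Fintype.card_fin]
  by_contra hcon
  rw [not_or] at hcon
  obtain ⟨h1, h2⟩ := hcon
  obtain ⟨X, hX, hX1, hX2⟩ := hSTC (Fin N) G a k K q e hN h1 h2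
  have hf : ∀ x y c : ℕ, x + y = Fintype.card (Fin N) → c + 1 < k → (c < x ∨ c = 0) →
      pf a k x y c := by
    rwa [Fintype.card_fin]
  rcases hX with hX | hX
  · rcases hEXA (Fin N) G a k K q e X hN hX hX1 hX2 hf with h | h
    · exact h1 h
    · exact h2 h
  · rcases hEXA (Fin N) Gᶜ a k K q e X hN hX hX1 hX2 hf with h | h
    · exact h2 h
    · rw [compl_compl] at h
      exact h1 h

end Pool.Agent.SFG
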