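import Pool.Agent.SFB.All
import Pool.Agent.SFG.P_MMX
import Pool.Agent.SFG.P_AVE
import Pool.Agent.SFG.P_EXT
import Pool.Agent.SFG.P_GRD
import Pool.Agent.SFG.P_ORC
import Pool.Agent.SFG.P_VIO
import Pool.Agent.SFG.P_AVD
import Pool.Agent.SFG.P_AV0
import Pool.Agent.SFG.P_INE
import Pool.Agent.SFG.P_AVG
import Pool.Agent.SFG.P_SMA
import Pool.Agent.SFG.P_SMB
import Pool.Agent.SFG.P_TYP
import Pool.Agent.SFG.P_STR
import Pool.Agent.SFG.P_COL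
import Pool.Agent.SFG.P_TYC
import Pool.Agent.SFG.P_CL1
import Pool.Agent.SFG.P_STC
import Pool.Agent.SFG.P_FAR
import Pool.Agent.SFG.P_FTI
import Pool.Agent.SFG.P_E1B
import Pool.Agent.SFG.P_PRT
import Pool.Agent.SFG.P_TGC
import Pool.Agent.SFG.P_TGD
import Pool.Agent.SFG.P_TIG
import Pool.Agent.SFG.P_EXA
import Pool.Agent.SFG.P_UPP
import Pool.Agent.SFG.P_REG
import Pool.Agent.SFG.P_LWR
import Pool.Agent.SFG.P_LWB
import Pool.Agent.SFG.P_LOW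
import Pool.Agent.SFG.P_CNV
import Pool.Agent.SFG.P_LOB
import Pool.Agent.SFG.P_BVL

/-!
# SFG: assembly of the blocks
-/

set_option autoImplicit false

open Finset

namespace Pool.Agent.SFG

theorem a_AVG : T_AVG := p_AVG p_AVE p_INE

theorem a_SMA : T_SMA := p_SMA p_AVD a_AVG Pool.Agent.SFB.p_BLQ

theorem a_SMB : T_SMB := p_SMB (p_AV0 p_AVD) a_AVG Pool.Agent.SFB.p_BLQ

theorem a_GRD : T_GRD := p_GRD Pool.Agent.SFB.p_EMB

theorem a_COL : T_COL :=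
  p_COL (p_EXT p_AVE) Pool.Agent.SFB.p_SUR (p_ORC p_AVE) (p_VIO a_GRD) a_SMA a_SMB (p_TYP p_AVE)
    p_STR

theorem a_STC : T_STC :=
  p_STC p_MMX Pool.Agent.SFB.p_MCH a_COL p_TYC (p_CL1 a_GRD) Pool.Agent.SFB.p_CL2
    Pool.Agent.SFB.p_BLK

theorem a_FTI : T_FTI := p_FTI Pool.Agent.SFB.p_EMB p_FAR

theorem a_FTB : Pool.Agent.SFB.T_FTB := Pool.Agent.SFB.p_FTB Pool.Agent.SFB.a_FIT

theorem a_FTR : Pool.Agent.SFB.T_FTR := Pool.Agent.SFB.p_FTR Pool.Agent.SFB.a_FIT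

theorem a_TIG : T_TIG :=
  p_TIG (p_E1B Pool.Agent.SFB.p_EMB) p_PRT (p_TGC a_FTB a_FTR a_FTI) (p_TGD a_FTR a_FTI)

theorem a_EXA : T_EXA := p_EXA a_FTB a_FTR a_TIG

theorem a_LOW : T_LOW := p_LOW p_REG p_LWR p_LWB

theorem a_BVL : T_BVL := p_BVL (p_UPP a_STC a_EXA) a_LOW p_CNV p_LOB

end Pool.Agent.SFG
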