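import Pool.Agent.SFG.Targets2
import Pool.Agent.StarF.Main

/-!
# SFG: the final theorem from the targets
-/

set_option autoImplicit false

open Finset

namespace Pool.Agent.SFG

open Pool.Agent.StarF (starForest ramsey general)
open Pool.Agent.SFB (Con dg nc Chain Two)

namespace Final_

lemma nat_sizes {k : ℕ} (n : Fin k → ℕ) : ∃ a : ℕ → ℕ, n = fun i : Fin k => a i := by
  refine ⟨fun t => if h : t < k then n ⟨t, h⟩ else 0, ?_⟩
  funext i
  simp

lemma sum_Iic {k : ℕ} (a : ℕ → ℕ) (j : Fin k) :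
    ∑ i ∈ Iic j, a i = ∑ t ∈ range (j + 1), a t := by
  have h : (Iic j).map Fin.valEmbedding = range (j + 1) := by
    rw [Fin.map_valEmbedding_Iic]
    ext t
    simp
  rw [← h, Finset.sum_map]
  rfl

/-- The upper bound (see `StarF.general`). -/
lemma upper (k : ℕ) (hk : 1 ≤ k) (a : ℕ → ℕ) (M : ℕ)
    (hMj : ∀ j, j < k → a j + ∑ t ∈ range (j + 1), a t ≤ M) :
    ∀ G : SimpleGraph (Fin (M + 3 * k - 2)), Con G k a ∨ Con Gᶜ k a := by
  intro G
  have : Nonempty (Fin (M + 3 * k - 2)) := ⟨⟨0, by omega⟩⟩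
  by_contra hcon
  rw [not_or] at hcon
  obtain ⟨i, hi, j, hj, h⟩ := general G k k a a (1 / 2) (by norm_num) (by norm_num) hcon.1 hcon.2
  have hcard : ((Fintype.card (Fin (M + 3 * k - 2)) : ℕ) : ℝ) = M + 3 * k - 2 := by
    rw [Fintype.card_fin, Nat.cast_sub (by omega)]
    push_cast
    ring
  rw [hcard] at h
  have key : ∀ i j : ℕ, i < k → j < k → ¬ ((1 / 2 : ℝ) *
      ((M : ℝ) + 3 * k - 2 - i - j - ∑ t ∈ range i, (a t : ℝ)) ≤
      a i + ((k - (i + 1) : ℕ) : ℝ)) := by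
    intro i j hi hj hle
    have h1 : ((a i + ∑ t ∈ range (i + 1), a t : ℕ) : ℝ) ≤ M := by exact_mod_cast hMj i hi
    rw [Finset.sum_range_succ] at h1
    push_cast at h1
    rw [Nat.cast_sub (by omega)] at hle
    push_cast at hle
    have h2 : (j : ℝ) + 1 ≤ k := by exact_mod_cast hj
    have h3 : (0 : ℝ) ≤ i := Nat.cast_nonneg i
    linarith
  rcases h with h | h
  · exact key i j hi hj h
  · apply key j i hj hi
    have e1 : (1 - 1 / 2 : ℝ) = 1 / 2 := by norm_num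
    rw [e1] at h
    linarith

/-- The parameters. -/
lemma par (k : ℕ) (hk : 2 ≤ k) (δ : ℝ) (hδ : 0 < δ) (hδ1 : δ ≤ 1) : ∃ n₀ : ℕ, 1 ≤ n₀ ∧
    ∀ (a : ℕ → ℕ) (K : ℕ), 1 ≤ K → K < k → (∀ s t, s ≤ t → t < k → a t ≤ a s) →
    (∀ t < k, n₀ ≤ a t) →
    (∀ i < k, i ≠ K → (1 + δ) * ((∑ t ∈ range (i + 1), a t + a i : ℕ) : ℝ) ≤
      ((∑ t ∈ range (K + 1), a t + a K : ℕ) : ℝ)) →
    ∃ q e : ℕ, ∀ N : ℕ, ∑ t ∈ range (K + 1), a t + a K ≤ N →
      N ≤ ∑ t ∈ range (K + 1), a t + a K + 3 * k → Par a k K q e N := by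
  obtain ⟨q, hq⟩ := exists_nat_ge (32 / δ)
  obtain ⟨n1, hn1⟩ := exists_nat_ge (16 * (10 * (el k q : ℝ) ^ 3 + 1) / δ)
  refine ⟨n1 + 10 * k * el k q + 3 * k + 1, by omega, ?_⟩
  intro a K hK hKk hanti hbig hgap
  set MK : ℕ := ∑ t ∈ range (K + 1), a t + a K with hMK
  have haK := hbig K hKk
  have hMa : a K ≤ MK := Nat.le_add_left _ _
  have hM3 : 3 * k ≤ MK := by omega
  have hMn : (n1 : ℝ) ≤ MK := by
    have h1 : n1 ≤ MK := by omega
    exact_mod_cast h1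
  have h16 : 16 * (10 * (el k q : ℝ) ^ 3 + 1) ≤ δ * MK := by
    have h1 : 16 * (10 * (el k q : ℝ) ^ 3 + 1) / δ ≤ MK := by linarith
    rw [div_le_iff₀ hδ] at h1
    linarith
  have hcu : (0 : ℝ) ≤ (el k q : ℝ) ^ 3 := by positivity
  have hM0 : (0 : ℝ) ≤ MK := Nat.cast_nonneg _
  set e : ℕ := ⌊δ * MK / 8⌋₊ with he
  have he1 : (e : ℝ) ≤ δ * MK / 8 := Nat.floor_le (by positivity)
  have he2 : δ * MK / 8 < e + 1 := Nat.lt_floor_add_one _
  have he3 : δ * MK / 16 ≤ e := by linarith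
  refine ⟨q, e, ?_⟩
  intro N hlo hup
  refine ⟨hK, hKk, hanti, ?_, ?_, ?_, hlo, ?_, ?_⟩
  · intro i hi hiK
    have h1 := hgap i hi hiK
    set Mi : ℕ := ∑ t ∈ range (i + 1), a t + a i with hMi
    have hMi0 : (0 : ℝ) ≤ Mi := Nat.cast_nonneg _
    have h2 : (1 + δ) * ((Mi : ℝ) + 4 * e) ≤ (1 + δ) * MK := by
      have h3 : (1 + δ) * (4 * (e : ℝ)) ≤ 2 * (4 * (δ * MK / 8)) :=
        mul_le_mul (by linarith) (by linarith) (by positivity) (by norm_num)
      linarith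
    have h4 : (Mi : ℝ) + 4 * e ≤ MK := le_of_mul_le_mul_left h2 (by linarith)
    have h5 : ((Mi + 4 * e : ℕ) : ℝ) ≤ (MK : ℝ) := by
      push_cast
      exact h4
    exact_mod_cast h5
  · have h1 : ((10 * (el k q) ^ 3 : ℕ) : ℝ) ≤ (e : ℝ) := by
      push_cast
      linarith
    exact_mod_cast h1
  · intro t ht
    have h1 := hbig t ht
    omega
  · have h1 : (N : ℝ) ≤ 2 * MK := by
      have h2 : N ≤ 2 * MK := by omega
      exact_mod_cast h2
    have h5 : 32 ≤ q * δ := by rwa [div_le_iff₀ hδ] at hq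
    have h6 : (q : ℝ) * (δ * MK / 16) ≤ q * e :=
      mul_le_mul_of_nonneg_left he3 (Nat.cast_nonneg q)
    have h7 : 32 * (MK : ℝ) ≤ q * δ * MK := mul_le_mul_of_nonneg_right h5 hM0
    have h8 : (N : ℝ) ≤ ((q * e : ℕ) : ℝ) := by
      push_cast
      linarith
    exact_mod_cast h8
  · have h1 : (1 : ℝ) ≤ (e : ℝ) := by linarith
    exact_mod_cast h1

/-- The block number from the two bounds. -/
lemma value (a : ℕ → ℕ) (k K q e N1 b : ℕ)
    (hPar : ∀ N : ℕ, ∑ t ∈ range (K + 1), a t + a K ≤ N → N ≤ N1 → Par a k K q e N)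
    (hLOB : ∀ N, N < ∑ t ∈ range (K + 1), a t + a K → ∃ x y, x + y = N ∧ ¬ pf a k x y 0)
    (hCNV : T_CNV) (hk : 2 ≤ k) (_hb0 : ∑ t ∈ range (K + 1), a t + a K ≤ b) (hb1 : b ≤ N1)
    (hU : ∀ x y c : ℕ, x + y = b → c + 1 < k → pf a k x y c)
    (hL : ∀ N, Par a k K q e N → N + 1 ≤ b →
      ∃ x y c : ℕ, x + y = N ∧ c + 1 < k ∧ (c < x ∨ c = 0) ∧ ¬ pf a k x y c) :
    sInf {N : ℕ | ∀ x y c : ℕ, x + y = N → c + 1 < k → (c < x ∨ c = 0) →
      PF (fun i : Fin k => a i) x y c} = b := by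
  apply le_antisymm
  · apply Nat.sInf_le
    intro x y c hxy hc _
    exact (hCNV k a x y c).1 (hU x y c hxy hc)
  · apply le_csInf
    · exact ⟨b, fun x y c hxy hc _ => (hCNV k a x y c).1 (hU x y c hxy hc)⟩
    · intro N hN
      by_contra hlt
      push Not at hlt
      rcases Nat.lt_or_ge N (∑ t ∈ range (K + 1), a t + a K) with h | h
      · obtain ⟨x, y, hxy, hnp⟩ := hLOB N h
        exact hnp ((hCNV k a x y 0).2 (hN x y 0 hxy (by omega) (Or.inr rfl)))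
      · obtain ⟨x, y, c, hxy, hc, hcx, hnp⟩ := hL N (hPar N h (by omega)) hlt
        exact hnp ((hCNV k a x y c).2 (hN x y c hxy hc hcx))

end Final_

open Final_ in
/-- The theorem. -/
theorem final (hBVL : T_BVL) (hCNV : T_CNV) (hLOB : T_LOB) (hXUA : T_XUA) (hXLA : T_XLA)
    (hXUB : T_XUB) (hXLB : T_XLB) (k : ℕ) (δ : ℝ) (hδ : 0 < δ) :
    ∃ n₀ : ℕ, ∀ n : Fin k → ℕ, Antitone n → (∀ i, n₀ ≤ n i) → ∀ j : Fin k, 0 < (j : ℕ) →
      (∀ i, i ≠ j → (1 + δ) * ((n i + ∑ l ∈ Iic i, n l : ℕ) : ℝ) ≤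
        ((n j + ∑ l ∈ Iic j, n l : ℕ) : ℝ)) →
      ramsey (starForest n) (starForest n) =
        sInf {N : ℕ | ∀ x y c : ℕ, x + y = N → c + 1 < k → (c < x ∨ c = 0) → PF n x y c} ∧
      (3 ≤ k → (j : ℕ) = 1 → ramsey (starForest n) (starForest n) =
        n j + ∑ l ∈ Iic j, n l + k / 2 - (if k % 4 = 2 ∧ n j % 2 = 0 then 1 else 0)) ∧
      (∀ h : k = 3, (j : ℕ) = 2 → ramsey (starForest n) (starForest n) =
        n j + ∑ l ∈ Iic j, n l + (if n ⟨0, by omega⟩ = n ⟨1, by omega⟩ ∨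
          n ⟨1, by omega⟩ + n ⟨2, by omega⟩ ≤ n ⟨0, by omega⟩ then 1 else 0)) := by
  rcases Nat.lt_or_ge k 2 with hk | hk
  · refine ⟨0, ?_⟩
    intro n _ _ j hj
    have := j.2
    omega
  obtain ⟨n₀, hn0, hpar⟩ := par k hk (min δ 1) (lt_min hδ one_pos) (min_le_right _ _)
  refine ⟨n₀, ?_⟩
  intro n hanti hbig j hj hgap
  obtain ⟨a, rfl⟩ := nat_sizes n
  have hjk := j.2
  have hanti' : ∀ s t, s ≤ t → t < k → a t ≤ a s := fun s t hst ht =>
    hanti (a := (⟨s, by omega⟩ : Fin k)) (b := ⟨t, ht⟩) hst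
  have hgap1 : ∀ i < k, i ≠ (j : ℕ) →
      (1 + min δ 1) * ((∑ t ∈ range (i + 1), a t + a i : ℕ) : ℝ) ≤
      ((∑ t ∈ range ((j : ℕ) + 1), a t + a j : ℕ) : ℝ) := by
    intro i hi hij
    have h1 := hgap ⟨i, hi⟩ (fun h => hij (by rw [← h]))
    simp only [sum_Iic] at h1
    have h2 : (1 + min δ 1) * ((∑ t ∈ range (i + 1), a t + a i : ℕ) : ℝ) ≤
        (1 + δ) * ((∑ t ∈ range (i + 1), a t + a i : ℕ) : ℝ) :=
      mul_le_mul_of_nonneg_right (by linarith [min_le_left δ 1]) (Nat.cast_nonneg _)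
    refine h2.trans ?_
    rw [Nat.add_comm (∑ t ∈ range (i + 1), a t), Nat.add_comm (∑ t ∈ range ((j : ℕ) + 1), a t)]
    exact h1
  have hbig' : ∀ t < k, n₀ ≤ a t := fun t ht => hbig ⟨t, ht⟩
  obtain ⟨q, e, hP⟩ := hpar a j hj hjk hanti' hbig' hgap1
  set MK : ℕ := ∑ t ∈ range ((j : ℕ) + 1), a t + a j with hMK
  have hP0 := hP MK le_rfl (by omega)
  have hMj : ∀ i, i < k → a i + ∑ t ∈ range (i + 1), a t ≤ MK := by
    intro i hi
    by_cases hij : i = (j : ℕ)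
    · subst hij
      rw [hMK]
      omega
    · have h1 := hP0.gap i hi hij
      rw [hMK]
      omega
  have haj : 1 ≤ a j := by
    have := hbig' j hjk
    omega
  have hup := upper k (by omega) a MK hMj
  have hPN : ∀ N : ℕ, ∑ t ∈ range ((j : ℕ) + 1), a t + a j ≤ N → N ≤ MK + 3 * k - 2 →
      Par a k j q e N := fun N h1 h2 => hP N h1 (by omega)
  have hmain := hBVL a k j q e (MK + 3 * k - 2) hj hjk hanti' haj hPN hup
  have hL0 := hLOB a k j hj hjk hanti' haj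
  have hval := value a k j q e (MK + 3 * k - 2)
  simp only [sum_Iic]
  refine ⟨hmain, ?_, ?_⟩
  · intro hk3 hj1
    rw [hmain]
    have hs : ∑ t ∈ range ((j : ℕ) + 1), a t + a j = a 0 + 2 * a 1 := by
      rw [hj1, sum_range_succ, sum_range_succ, range_zero, sum_empty]
      omega
    have hif : (if k % 4 = 2 ∧ a 1 % 2 = 0 then 1 else 0) ≤ 1 := by
      split_ifs <;> omega
    have hif3 : (if k % 4 = 2 ∧ a j % 2 = 0 then 1 else 0) =
        (if k % 4 = 2 ∧ a 1 % 2 = 0 then 1 else 0) := by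
      simp only [hj1]
    have hb : a j + ∑ t ∈ range ((j : ℕ) + 1), a t + k / 2 -
        (if k % 4 = 2 ∧ a j % 2 = 0 then 1 else 0) = a 0 + 2 * a 1 + k / 2 -
        (if k % 4 = 2 ∧ a 1 % 2 = 0 then 1 else 0) := by
      rw [hif3]
      omega
    refine Eq.trans ?_ hb.symm
    rw [hj1] at hs hPN hL0 hval hMK
    apply hval _ hPN hL0 hCNV hk
    · omega
    · omega
    · intro x y c hxy hc
      exact hXUA a k q e _ (hPN _ (by omega) (by omega)) hk3 rfl x y c hxy hc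
    · intro N hPN' hNb
      exact hXLA a k q e N hPN' hk3 hNb
  · intro h3 hj2
    subst h3
    rw [hmain]
    have hs : ∑ t ∈ range ((j : ℕ) + 1), a t + a j = a 0 + a 1 + 2 * a 2 := by
      rw [hj2, sum_range_succ, sum_range_succ, sum_range_succ, range_zero, sum_empty]
      omega
    have hif : (if a 0 = a 1 ∨ a 1 + a 2 ≤ a 0 then 1 else 0) ≤ 1 := by
      split_ifs <;> omega
    have hb : a j + ∑ t ∈ range ((j : ℕ) + 1), a t +
        (if a 0 = a 1 ∨ a 1 + a 2 ≤ a 0 then 1 else 0) = a 0 + a 1 + 2 * a 2 +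
        (if a 0 = a 1 ∨ a 1 + a 2 ≤ a 0 then 1 else 0) := by
      omega
    refine Eq.trans ?_ hb.symm
    rw [hj2] at hs hPN hL0 hval hMK
    apply hval _ hPN hL0 hCNV hk
    · omega
    · omega
    · intro x y c hxy hc
      exact hXUB a q e _ (hPN _ (by omega) (by omega)) rfl x y c hxy hc
    · intro N hPN' hNb
      have hlo := hPN'.lo
      by_cases hc : a 0 = a 1 ∨ a 1 + a 2 ≤ a 0
      · rw [if_pos hc] at hNb
        exact hXLB a q e N hPN' (by omega) hc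
      · rw [if_neg hc] at hNb
        omega

end Pool.Agent.SFG
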