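import Pool.Agent.SFG.Targets2

set_option autoImplicit false

open Finset

namespace Pool.Agent.SFG

/-- Greedy packing. -/
theorem p_PCK : T_PCK := by
  intro a k i0 C x y A0 hi0 hA0 hx hy hC
  have key : ∀ i, i0 ≤ i → i ≤ k → ∃ A ⊆ range i, A ∩ range i0 = A0 ∧
      (A = ∅ ∨ ∑ t ∈ A, a t + C ≤ x) ∧
      (range i \ A = ∅ ∨ ∑ t ∈ range i \ A, a t + C ≤ y) := by
    intro i hi
    induction i, hi using Nat.le_induction with
    | base => exact fun _ => ⟨A0, hA0, inter_eq_left.2 hA0, hx, hy⟩
    | succ i hi ih =>
      intro hik
      obtain ⟨A, h1, h2, h3, h4⟩ := ih (by omega)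
      have h5 := hC i hi (by omega)
      have h6 : ∑ t ∈ range i \ A, a t + ∑ t ∈ A, a t = ∑ t ∈ range i, a t := sum_sdiff h1
      have hiA : i ∉ A := fun h => absurd (mem_range.1 (h1 h)) (lt_irrefl i)
      by_cases h7 : ∑ t ∈ A, a t + a i + C ≤ x
      · refine ⟨insert i A, ?_, ?_, Or.inr ?_, ?_⟩
        · intro t ht
          rw [mem_insert] at ht
          rw [mem_range]
          rcases ht with ht | ht
          · omega
          · have := mem_range.1 (h1 ht)
            omega
        · rw [insert_inter_of_notMem (by rw [mem_range]; omega), h2]
        · rw [sum_insert hiA]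
          omega
        · have h8 : range (i + 1) \ insert i A = range i \ A := by
            ext t
            simp only [mem_sdiff, mem_range, mem_insert, not_or]
            constructor
            · rintro ⟨h9, h10, h11⟩
              exact ⟨by omega, h11⟩
            · rintro ⟨h9, h10⟩
              exact ⟨by omega, by omega, h10⟩
          rw [h8]
          exact h4
      · have h8 : range (i + 1) \ A = insert i (range i \ A) := by
          ext t
          simp only [mem_sdiff, mem_range, mem_insert]
          constructor
          · rintro ⟨h9, h10⟩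
            by_cases h11 : t = i
            · exact Or.inl h11
            · exact Or.inr ⟨by omega, h10⟩
          · rintro (rfl | ⟨h9, h10⟩)
            · exact ⟨by omega, hiA⟩
            · exact ⟨by omega, h10⟩
        refine ⟨A, fun t ht => ?_, h2, h3, Or.inr ?_⟩
        · have := mem_range.1 (h1 ht)
          rw [mem_range]
          omega
        · rw [h8, sum_insert (by simp)]
          omega
  exact key k hi0 le_rfl

end Pool.Agent.SFG
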