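import Pool.Agent.SFG.Targets2

/-!
# SFG: a packing with slack (SFT)
-/

set_option autoImplicit false

open Finset

namespace Pool.Agent.SFG

theorem p_SFT : T_SFT := by
  intro a k x y c A hA hc hx hy
  have h1 : A.card ≤ k := by
    have := card_le_card hA
    rwa [card_range] at this
  have h2 : (range k \ A).card ≤ k := by
    have := card_le_card (sdiff_subset : range k \ A ⊆ range k)
    rwa [card_range] at this
  refine ⟨A, hA, Or.inl ⟨?_, ?_, fun h3 => ?_⟩⟩
  · rcases hx with hx | hx
    · rw [hx, sum_empty, card_empty]
      exact Nat.zero_le _
    · omega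
  · rcases hy with hy | hy
    · rw [hy, sum_empty, card_empty]
      exact Nat.zero_le _
    · omega
  · rcases hx with hx | hx
    · rw [hx, card_empty] at h3
      exact absurd h3 (by decide)
    · omega

end Pool.Agent.SFG
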