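import Pool.Agent.SFG.Targets2

/-!
# SFG: XLA (the block number for `K = 1`, lower bound)
-/

set_option autoImplicit false

open Finset

namespace Pool.Agent.SFG

open Pool.Agent.StarF (starForest ramsey)
open Pool.Agent.SFB (Con dg nc Chain Two)

namespace XLA_

lemma lb1 (a : ℕ → ℕ) {A : Finset ℕ} {t : ℕ} (ht : t ∈ A) : a t ≤ ∑ s ∈ A, a s :=
  single_le_sum (f := a) (fun _ _ => Nat.zero_le _) ht

lemma lb2 (a : ℕ → ℕ) {A : Finset ℕ} {s t : ℕ} (hs : s ∈ A) (ht : t ∈ A) (hne : s ≠ t) :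
    a s + a t ≤ ∑ u ∈ A, a u := by
  have h1 := add_sum_erase A a hs
  have h2 : a t ≤ ∑ u ∈ A.erase s, a u := lb1 a (mem_erase.2 ⟨hne.symm, ht⟩)
  omega

lemma lb3 (a : ℕ → ℕ) {A : Finset ℕ} {r s t : ℕ} (hr : r ∈ A) (hs : s ∈ A) (ht : t ∈ A)
    (h1 : r ≠ s) (h2 : r ≠ t) (h3 : s ≠ t) : a r + a s + a t ≤ ∑ u ∈ A, a u := by
  have e1 := add_sum_erase A a hr
  have e2 : a s + a t ≤ ∑ u ∈ A.erase r, a u :=
    lb2 a (mem_erase.2 ⟨h1.symm, hs⟩) (mem_erase.2 ⟨h2.symm, ht⟩) h3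
  omega

/-- a set which contains one of the two largest stars -/
lemma big (a : ℕ → ℕ) {k m : ℕ} {A : Finset ℕ} (h01 : a 1 ≤ a 0) (hm : ∀ t < k, m ≤ a t)
    (hA : A ⊆ range k) (h : 0 ∈ A ∨ 1 ∈ A) :
    a 1 ≤ ∑ t ∈ A, a t ∧ (2 ≤ A.card → a 1 + m ≤ ∑ t ∈ A, a t) := by
  rcases h with h | h
  · refine ⟨h01.trans (lb1 a h), fun h2 => ?_⟩
    obtain ⟨b, hb, hne⟩ := exists_mem_ne h2 0
    have e1 := lb2 a h hb hne.symm
    have e2 := hm b (mem_range.1 (hA hb))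
    omega
  · refine ⟨lb1 a h, fun h2 => ?_⟩
    obtain ⟨b, hb, hne⟩ := exists_mem_ne h2 1
    have e1 := lb2 a h hb hne.symm
    have e2 := hm b (mem_range.1 (hA hb))
    omega

/-- a set which contains the two largest stars -/
lemma two (a : ℕ → ℕ) {k m : ℕ} {B : Finset ℕ} (hm : ∀ t < k, m ≤ a t)
    (hB : B ⊆ range k) (h0 : 0 ∈ B) (h1 : 1 ∈ B) :
    2 ≤ B.card ∧ a 0 + a 1 ≤ ∑ t ∈ B, a t ∧ (3 ≤ B.card → a 0 + a 1 + m ≤ ∑ t ∈ B, a t) := by
  have hc : (B.erase 0).card + 1 = B.card := card_erase_add_one h0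
  have h1' : 1 ∈ B.erase 0 := mem_erase.2 ⟨by decide, h1⟩
  have hp : 0 < (B.erase 0).card := card_pos.2 ⟨1, h1'⟩
  refine ⟨by omega, lb2 a h0 h1 (by decide), fun h3 => ?_⟩
  obtain ⟨b, hb, hne⟩ := exists_mem_ne (show 1 < (B.erase 0).card by omega) 1
  rw [mem_erase] at hb
  have e1 := lb3 a h0 h1 hb.2 (by decide) hb.1.symm hne.symm
  have e2 := hm b (mem_range.1 (hB hb.2))
  omega

/-- parity -/
lemma par {k f c x A1 : ℕ} (hk : 3 ≤ k)
    (hf : f = k / 2 - (if k % 4 = 2 ∧ A1 % 2 = 0 then 1 else 0)) (hc : c = f - 2)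
    (hx : x = A1 + c) : 1 ≤ f ∧ 2 * f ≤ k ∧ f + c + x * c % 2 + 1 < k ∧ c + 1 < k := by
  have h1 : x * c % 2 < 2 := Nat.mod_lt _ (by decide)
  by_cases hp : k % 4 = 2 ∧ A1 % 2 = 0
  · rw [if_pos hp] at hf
    omega
  · rw [if_neg hp] at hf
    by_cases hodd : k % 2 = 1
    · by_cases h3 : k = 3
      · subst h3
        have hc0 : c = 0 := by omega
        subst hc0
        rw [Nat.mul_zero]
        omega
      · omega
    · have hz : x * c % 2 = 0 := by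
        by_cases h4 : k % 4 = 0
        · have hce : c % 2 = 0 := by omega
          rw [Nat.mul_mod, hce, Nat.mul_zero]
        · have hxe : x % 2 = 0 := by omega
          rw [Nat.mul_mod, hxe, Nat.zero_mul]
      omega

end XLA_

open XLA_ in
/-- XLA. -/
theorem p_XLA : T_XLA := by
  intro a k q e N h hk hN
  obtain ⟨f, hf⟩ : ∃ f, f = k / 2 - (if k % 4 = 2 ∧ a 1 % 2 = 0 then 1 else 0) := ⟨_, rfl⟩
  obtain ⟨c, hc⟩ : ∃ c, c = f - 2 := ⟨_, rfl⟩
  obtain ⟨x, hx⟩ : ∃ x, x = a 1 + c := ⟨_, rfl⟩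
  obtain ⟨m, hm0⟩ : ∃ m, m = 10 * k * el k q := ⟨_, rfl⟩
  obtain ⟨hf1, hf2, hpar, hck⟩ := par hk hf hc hx
  have hN' : N + 1 ≤ a 0 + 2 * a 1 + f := by
    have : (if k % 4 = 2 ∧ a 1 % 2 = 0 then 1 else 0) ≤ k / 2 := by
      split_ifs
      · omega
      · omega
    omega
  have hm : ∀ t < k, m ≤ a t := by
    rw [hm0]
    exact h.m1
  have hl := h.l2
  have hmk : k * k + k + 10 ≤ m := by
    rw [hm0]
    have e1 : 10 * k * (80000 * k) ≤ 10 * k * el k q := Nat.mul_le_mul_left _ hl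
    have e2 : 10 * k * (80000 * k) = 800000 * (k * k) := by ring
    have e3 : 3 * k ≤ k * k := Nat.mul_le_mul_right _ hk
    omega
  have hlo := h.lo
  rw [sum_range_succ, sum_range_one] at hlo
  have h01 : a 1 ≤ a 0 := h.anti 0 1 (by omega) (by omega)
  have hm1 := hm 1 (by omega)
  have hxN : x ≤ N := by omega
  refine ⟨x, N - x, c, by omega, hck, Or.inl (by omega), ?_⟩
  have hy : N - x + c + 1 ≤ a 0 + a 1 + f := by omega
  have hy2 : N - x ≤ a 0 + a 1 + 1 := by omega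
  have hmod : x * c % 2 < 2 := Nat.mod_lt _ (by decide)
  rintro ⟨A, hA, hcase⟩
  have hcard : (range k \ A).card + A.card = k := by
    have := card_sdiff_add_card_eq_card hA
    rwa [card_range] at this
  by_cases hmem : 0 ∈ A ∨ 1 ∈ A
  · obtain ⟨b1, b2⟩ := big a h01 hm hA hmem
    have hpos : 1 ≤ A.card := by
      rcases hmem with h0 | h0
      · exact card_pos.2 ⟨0, h0⟩
      · exact card_pos.2 ⟨1, h0⟩
    rcases hcase with ⟨c1, _, c3⟩ | ⟨z, _, _, c1, _⟩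
    · rcases Nat.eq_or_lt_of_le hpos with h1 | h1
      · have := c3 h1.symm
        omega
      · have := b2 h1
        omega
    · rcases Nat.eq_or_lt_of_le hpos with h1 | h1
      · omega
      · have := b2 h1
        omega
  · push Not at hmem
    have m0 : 0 ∈ range k \ A := mem_sdiff.2 ⟨mem_range.2 (by omega), hmem.1⟩
    have m1 : 1 ∈ range k \ A := mem_sdiff.2 ⟨mem_range.2 (by omega), hmem.2⟩
    obtain ⟨b0, b1, b2⟩ := two a hm sdiff_subset m0 m1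
    rcases hcase with ⟨_, c2, _⟩ | ⟨z, hz, _, _, c2⟩
    · omega
    · rcases Nat.eq_or_lt_of_le b0 with h1 | h1
      · rw [← h1] at hz
        omega
      · have h2 := b2 h1
        have h3 : (range k \ A).card * c ≤ k * k := Nat.mul_le_mul (by omega) (by omega)
        omega

end Pool.Agent.SFG
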