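import Pool.Agent.SFG.Targets2

/-!
# SFG: three stars, lower bound (XLB)
-/

set_option autoImplicit false

open Finset

namespace Pool.Agent.SFG

open Pool.Agent.StarF (starForest ramsey)
open Pool.Agent.SFB (Con dg nc Chain Two)

/-- The eight subsets of `range 3`, with the sums and the cardinalities of the two sides. -/
lemma XLB_cases (a : ℕ → ℕ) (A : Finset ℕ) (hA : A ⊆ range 3) :
    (∑ t ∈ A, a t = 0 ∧ A.card = 0 ∧ ∑ t ∈ range 3 \ A, a t = a 0 + a 1 + a 2 ∧
      (range 3 \ A).card = 3) ∨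
    (∑ t ∈ A, a t = a 0 ∧ A.card = 1 ∧ ∑ t ∈ range 3 \ A, a t = a 1 + a 2 ∧
      (range 3 \ A).card = 2) ∨
    (∑ t ∈ A, a t = a 1 ∧ A.card = 1 ∧ ∑ t ∈ range 3 \ A, a t = a 0 + a 2 ∧
      (range 3 \ A).card = 2) ∨
    (∑ t ∈ A, a t = a 2 ∧ A.card = 1 ∧ ∑ t ∈ range 3 \ A, a t = a 0 + a 1 ∧
      (range 3 \ A).card = 2) ∨
    (∑ t ∈ A, a t = a 0 + a 1 ∧ A.card = 2 ∧ ∑ t ∈ range 3 \ A, a t = a 2 ∧
      (range 3 \ A).card = 1) ∨
    (∑ t ∈ A, a t = a 0 + a 2 ∧ A.card = 2 ∧ ∑ t ∈ range 3 \ A, a t = a 1 ∧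
      (range 3 \ A).card = 1) ∨
    (∑ t ∈ A, a t = a 1 + a 2 ∧ A.card = 2 ∧ ∑ t ∈ range 3 \ A, a t = a 0 ∧
      (range 3 \ A).card = 1) ∨
    (∑ t ∈ A, a t = a 0 + a 1 + a 2 ∧ A.card = 3 ∧ ∑ t ∈ range 3 \ A, a t = 0 ∧
      (range 3 \ A).card = 0) := by
  have h1 : A ∈ (range 3).powerset := mem_powerset.2 hA
  have h2 : (range 3).powerset =
      {∅, {0}, {1}, {2}, {0, 1}, {0, 2}, {1, 2}, {0, 1, 2}} := by decide
  rw [h2] at h1
  simp only [mem_insert, mem_singleton] at h1
  rcases h1 with h | h | h | h | h | h | h | h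
  · left
    have h3 : range 3 \ A = {0, 1, 2} := by rw [h]; decide
    rw [h3, h]
    refine ⟨by simp, by simp, ?_, by simp⟩
    rw [sum_insert (by decide), sum_insert (by decide), sum_singleton]
    ring
  · right; left
    have h3 : range 3 \ A = {1, 2} := by rw [h]; decide
    rw [h3, h]
    exact ⟨by simp, by simp, by simp, by simp⟩
  · right; right; left
    have h3 : range 3 \ A = {0, 2} := by rw [h]; decide
    rw [h3, h]
    exact ⟨by simp, by simp, by simp, by simp⟩
  · right; right; right; left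
    have h3 : range 3 \ A = {0, 1} := by rw [h]; decide
    rw [h3, h]
    exact ⟨by simp, by simp, by simp, by simp⟩
  · right; right; right; right; left
    have h3 : range 3 \ A = {2} := by rw [h]; decide
    rw [h3, h]
    exact ⟨by simp, by simp, by simp, by simp⟩
  · right; right; right; right; right; left
    have h3 : range 3 \ A = {1} := by rw [h]; decide
    rw [h3, h]
    exact ⟨by simp, by simp, by simp, by simp⟩
  · right; right; right; right; right; right; left
    have h3 : range 3 \ A = {0} := by rw [h]; decide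
    rw [h3, h]
    exact ⟨by simp, by simp, by simp, by simp⟩
  · right; right; right; right; right; right; right
    have h3 : range 3 \ A = ∅ := by rw [h]; decide
    rw [h3, h]
    refine ⟨?_, by simp, by simp, by simp⟩
    rw [sum_insert (by decide), sum_insert (by decide), sum_singleton]
    ring

theorem p_XLB : T_XLB := by
  intro a q e N hp hN h
  have h01 : a 1 ≤ a 0 := hp.anti 0 1 (by omega) (by omega)
  have h12 : a 2 ≤ a 1 := hp.anti 1 2 (by omega) (by omega)
  have h2 : 1 ≤ a 2 := by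
    have h4 := hp.aK
    have h5 := hp.epos
    omega
  refine ⟨a 0 + a 2, a 1 + a 2, 0, by omega, by omega, Or.inr rfl, ?_⟩
  rintro ⟨A, hA, h5 | ⟨z, hz, -, h6, h7⟩⟩
  · obtain ⟨h6, h7, -⟩ := h5
    rcases XLB_cases a A hA with h8 | h8 | h8 | h8 | h8 | h8 | h8 | h8 <;>
    · obtain ⟨h9, h10, h11, h12⟩ := h8
      rw [h9, h10] at h6
      rw [h11, h12] at h7
      omega
  · have hz0 : z = 0 := by
      rw [mul_zero, mul_zero] at hz
      omega
    subst hz0
    rcases XLB_cases a A hA with h8 | h8 | h8 | h8 | h8 | h8 | h8 | h8 <;>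
    · obtain ⟨h9, h10, h11, h12⟩ := h8
      rw [h9, h12] at h6
      rw [h10, h11] at h7
      omega

end Pool.Agent.SFG
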