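import Pool.Agent.SFG.Targets2

/-!
# SFG XUA: block number for `K = 1`, upper bound (MP_705b7e_co)
-/

set_option autoImplicit false

open Finset

namespace Pool.Agent.SFG

open Pool.Agent.StarF (starForest ramsey)
open Pool.Agent.SFB (Con dg nc Chain Two)

namespace XUA_

/-- the stars after the first two -/
def E (k : ℕ) : Finset ℕ := range k \ {0, 1}

theorem E_sub (k : ℕ) : E k ⊆ range k := sdiff_subset

theorem p01_sub {k : ℕ} (hk : 3 ≤ k) : ({0, 1} : Finset ℕ) ⊆ range k := by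
  intro t ht
  rw [mem_insert, mem_singleton] at ht
  rw [mem_range]
  omega

theorem E_card {k : ℕ} (hk : 3 ≤ k) : (E k).card = k - 2 := by
  unfold E
  rw [card_sdiff_of_subset (p01_sub hk), card_range]
  rfl

theorem p_card : ({0, 1} : Finset ℕ).card = 2 := rfl

theorem p_sum (a : ℕ → ℕ) : ∑ t ∈ ({0, 1} : Finset ℕ), a t = a 0 + a 1 :=
  sum_pair (by norm_num)

theorem all_sum (a : ℕ → ℕ) {k : ℕ} (hk : 3 ≤ k) :
    ∑ t ∈ range k, a t = a 0 + a 1 + ∑ t ∈ E k, a t := by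
  rw [← p_sum a, add_comm]
  exact (sum_sdiff (p01_sub hk)).symm

theorem E_compl {k : ℕ} (hk : 3 ≤ k) : range k \ E k = {0, 1} := by
  unfold E
  rw [sdiff_sdiff_right_self]
  exact inf_eq_right.2 (p01_sub hk)

theorem one_sub {k : ℕ} (hk : 3 ≤ k) : ({1} : Finset ℕ) ⊆ range k := by
  intro t ht
  rw [mem_singleton] at ht
  rw [mem_range]
  omega

theorem one_compl_card {k : ℕ} (hk : 3 ≤ k) : (range k \ {1}).card = k - 1 := by
  rw [card_sdiff_of_subset (one_sub hk), card_range]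
  rfl

theorem one_compl_sum (a : ℕ → ℕ) {k : ℕ} (hk : 3 ≤ k) :
    ∑ t ∈ range k \ {1}, a t = a 0 + ∑ t ∈ E k, a t := by
  have h1 := sum_sdiff (one_sub hk) (f := a)
  rw [all_sum a hk, sum_singleton] at h1
  omega

theorem cc {k : ℕ} {A : Finset ℕ} (h : A ⊆ range k) : range k \ (range k \ A) = A := by
  rw [sdiff_sdiff_right_self]
  exact inf_eq_right.2 h

section
variable {a : ℕ → ℕ} {k x y c : ℕ}

theorem RE (hk : 3 ≤ k) (h1 : ∑ t ∈ E k, a t + (k - 2) ≤ x) (h2 : a 0 + a 1 + 2 ≤ y)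
    (h3 : ∑ t ∈ E k, a t + 1 + c ≤ x) : pf a k x y c := by
  refine ⟨E k, E_sub k, Or.inl ?_⟩
  rw [E_compl hk, E_card hk, p_sum, p_card]
  exact ⟨h1, h2, fun _ => h3⟩

theorem R1 (hk : 3 ≤ k) (h1 : a 1 + 1 + c ≤ x) (h2 : a 0 + ∑ t ∈ E k, a t + (k - 1) ≤ y) :
    pf a k x y c := by
  refine ⟨{1}, one_sub hk, Or.inl ?_⟩
  rw [one_compl_card hk, one_compl_sum a hk, sum_singleton, card_singleton]
  exact ⟨by omega, h2, fun _ => h1⟩

theorem R01 (hk : 3 ≤ k) (h1 : a 0 + a 1 + 2 ≤ x) (h2 : ∑ t ∈ E k, a t + (k - 2) ≤ y) :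
    pf a k x y c := by
  refine ⟨{0, 1}, p01_sub hk, Or.inl ?_⟩
  rw [p_sum, p_card]
  change _ ∧ ∑ t ∈ E k, a t + (E k).card ≤ y ∧ _
  rw [E_card hk]
  exact ⟨h1, h2, fun h => absurd h (by norm_num)⟩

theorem Rc1 (hk : 3 ≤ k) (h1 : a 0 + ∑ t ∈ E k, a t + (k - 1) ≤ x) (h2 : a 1 + 1 ≤ y) :
    pf a k x y c := by
  refine ⟨range k \ {1}, sdiff_subset, Or.inl ?_⟩
  rw [cc (one_sub hk), one_compl_card hk, one_compl_sum a hk, sum_singleton, card_singleton]
  exact ⟨h1, h2, fun h => by omega⟩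

theorem B1 (hk : 3 ≤ k) (h1 : a 1 + (k - 1) ≤ x) (h2 : a 0 + ∑ t ∈ E k, a t + 1 ≤ y) :
    pf a k x y c := by
  refine ⟨{1}, one_sub hk, Or.inr ⟨0, Nat.zero_le _, fun _ => rfl, ?_⟩⟩
  rw [one_compl_card hk, one_compl_sum a hk, sum_singleton, card_singleton]
  exact ⟨h1, h2⟩

theorem BE (hk : 3 ≤ k) (z : ℕ) (hz : z ≤ 2 * c + x * c % 2)
    (h1 : ∑ t ∈ E k, a t + 2 + z ≤ x) (h2 : a 0 + a 1 + (k - 2) ≤ y + z) :
    pf a k x y c := by
  refine ⟨E k, E_sub k, Or.inr ⟨z, ?_, ?_, ?_⟩⟩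
  · rw [E_compl hk, p_card]
    exact hz
  · intro h
    rw [E_compl hk] at h
    exact absurd h (by decide)
  · rw [E_compl hk, E_card hk, p_sum, p_card]
    exact ⟨h1, h2⟩

theorem B01 (hk : 3 ≤ k) (h1 : a 0 + a 1 + (k - 2) ≤ x) (h2 : ∑ t ∈ E k, a t + 2 ≤ y) :
    pf a k x y c := by
  refine ⟨{0, 1}, p01_sub hk, Or.inr ⟨0, Nat.zero_le _, fun _ => rfl, ?_⟩⟩
  rw [p_sum, p_card]
  change _ + (E k).card + _ ≤ _ ∧ ∑ t ∈ E k, a t + _ ≤ _
  rw [E_card hk]
  exact ⟨h1, h2⟩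

theorem pack (hPCK : T_PCK) (hSFT : T_SFT) {q e N : ℕ} (h : Par a k 1 q e N) (hk : 3 ≤ k)
    (he : 1000 * k ≤ e) (hxy : x + y = N) (hc : c + 1 < k) (A0 : Finset ℕ) (hA0 : A0 ⊆ range 2)
    (h1 : A0 = ∅ ∨ ∑ t ∈ A0, a t + 2 * k ≤ x)
    (h2 : range 2 \ A0 = ∅ ∨ ∑ t ∈ range 2 \ A0, a t + 2 * k ≤ y) : pf a k x y c := by
  obtain ⟨A, hA, _, hA2, hA3⟩ := hPCK a k 2 (2 * k) x y A0 (by omega) hA0 h1 h2 (by
    intro i hi1 hi2
    have := h.gap' hi2 (by omega)
    omega)
  exact hSFT a k x y c A hA (by omega) hA2 hA3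

end

end XUA_

open XUA_ in
theorem p_XUA (hPCK : T_PCK) (hSFT : T_SFT) : T_XUA := by
  intro a k q e N h hk hN x y c hxy hc
  have g1 := h.pre
  have g2 := h.all
  rw [all_sum a hk] at g2
  have g3 := h.gap' (i := 0) (by omega) (by omega)
  rw [range_zero, sum_empty] at g3
  have he : 1000 * k ≤ e := by
    have := h.e1
    have := h.l2
    omega
  simp only [Nat.sub_self] at g1
  generalize hS : ∑ t ∈ E k, a t = S at g2
  have hpar : x % 2 = 1 → c % 2 = 1 → x * c % 2 = 1 := by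
    intro h1 h2
    rw [Nat.mul_mod, h1, h2]
  have hr2 : range 2 = ({0, 1} : Finset ℕ) := rfl
  by_contra hcon
  rcases Nat.lt_or_ge y x with hlt | hge
  · have d1 : y < a 1 + 2 * k := by
      by_contra hd
      refine hcon (pack hPCK hSFT h hk he hxy hc {0} (by decide) (Or.inr ?_) (Or.inr ?_))
      · rw [sum_singleton]; omega
      · have : range 2 \ {0} = ({1} : Finset ℕ) := by decide
        rw [this, sum_singleton]; omega
    have d2 : x < a 0 + a 1 + 2 * k := by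
      by_contra hd
      refine hcon (pack hPCK hSFT h hk he hxy hc {0, 1} (by decide) (Or.inr ?_) (Or.inl ?_))
      · rw [p_sum]; omega
      · decide
    have d3 : x < a 0 + a 1 + 2 := by
      by_contra hd
      refine hcon (R01 hk (by omega) ?_)
      rw [hS]
      split_ifs at hN <;> omega
    have d4 : y < a 1 + 1 := by
      by_contra hd
      refine hcon (Rc1 hk ?_ (by omega))
      rw [hS]
      split_ifs at hN <;> omega
    refine hcon (B01 hk ?_ ?_)
    · split_ifs at hN <;> omega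
    · rw [hS]
      split_ifs at hN <;> omega
  · have d1 : x < a 1 + 2 * k := by
      by_contra hd
      refine hcon (pack hPCK hSFT h hk he hxy hc {1} (by decide) (Or.inr ?_) (Or.inr ?_))
      · rw [sum_singleton]; omega
      · have : range 2 \ {1} = ({0} : Finset ℕ) := by decide
        rw [this, sum_singleton]; omega
    have d2 : y < a 0 + a 1 + 2 * k := by
      by_contra hd
      refine hcon (pack hPCK hSFT h hk he hxy hc ∅ (by decide) (Or.inl rfl) (Or.inr ?_))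
      rw [sdiff_empty, hr2, p_sum]; omega
    have d3 : y < a 0 + a 1 + 2 := by
      by_contra hd
      refine hcon (RE hk ?_ (by omega) ?_)
      · rw [hS]
        split_ifs at hN <;> omega
      · rw [hS]
        split_ifs at hN <;> omega
    have d4 : x < a 1 + 1 + c := by
      by_contra hd
      refine hcon (R1 hk (by omega) ?_)
      rw [hS]
      split_ifs at hN <;> omega
    have d5 : x < a 1 + (k - 1) := by
      by_contra hd
      refine hcon (B1 hk (by omega) ?_)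
      rw [hS]
      split_ifs at hN <;> omega
    have d6 : 2 * c + x * c % 2 < a 0 + a 1 + (k - 2) - y := by
      by_contra hd
      refine hcon (BE hk (a 0 + a 1 + (k - 2) - y) (by omega) ?_ (by omega))
      rw [hS]
      split_ifs at hN <;> omega
    generalize x * c % 2 = ε at hpar d6
    split_ifs at hN <;> omega

end Pool.Agent.SFG
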