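import Pool.Agent.SFG.Targets2

/-!
# SFG-XUB: three stars, `K = 2`, upper bound (MP_705b7e_co)
-/

set_option autoImplicit false

open Finset

namespace Pool.Agent.SFG

open Pool.Agent.StarF (starForest ramsey)
open Pool.Agent.SFB (Con dg nc Chain Two)

namespace XUB_

/-- The first alternative. -/
theorem ofR {a : ℕ → ℕ} {x y c : ℕ} (A B : Finset ℕ) (hA : A ⊆ range 3)
    (hB : range 3 \ A = B) (h1 : ∑ t ∈ A, a t + A.card ≤ x) (h2 : ∑ t ∈ B, a t + B.card ≤ y)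
    (h3 : A.card = 1 → ∑ t ∈ A, a t + 1 + c ≤ x) : pf a 3 x y c := by
  subst hB
  exact ⟨A, hA, Or.inl ⟨h1, h2, h3⟩⟩

/-- The second alternative. -/
theorem ofB {a : ℕ → ℕ} {x y c : ℕ} (A B : Finset ℕ) (hA : A ⊆ range 3)
    (hB : range 3 \ A = B) (z : ℕ) (hz : z ≤ B.card * c) (hz0 : B = ∅ → z = 0)
    (h1 : ∑ t ∈ A, a t + B.card + z ≤ x) (h2 : ∑ t ∈ B, a t + A.card ≤ y + z) :
    pf a 3 x y c := by
  subst hB
  exact ⟨A, hA, Or.inr ⟨z, hz.trans (Nat.le_add_right _ _), hz0, h1, h2⟩⟩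

section

variable {a : ℕ → ℕ} {x y c : ℕ}

theorem s3 : ∑ t ∈ ({0, 1, 2} : Finset ℕ), a t = a 0 + a 1 + a 2 := by
  rw [sum_insert (by decide), sum_pair (by decide)]
  ring

theorem s01 : ∑ t ∈ ({0, 1} : Finset ℕ), a t = a 0 + a 1 := sum_pair (by decide)
theorem s02 : ∑ t ∈ ({0, 2} : Finset ℕ), a t = a 0 + a 2 := sum_pair (by decide)
theorem s12 : ∑ t ∈ ({1, 2} : Finset ℕ), a t = a 1 + a 2 := sum_pair (by decide)

theorem R_ (h2 : a 0 + a 1 + a 2 + 3 ≤ y) : pf a 3 x y c :=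
  ofR ∅ {0, 1, 2} (by decide) (by decide) (by simp) (by rw [s3]; simpa using h2)
    (by simp)

theorem B_ (z : ℕ) (hz : z ≤ 3 * c) (h1 : 3 + z ≤ x) (h2 : a 0 + a 1 + a 2 ≤ y + z) :
    pf a 3 x y c :=
  ofB ∅ {0, 1, 2} (by decide) (by decide) z (by simpa using hz) (by simp)
    (by simpa using h1) (by rw [s3]; simpa using h2)

theorem R2 (h1 : a 2 + 1 + c ≤ x) (h2 : a 0 + a 1 + 2 ≤ y) : pf a 3 x y c :=
  ofR {2} {0, 1} (by decide) (by decide) (by rw [sum_singleton, card_singleton]; omega)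
    (by rw [s01]; simpa using h2) (fun _ => by rw [sum_singleton]; exact h1)

theorem R1 (h1 : a 1 + 1 + c ≤ x) (h2 : a 0 + a 2 + 2 ≤ y) : pf a 3 x y c :=
  ofR {1} {0, 2} (by decide) (by decide) (by rw [sum_singleton, card_singleton]; omega)
    (by rw [s02]; simpa using h2) (fun _ => by rw [sum_singleton]; exact h1)

theorem R0 (h1 : a 0 + 1 + c ≤ x) (h2 : a 1 + a 2 + 2 ≤ y) : pf a 3 x y c :=
  ofR {0} {1, 2} (by decide) (by decide) (by rw [sum_singleton, card_singleton]; omega)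
    (by rw [s12]; simpa using h2) (fun _ => by rw [sum_singleton]; exact h1)

theorem B1 (z : ℕ) (hz : z ≤ 2 * c) (h1 : a 1 + 2 + z ≤ x) (h2 : a 0 + a 2 + 1 ≤ y + z) :
    pf a 3 x y c :=
  ofB {1} {0, 2} (by decide) (by decide) z (by simpa using hz)
    (fun h => absurd h (by decide)) (by rw [sum_singleton]; simpa using h1)
    (by rw [s02]; simpa using h2)

theorem B0 (z : ℕ) (hz : z ≤ 2 * c) (h1 : a 0 + 2 + z ≤ x) (h2 : a 1 + a 2 + 1 ≤ y + z) :
    pf a 3 x y c :=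
  ofB {0} {1, 2} (by decide) (by decide) z (by simpa using hz)
    (fun h => absurd h (by decide)) (by rw [sum_singleton]; simpa using h1)
    (by rw [s12]; simpa using h2)

theorem R12 (h1 : a 1 + a 2 + 2 ≤ x) (h2 : a 0 + 1 ≤ y) : pf a 3 x y c :=
  ofR {1, 2} {0} (by decide) (by decide) (by rw [s12]; simpa using h1)
    (by rw [sum_singleton]; simpa using h2) (fun h => absurd h (by decide))

theorem R02 (h1 : a 0 + a 2 + 2 ≤ x) (h2 : a 1 + 1 ≤ y) : pf a 3 x y c :=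
  ofR {0, 2} {1} (by decide) (by decide) (by rw [s02]; simpa using h1)
    (by rw [sum_singleton]; simpa using h2) (fun h => absurd h (by decide))

theorem R01 (h1 : a 0 + a 1 + 2 ≤ x) (h2 : a 2 + 1 ≤ y) : pf a 3 x y c :=
  ofR {0, 1} {2} (by decide) (by decide) (by rw [s01]; simpa using h1)
    (by rw [sum_singleton]; simpa using h2) (fun h => absurd h (by decide))

theorem B12 (h1 : a 1 + a 2 + 1 ≤ x) (h2 : a 0 + 2 ≤ y) : pf a 3 x y c :=
  ofB {1, 2} {0} (by decide) (by decide) 0 (Nat.zero_le _) (fun _ => rfl)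
    (by rw [s12]; simpa using h1) (by rw [sum_singleton]; simpa using h2)

theorem B02 (h1 : a 0 + a 2 + 1 ≤ x) (h2 : a 1 + 2 ≤ y) : pf a 3 x y c :=
  ofB {0, 2} {1} (by decide) (by decide) 0 (Nat.zero_le _) (fun _ => rfl)
    (by rw [s02]; simpa using h1) (by rw [sum_singleton]; simpa using h2)

theorem R012 (h1 : a 0 + a 1 + a 2 + 3 ≤ x) : pf a 3 x y c :=
  ofR {0, 1, 2} ∅ (by decide) (by decide) (by rw [s3]; simpa using h1) (by simp)
    (fun h => absurd h (by decide))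

theorem B012 (h1 : a 0 + a 1 + a 2 ≤ x) (h2 : 3 ≤ y) : pf a 3 x y c :=
  ofB {0, 1, 2} ∅ (by decide) (by decide) 0 (Nat.zero_le _) (fun _ => rfl)
    (by rw [s3]; simpa using h1) (by simpa using h2)

end

/-- The inequalities between the sizes. -/
theorem main {a : ℕ → ℕ} {x y c e f : ℕ} (h01 : a 1 ≤ a 0) (h12 : a 2 ≤ a 1)
    (g0 : a 0 + 4 * e ≤ a 1 + 2 * a 2) (g1 : a 1 + 4 * e ≤ 2 * a 2) (he : 10 ≤ e)
    (hf : f ≤ 1) (hf0 : f = 0 → a 1 < a 0 ∧ a 0 < a 1 + a 2)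
    (hN : x + y = a 0 + a 1 + 2 * a 2 + f) (hc : c ≤ 1) : pf a 3 x y c := by
  rcases Nat.lt_or_ge (a 2 + f) (x + 3) with h1 | h1
  swap
  · exact R_ (by omega)
  rcases Nat.lt_or_ge (a 2 + f + 3 * c) x with h2 | h2
  swap
  · exact B_ (x - (a 2 + f)) (by omega) (by omega) (by omega)
  rcases Nat.lt_or_ge (2 * a 2 + f) (x + 2) with h3 | h3
  swap
  · exact R2 (by omega) (by omega)
  rcases Nat.lt_or_ge (a 1 + a 2 + f) (x + 2) with h4 | h4
  swap
  · exact R1 (by omega) (by omega)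
  rcases Nat.lt_or_ge (a 1 + a 2 + f + 2 * c) (x + 1) with h5 | h5
  swap
  · exact B1 (x + 1 - (a 1 + a 2 + f)) (by omega) (by omega) (by omega)
  rcases Nat.lt_or_ge x (a 1 + a 2 + 1) with h6 | h6
  · have h7 : f = 0 := by omega
    obtain ⟨h8, h9⟩ := hf0 h7
    rcases Nat.lt_or_ge (a 0) (a 1 + 2) with h10 | h10
    · exact B0 0 (Nat.zero_le _) (by omega) (by omega)
    · exact R0 (by omega) (by omega)
  rcases Nat.lt_or_ge x (a 1 + a 2 + 2) with h7 | h7
  · exact B12 (by omega) (by omega)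
  rcases Nat.lt_or_ge (a 1 + 2 * a 2 + f) (x + 1) with h8 | h8
  swap
  · exact R12 (by omega) (by omega)
  rcases Nat.lt_or_ge (a 0 + a 2 + f) (x + 2) with h9 | h9
  swap
  · exact R0 (by omega) (by omega)
  rcases Nat.lt_or_ge (a 0 + a 2 + f + 2 * c) (x + 1) with h10 | h10
  swap
  · exact B0 (x + 1 - (a 0 + a 2 + f)) (by omega) (by omega) (by omega)
  rcases Nat.lt_or_ge x (a 0 + a 2 + 1) with h11 | h11
  · have h12 : f = 0 := by omega
    obtain ⟨h13, h14⟩ := hf0 h12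
    omega
  rcases Nat.lt_or_ge x (a 0 + a 2 + 2) with h12 | h12
  · exact B02 (by omega) (by omega)
  rcases Nat.lt_or_ge (a 0 + 2 * a 2 + f) (x + 1) with h13 | h13
  swap
  · exact R02 (by omega) (by omega)
  rcases Nat.lt_or_ge (a 0 + a 1 + a 2 + f) (x + 1) with h14 | h14
  swap
  · exact R01 (by omega) (by omega)
  rcases Nat.lt_or_ge y 3 with h15 | h15
  · exact R012 (by omega)
  · exact B012 (by omega) h15

end XUB_

theorem p_XUB : T_XUB := by
  intro a q e N h hN x y c hxy hc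
  have h01 : a 1 ≤ a 0 := h.anti 0 1 (by omega) (by omega)
  have h12 : a 2 ≤ a 1 := h.anti 1 2 (by omega) (by omega)
  have g0 := h.gap 0 (by omega) (by omega)
  have g1 := h.gap 1 (by omega) (by omega)
  simp only [sum_range_succ, range_zero, sum_empty, zero_add] at g0 g1
  have he : 10 ≤ e := by
    have h1 := h.e1
    have h2 := h.l2
    omega
  refine XUB_.main (e := e) (f := if a 0 = a 1 ∨ a 1 + a 2 ≤ a 0 then 1 else 0) h01 h12
    (by omega) (by omega) he (by split_ifs <;> omega) ?_ (hxy.trans hN) (by omega)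
  intro hf
  split_ifs at hf with h1
  · omega

end Pool.Agent.SFG
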