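import Pool.Agent.SFG.Assemble
import Pool.Agent.SFG.Final
import Pool.Agent.SFG.P_PCK
import Pool.Agent.SFG.P_SFT
import Pool.Agent.SFG.P_XUA
import Pool.Agent.SFG.P_XLA
import Pool.Agent.SFG.P_XUB
import Pool.Agent.SFG.P_XLB

/-!
# SFG: the theorem
-/

set_option autoImplicit false

open Finset

namespace Pool.Agent.SFG

open Pool.Agent.StarF (starForest ramsey)

theorem all_final (k : ℕ) (δ : ℝ) (hδ : 0 < δ) :
    ∃ n₀ : ℕ, ∀ n : Fin k → ℕ, Antitone n → (∀ i, n₀ ≤ n i) → ∀ j : Fin k, 0 < (j : ℕ) →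
      (∀ i, i ≠ j → (1 + δ) * ((n i + ∑ l ∈ Iic i, n l : ℕ) : ℝ) ≤
        ((n j + ∑ l ∈ Iic j, n l : ℕ) : ℝ)) →
      ramsey (starForest n) (starForest n) =
        sInf {N : ℕ | ∀ x y c : ℕ, x + y = N → c + 1 < k → (c < x ∨ c = 0) → PF n x y c} ∧
      (3 ≤ k → (j : ℕ) = 1 → ramsey (starForest n) (starForest n) =
        n j + ∑ l ∈ Iic j, n l + k / 2 - (if k % 4 = 2 ∧ n j % 2 = 0 then 1 else 0)) ∧
      (∀ h : k = 3, (j : ℕ) = 2 → ramsey (starForest n) (starForest n) =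
        n j + ∑ l ∈ Iic j, n l + (if n ⟨0, by omega⟩ = n ⟨1, by omega⟩ ∨
          n ⟨1, by omega⟩ + n ⟨2, by omega⟩ ≤ n ⟨0, by omega⟩ then 1 else 0)) ∧
      ((∀ i, n i = n j) → ramsey (starForest n) (starForest n) = (k + 1) * n j + k - 2) := by
  rcases Nat.lt_or_ge k 2 with hk | hk
  · refine ⟨0, ?_⟩
    intro n _ _ j hj
    have := j.2
    omega
  obtain ⟨n₀, h0⟩ := final a_BVL p_CNV p_LOB (p_XUA p_PCK p_SFT) p_XLA p_XUB p_XLB k δ hδ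
  obtain ⟨n₁, h1⟩ := Pool.Agent.SFB.all_final k hk 1 one_pos
  refine ⟨n₀ + n₁, ?_⟩
  intro n hn hbig j hj hgap
  obtain ⟨g1, g2, g3⟩ := h0 n hn (fun i => by have := hbig i; omega) j hj hgap
  refine ⟨g1, g2, g3, ?_⟩
  intro heq
  have g4 := (h1 n hn (by have := hbig ⟨k - 1, by omega⟩; omega)
    (by rw [heq ⟨0, by omega⟩, heq ⟨k - 1, by omega⟩]; linarith)).2.2.2
    (by rw [heq ⟨0, by omega⟩, heq ⟨k - 1, by omega⟩])
  rw [heq ⟨k - 1, by omega⟩] at g4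
  exact g4

end Pool.Agent.SFG
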