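import Pool.Agent.SFB.Defs

/-!
# SFG: exact diagonal Ramsey numbers of star forests outside near ties (MP_705b7e_co): definitions

`k` stars with the sizes `a 0 ≥ .. ≥ a (k - 1)`; `K` is the critical index, `1 ≤ K < k`. The
notions `Con`, `dg`, `nc`, `Chain`, `Two` are those of `Pool.Agent.SFB`.
-/

set_option autoImplicit false

open Finset

namespace Pool.Agent.SFG

open Pool.Agent.StarF (starForest ramsey)
open Pool.Agent.SFB (Con dg nc Chain Two)

section

variable {V : Type} [Fintype V]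

/-- `P` is a probability distribution on `Y`, no point has probability more than `1 / L`, and every
point of `X` is covered with probability at least one half. -/
structure Cov (G : SimpleGraph V) (Y X : Finset V) (L : ℕ) (P : V → ℝ) : Prop where
  nn : ∀ v, 0 ≤ P v
  sp : ∀ v, v ∉ Y → P v = 0
  one : ∑ v, P v = 1
  low : ∀ v, L * P v ≤ 1
  cov : ∀ w ∈ X, 1 - P w ≤ 2 * ∑ v ∈ dg G w, P v

end

section

variable {V : Type} [Fintype V] [DecidableEq V]

/-- The oracle for the star `i`: outside every set `U` of at most `k` vertices some vertex has at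
least `a i + k` neighbours in `W`, if `W` misses at most `a 0 + .. + a (i - 1)` vertices. -/
def Orc (G : SimpleGraph V) (a : ℕ → ℕ) (k i : ℕ) : Prop :=
  ∀ U W : Finset V, U.card ≤ k → Fintype.card V ≤ W.card + ∑ t ∈ range i, a t →
    ∃ u, u ∉ U ∧ a i + k ≤ (dg G u ∩ W).card

/-- The vertex `v` with the index set `J` violates Hall's condition with surplus `k`. -/
def Vio (G : SimpleGraph V) (a : ℕ → ℕ) (k K : ℕ) (c : ℕ → V) (v : V) (J : Finset ℕ) : Prop :=
  J ⊆ range K ∧ (dg G v ∪ nc G c J).card ≤ ∑ t ∈ J, a t + a K + k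

/-- A system of disjoint sets of leaves for the centres `c t`, `t < K`, which avoid the set `E`. -/
structure Sys (G : SimpleGraph V) (a : ℕ → ℕ) (K : ℕ) (c : ℕ → V) (E : Finset V)
    (D : ℕ → Finset V) : Prop where
  sub : ∀ t < K, D t ⊆ dg G (c t)
  avE : ∀ t < K, Disjoint (D t) E
  crd : ∀ t < K, (D t).card = a t
  dsj : ∀ s < K, ∀ t < K, s ≠ t → Disjoint (D s) (D t)

/-- The points outside the system. -/
def Out (K : ℕ) (D : ℕ → Finset V) : Finset V := univ \ (range K).biUnion D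

/-- The type of a colour class (see T_COL). -/
structure Typ (G : SimpleGraph V) (a : ℕ → ℕ) (k K L M : ℕ) (X0 : Finset V)
    (J1 J2 : Finset ℕ) : Prop where
  dsj : Disjoint J1 J2
  uni : J1 ∪ J2 = range K
  lo1 : ∑ t ∈ J1, a t + a K ≤ X0.card + 2 * L
  up1 : X0.card ≤ ∑ t ∈ J1, a t + a K + 2 * L
  lo2 : ∑ t ∈ J2, a t + a K ≤ (X0ᶜ).card + 2 * L
  up2 : (X0ᶜ).card ≤ ∑ t ∈ J2, a t + a K + 2 * L
  T1 : k + 2 ≤ (univ.filter (fun v => (symmDiff (dg G v) X0).card ≤ M)).card
  T2 : k + 2 ≤ (univ.filter (fun v => (symmDiff (dg G v) X0ᶜ).card ≤ M)).card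

/-- The star `t` fits into `X`, but not with the slack `k + l`, and no smaller star has this
property. -/
structure Tig (a : ℕ → ℕ) (k l t : ℕ) (X : Finset V) : Prop where
  lt : t < k
  lo : a t + 1 ≤ X.card
  up : X.card < a t + k + l
  min : ∀ u < k, a u < a t → a u + k + l ≤ X.card

end

/-- The bound for exceptional sets. -/
def LL (k q : ℕ) : ℕ := 400 * k * q ^ 3

/-- The bound for exceptional sets in the two block structure. -/
def el (k q : ℕ) : ℕ := 200 * LL k q

/-- `k` stars of sizes `a 0, .., a (k - 1)` with the critical index `K` in a graph with `N`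
vertices; `e` is the slack. -/
structure Par (a : ℕ → ℕ) (k K q e N : ℕ) : Prop where
  hK : 1 ≤ K
  hk : K < k
  anti : ∀ s t, s ≤ t → t < k → a t ≤ a s
  gap : ∀ i < k, i ≠ K →
    ∑ t ∈ range (i + 1), a t + a i + 4 * e ≤ ∑ t ∈ range (K + 1), a t + a K
  big : 10 * (el k q) ^ 3 ≤ e
  min : ∀ t < k, 10 * k * el k q ≤ a t
  lo : ∑ t ∈ range (K + 1), a t + a K ≤ N
  up : N ≤ q * e
  epos : 1 ≤ e

/-- The colouring with the blocks `x`, `y` (red inside the blocks, blue between them) and with a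
blue graph of degree `c` inside the first block admits the star forest with the sizes `a t`,
`t < k`. -/
def pf (a : ℕ → ℕ) (k x y c : ℕ) : Prop :=
  ∃ A ⊆ range k,
    (∑ t ∈ A, a t + A.card ≤ x ∧ ∑ t ∈ range k \ A, a t + (range k \ A).card ≤ y ∧
      (A.card = 1 → ∑ t ∈ A, a t + 1 + c ≤ x)) ∨
    ∃ z : ℕ, z ≤ (range k \ A).card * c + x * c % 2 ∧ (range k \ A = ∅ → z = 0) ∧
      ∑ t ∈ A, a t + (range k \ A).card + z ≤ x ∧ ∑ t ∈ range k \ A, a t + A.card ≤ y + z

/-- The same for sizes indexed by `Fin k`. -/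
def PF {k : ℕ} (n : Fin k → ℕ) (x y c : ℕ) : Prop :=
  ∃ A : Finset (Fin k),
    (∑ i ∈ A, n i + A.card ≤ x ∧ ∑ i ∈ Aᶜ, n i + (Aᶜ).card ≤ y ∧
      (A.card = 1 → ∑ i ∈ A, n i + 1 + c ≤ x)) ∨
    ∃ z : ℕ, z ≤ (Aᶜ).card * c + x * c % 2 ∧ (Aᶜ = ∅ → z = 0) ∧
      ∑ i ∈ A, n i + (Aᶜ).card + z ≤ x ∧ ∑ i ∈ Aᶜ, n i + A.card ≤ y + z

/-- The red graph of the colouring: complete inside the blocks, without the edges of `H`. -/
def red {x : ℕ} (y : ℕ) (H : SimpleGraph (Fin x)) : SimpleGraph (Fin x ⊕ Fin y) :=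
  SimpleGraph.sum Hᶜ ⊤

namespace Par

variable {a : ℕ → ℕ} {k K q e N : ℕ}

lemma k2 (h : Par a k K q e N) : 2 ≤ k := by
  have h1 := h.hK
  have h2 := h.hk
  omega

/-- `a (K - 1) + 4 e ≤ 2 a K`. -/
lemma pre (h : Par a k K q e N) : a (K - 1) + 4 * e ≤ 2 * a K := by
  have h1 := h.hK
  have h2 := h.gap (K - 1) (by have := h.hk; omega) (by omega)
  rw [Nat.sub_add_cancel h1, sum_range_succ] at h2
  omega

lemma top (h : Par a k K q e N) : ∀ t ≤ K, a K ≤ a t := fun t ht => h.anti t K ht h.hk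

lemma aK (h : Par a k K q e N) : 4 * e ≤ a K := by
  have h1 := h.pre
  have h2 := h.top (K - 1) (by omega)
  omega

lemma a0 (h : Par a k K q e N) : e ≤ a 0 := by
  have h1 := h.aK
  have h2 := h.top 0 (Nat.zero_le K)
  omega

/-- The stars after the critical one. -/
lemma post (h : Par a k K q e N) :
    ∑ t ∈ range k, a t + 4 * e ≤ ∑ t ∈ range (K + 1), a t + a K := by
  have h1 := h.hk
  rcases Nat.lt_or_ge (K + 1) k with h2 | h2
  · have h3 := h.gap (k - 1) (by omega) (by omega)
    rw [Nat.sub_add_cancel (by omega)] at h3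
    omega
  · have h3 : k = K + 1 := by omega
    rw [h3]
    have h4 := h.aK
    omega

/-- All stars. -/
lemma all (h : Par a k K q e N) : ∑ t ∈ range k, a t + 4 * e ≤ N := h.post.trans h.lo

lemma gap' (h : Par a k K q e N) {i : ℕ} (hi : i < k) (hiK : i ≠ K) :
    ∑ t ∈ range i, a t + 2 * a i + 4 * e ≤ N := by
  have h1 := h.gap i hi hiK
  rw [sum_range_succ] at h1
  have h2 := h.lo
  omega

lemma lo' (h : Par a k K q e N) : ∑ t ∈ range K, a t + 2 * a K ≤ N := by
  have h1 := h.lo
  rw [sum_range_succ] at h1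
  omega

/-- Two stars. -/
lemma two (h : Par a k K q e N) {u t : ℕ} (hu : u < k) (ht : t < k) : a u + a t + 4 * e ≤ N := by
  have h1 := h.gap' (i := 0) (by omega) (by have := h.hK; omega)
  rw [range_zero, sum_empty] at h1
  have h2 := h.anti 0 u (Nat.zero_le u) hu
  have h3 := h.anti 0 t (Nat.zero_le t) ht
  omega

lemma three (h : Par a k K q e N) : 3 * a K ≤ N := by
  have h1 := h.lo'
  have h2 := h.hK
  have h3 : a (K - 1) ≤ ∑ t ∈ range K, a t :=
    single_le_sum (f := a) (fun _ _ => Nat.zero_le _) (mem_range.2 (by omega))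
  have h4 := h.top (K - 1) (by omega)
  omega

/-- The other stars, if one is removed. -/
lemma rest (h : Par a k K q e N) {t : ℕ} (ht : t < k) :
    ∑ s ∈ (range k).erase t, a s + a t + 4 * e ≤ N := by
  have h1 := h.all
  have h2 := sum_erase_add (range k) a (mem_range.2 ht)
  omega

lemma q1 (h : Par a k K q e N) : 1 ≤ q := by
  have h1 := h.all
  have h2 := h.up
  have h4 := h.epos
  rcases Nat.eq_zero_or_pos q with h5 | h5
  · rw [h5, zero_mul] at h2
    omega
  · exact h5

lemma L3 (h : Par a k K q e N) : 400 * (k * q ^ 2) ≤ LL k q := by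
  unfold LL
  have h1 := h.q1
  calc 400 * (k * q ^ 2) = 400 * k * q ^ 2 * 1 := by ring
    _ ≤ 400 * k * q ^ 2 * q := Nat.mul_le_mul_left _ h1
    _ = 400 * k * q ^ 3 := by ring

lemma L2 (h : Par a k K q e N) : 400 * (k * q) ≤ LL k q := by
  refine le_trans ?_ h.L3
  have h1 := h.q1
  calc 400 * (k * q) = 400 * (k * q) * 1 := by ring
    _ ≤ 400 * (k * q) * q := Nat.mul_le_mul_left _ h1
    _ = 400 * (k * q ^ 2) := by ring

lemma L1 (h : Par a k K q e N) : 400 * k ≤ LL k q := by
  refine le_trans ?_ h.L2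
  have h1 := h.q1
  calc 400 * k = 400 * k * 1 := by ring
    _ ≤ 400 * k * q := Nat.mul_le_mul_left _ h1
    _ = 400 * (k * q) := by ring

lemma l1 (_h : Par a k K q e N) : el k q = 200 * LL k q := rfl

lemma l2 (h : Par a k K q e N) : 80000 * k ≤ el k q := by
  have h1 := h.L1
  have h2 := h.l1
  omega

lemma e2 (h : Par a k K q e N) : 10 * (el k q * el k q) * el k q ≤ e := by
  have h1 := h.big
  calc 10 * (el k q * el k q) * el k q = 10 * (el k q) ^ 3 := by ring
    _ ≤ e := h1

lemma e1 (h : Par a k K q e N) : 400000 * el k q ≤ e := by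
  have h2 := h.l2
  have h5 := h.k2
  have h4 : 40000 ≤ el k q := by omega
  have h6 : 1 ≤ el k q := by omega
  calc 400000 * el k q = 10 * (40000 * 1) * el k q := by ring
    _ ≤ 10 * (el k q * el k q) * el k q :=
        Nat.mul_le_mul_right _ (Nat.mul_le_mul_left _ (Nat.mul_le_mul h4 h6))
    _ ≤ e := h.e2

/-- Sizes of stars. -/
lemma m1 (h : Par a k K q e N) : ∀ t < k, 10 * k * el k q ≤ a t := h.min

lemma m2 (h : Par a k K q e N) : ∀ t < k, 10 * el k q ≤ a t := by
  intro t ht
  refine le_trans ?_ (h.min t ht)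
  have h1 := h.k2
  calc 10 * el k q = 10 * 1 * el k q := by ring
    _ ≤ 10 * k * el k q := Nat.mul_le_mul_right _ (Nat.mul_le_mul_left _ (by omega))

/-- Blocks are large. -/
lemma b1 (h : Par a k K q e N) {x : ℕ} (hx : a K ≤ x + el k q) :
    k * (el k q ^ 2 + el k q + 1) + 10 * el k q ≤ x := by
  have h1 := h.aK
  have h2 := h.e2
  have h3 := h.e1
  have h4 := h.l2
  have h5 : k ≤ el k q := by omega
  have h6 : 1 ≤ el k q := by have := h.k2; omega
  have h7 : k * (el k q ^ 2 + el k q + 1) ≤ 3 * (el k q * el k q * el k q) := by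
    have h8 : el k q ≤ el k q * el k q := by
      calc el k q = el k q * 1 := (mul_one _).symm
        _ ≤ el k q * el k q := Nat.mul_le_mul_left _ h6
    have h9 : el k q ^ 2 + el k q + 1 ≤ 3 * (el k q * el k q) := by
      rw [pow_two]
      omega
    calc k * (el k q ^ 2 + el k q + 1) ≤ el k q * (3 * (el k q * el k q)) :=
          Nat.mul_le_mul h5 h9
      _ = 3 * (el k q * el k q * el k q) := by ring
  have h10 : 10 * (el k q * el k q) * el k q = 10 * (el k q * el k q * el k q) := by ring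
  omega

lemma b2 (h : Par a k K q e N) {x : ℕ} (hx : a K ≤ x + el k q) :
    el k q * (el k q + 1) + k < x := by
  have h1 := h.b1 hx
  have h2 := h.k2
  have h3 := h.l2
  have h4 : el k q * (el k q + 1) ≤ k * (el k q ^ 2 + el k q + 1) := by
    calc el k q * (el k q + 1) = 1 * (el k q ^ 2 + el k q) := by ring
      _ ≤ k * (el k q ^ 2 + el k q + 1) := Nat.mul_le_mul (by omega) (by omega)
  omega

end Par

end Pool.Agent.SFG
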