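import Pool.Agent.SFG.Targets

/-!
# SFG: proof of the target COL (one colour)
-/

set_option autoImplicit false

open Finset

namespace Pool.Agent.SFG

open Pool.Agent.StarF (starForest ramsey)
open Pool.Agent.SFB (Con dg nc Chain Two)

namespace COL_

lemma ebig {a : ℕ → ℕ} {k K q e N : ℕ} (h : Par a k K q e N) :
    11 * (k * q) + 4 * k + 4 ≤ e := by
  have h1 := h.e1
  have h2 := h.L1
  have h3 := h.l1
  have h4 := h.L2
  have h5 := h.k2
  omega

end COL_

open COL_ in
theorem p_COL (hEXT : T_EXT) (hSUR : Pool.Agent.SFB.T_SUR) (hORC : T_ORC) (hVIO : T_VIO)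
    (hSMA : T_SMA) (hSMB : T_SMB) (hTYP : T_TYP) (hSTR : T_STR) : T_COL := by
  intro V _ _ G Y X P a k K q e i c D hP hnc hcov hX hi hch hmax hcY hF1 hF2
  have he := ebig hP
  have hlo := hP.lo'
  have hk := hP.hk
  have hiK : i = K := by
    by_contra hne
    have hlt : i < K := lt_of_le_of_ne hi hne
    have h1 := hP.gap' (i := i) (by omega) hne
    obtain ⟨c', D', h3⟩ := hEXT V G Y X (k * q) P a e i (9 * (k * q)) c D hcov hX hcY hch
      (by omega)
    exact hmax hlt c' D' h3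
  subst hiK
  have hK := hP.hK
  have hq1 := hP.q1
  have hk2 := hP.k2
  have hsur := hSUR V G a e i c D hch
  have horc : ∀ j, i < j → j < k → Orc G a k j := by
    intro j hij hjk
    have h1 := hP.gap' (i := j) hjk (by omega)
    exact hORC V G Y X P a k q e j (9 * (k * q)) (by omega) hq1 hcov hX hP.up (by omega)
  have hvio : ∀ v ∈ Y, ∃ J, Vio G a k i c v J := by
    intro v hv
    refine hVIO V G a k i c v hk hch.inj ?_ horc hnc ?_
    · intro J hJ hJn
      have h1 := hsur J hJ hJn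
      omega
    · intro hv2
      obtain ⟨t, ht, htv⟩ := Finset.mem_image.1 hv2
      exact hcY t (Finset.mem_range.1 ht) (htv ▸ hv)
  choose! J hJ using hvio
  have hq1' : (1 : ℝ) ≤ (q : ℝ) := by exact_mod_cast hq1
  have hk0 : (0 : ℝ) ≤ (k : ℝ) := Nat.cast_nonneg k
  have hkq : 1 ≤ 9 * (k * q) := by
    have h1 : 0 < k * q := Nat.mul_pos (by omega) (by omega)
    omega
  have hA := hSMA V G Y X (k * q) P a k i q e (9 * (k * q)) c J hcov hX hkq hJ hsur hlo hP.up
  have hB := hSMB V G Y X (k * q) P a k i q e (9 * (k * q)) c J hcov hX hkq hJ hsur hlo hP.up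
    hK hP.a0
  have hcast : (q : ℝ) * (((9 * (k * q) : ℕ) : ℝ) + (k : ℝ)) ≤ 10 * ((k : ℝ) * (q : ℝ) ^ 2) := by
    push_cast
    nlinarith [mul_nonneg hk0 (mul_nonneg (by linarith : (0 : ℝ) ≤ (q : ℝ))
      (by linarith : (0 : ℝ) ≤ (q : ℝ) - 1))]
  have hdeg : ∀ t < i, e ≤ (dg G (c t)).card := by
    intro t ht
    have h1 := hch.sur t ht
    have h2 : (dg G (c t) \ (range t).biUnion D).card ≤ (dg G (c t)).card :=
      Finset.card_le_card Finset.sdiff_subset
    omega
  obtain ⟨⟨v1, hv1Y, -, hv1a, hv1b⟩, v2, hv2Y, -, hv2a, hv2b⟩ :=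
    hTYP V G Y X (k * q) P a k i q e c J hP hcov hX hJ (hch.top (by omega)) (hdeg 0 (by omega))
      (hA.trans hcast) (hB.trans hcast)
  have hT1 : k + 2 ≤ (univ.filter (fun v => (symmDiff (dg G v) (dg G (c 0))).card ≤
      LL k q)).card := by
    by_contra hcon
    have h1 := hF1 (by omega) v1 hv1Y
    omega
  have hT2 : k + 2 ≤ (univ.filter (fun v => (symmDiff (dg G v) (dg G (c 0))ᶜ).card ≤
      LL k q)).card := by
    by_contra hcon
    have h1 := hF2 (by omega) v2 hv2Y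
    omega
  exact ⟨J v1, J v2, hSTR V G a k i q e c v1 v2 (J v1) (J v2) hP hdeg (hJ v1 hv1Y) (hJ v2 hv2Y)
    hv1a hv1b hv2a hv2b hT1 hT2⟩

end Pool.Agent.SFG
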