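import Pool.Agent.SFG.Targets

set_option autoImplicit false

open Finset

namespace Pool.Agent.SFG

open Pool.Agent.StarF (starForest ramsey)
open Pool.Agent.SFB (Con dg nc Chain Two)

namespace LOW_

/-- The graph inside the first block. -/
lemma ex (hREG : T_REG) (x c : ℕ) (h : c < x ∨ c = 0) : ∃ H : SimpleGraph (Fin x),
    (∀ v, c ≤ (dg H v).card) ∧
      ∀ S : Finset (Fin x), ∑ v ∈ S, (dg H v).card ≤ S.card * c + x * c % 2 := by
  classical
  rcases Nat.lt_or_ge c x with h1 | h1
  · obtain ⟨H, v0, hv, hv0⟩ := hREG x c h1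
    refine ⟨H, fun v => ?_, fun S => ?_⟩
    · by_cases hvv : v = v0
      · rw [hvv, hv0]
        omega
      · rw [hv v hvv]
    · have h2 : ∀ v, (dg H v).card = c + if v = v0 then x * c % 2 else 0 := by
        intro v
        by_cases hvv : v = v0
        · rw [hvv, hv0, if_pos rfl]
        · rw [hv v hvv, if_neg hvv, add_zero]
      rw [sum_congr rfl fun v _ => h2 v, sum_add_distrib, sum_const, smul_eq_mul,
        sum_ite_eq']
      split_ifs <;> omega
  · have hc : c = 0 := by omega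
    subst hc
    refine ⟨⊥, fun v => Nat.zero_le _, fun S => ?_⟩
    have h2 : ∀ v, (dg (⊥ : SimpleGraph (Fin x)) v).card = 0 := by
      intro v
      rw [card_eq_zero, eq_empty_iff_forall_notMem]
      intro w hw
      rw [Pool.Agent.SFB.mem_dg] at hw
      exact hw
    rw [sum_congr rfl fun v _ => h2 v, sum_const_zero]
    exact Nat.zero_le _

/-- Transport along an equivalence. -/
lemma iso {V W : Type} (G : SimpleGraph V) (f : W ≃ V) :
    Nonempty (G.comap f ≃g G) ∧ Nonempty ((G.comap f)ᶜ ≃g Gᶜ) := by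
  refine ⟨⟨⟨f, fun {_ _} => Iff.rfl⟩⟩, ⟨⟨f, fun {u v} => ?_⟩⟩⟩
  rw [SimpleGraph.compl_adj, SimpleGraph.compl_adj, SimpleGraph.comap_adj, f.injective.ne_iff]

end LOW_

open LOW_ in
theorem p_LOW (hREG : T_REG) (hLWR : T_LWR) (hLWB : T_LWB) : T_LOW := by
  intro k n x y c hc hn
  obtain ⟨H, h1, h2⟩ := ex hREG x c hc
  obtain ⟨⟨e1⟩, ⟨e2⟩⟩ := iso (red y H) (finSumFinEquiv (m := x) (n := y)).symm
  refine ⟨(red y H).comap (finSumFinEquiv (m := x) (n := y)).symm, fun h => ?_, fun h => ?_⟩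
  · exact hn (hLWR k n x y c H h1 ((SimpleGraph.isContained_congr_right e1).1 h))
  · exact hn (hLWB k n x y c H h2 ((SimpleGraph.isContained_congr_right e2).1 h))

end Pool.Agent.SFG
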