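import Pool.Agent.SFG.Targets3

/-!
# SFG: arithmetic of the first value (target YAR)
-/

set_option autoImplicit false

open Finset

namespace Pool.Agent.SFG

open Pool.Agent.StarF (starForest ramsey)
open Pool.Agent.SFB (Con dg nc Chain Two)

namespace YAR_

/-- The case `c = Q - 2 = u` with the correction. -/
lemma odd_case (j Q m : ℕ) (hQ : 2 ≤ Q) (hQo : Q % 2 = 1) (hm : m % 2 = 0) (f : ℕ)
    (h : f + j * (Q - 2) + (m + (Q - 2)) * (Q - 2) % 2 < (Q - 2) + (Q * j - j)) :
    f + 3 < Q + j := by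
  obtain ⟨d, rfl⟩ : ∃ d, Q = d + 2 := ⟨Q - 2, by omega⟩
  have h1 : (d + 2) - 2 = d := by omega
  rw [h1] at h
  have h2 : d % 2 = 1 := by omega
  have h3 : (m + d) * d % 2 = 1 := by
    rw [Nat.mul_mod, Nat.add_mod, hm, h2]
  have h4 : (d + 2) * j - j = j * d + j := by
    have : (d + 2) * j = (j * d + j) + j := by ring
    omega
  omega

lemma big_case (j Q r u c f e : ℕ) (hj : 2 ≤ j) (hr : r < j) (hQ : 2 ≤ Q) (hu : u ≤ c)
    (hc : Q ≤ c) (h : f + j * c + e < u + (Q * j + r - j)) : f + 1 < Q := by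
  obtain ⟨d, rfl⟩ : ∃ d, c = Q + d := ⟨c - Q, by omega⟩
  obtain ⟨j', rfl⟩ : ∃ j', j = j' + 2 := ⟨j - 2, by omega⟩
  have h1 : (j' + 2) * (Q + d) = (j' + 2) * Q + (j' + 2) * d := by ring
  have h2 : (j' + 2) * d = j' * d + 2 * d := by ring
  have h3 : Q * (j' + 2) = (j' + 2) * Q := by ring
  rw [h1, h2] at h
  rw [h3] at h
  have h4 : (j' + 2) ≤ (j' + 2) * Q := Nat.le_mul_of_pos_right _ (by omega)
  have h5 : 0 ≤ j' * d := Nat.zero_le _
  omega

end YAR_

theorem p_YAR : T_YAR := by
  intro k K m u c f hK hk hu h1 h2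
  unfold vv
  have hsub : k - 1 - K = k - (K + 1) := by omega
  rw [hsub] at h2
  have hcj : c ≤ (K + 1) * c := Nat.le_mul_of_pos_left _ (Nat.succ_pos K)
  split_ifs with hA hB
  · omega
  · obtain ⟨hB1, hB2, hB3⟩ := hB
    have hdm := Nat.div_add_mod k (K + 1)
    rw [hB1, add_zero] at hdm
    have hQ2 : 2 ≤ k / (K + 1) := by
      rw [Nat.le_div_iff_mul_le (Nat.succ_pos K)]
      omega
    set Q := k / (K + 1) with hQ
    clear_value Q
    have hk' : k = Q * (K + 1) := by rw [← hdm]; ring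
    rcases Nat.lt_or_ge c (Q - 2) with h3 | h3
    · omega
    rcases Nat.lt_or_ge u (Q - 2) with h4 | h4
    · rcases Nat.lt_or_ge c (Q - 1) with h5 | h5
      · omega
      rcases Nat.lt_or_ge c Q with h6 | h6
      · have h7 : c = Q - 1 := by omega
        have h8 : (K + 1) * c = Q * (K + 1) - (K + 1) := by
          rw [h7, Nat.mul_sub, mul_one, mul_comm]
        rw [h8, hk'] at h2
        omega
      · have h9 : f + 1 < Q := YAR_.big_case (K + 1) Q 0 u c f _ (by omega) (by omega) hQ2 hu h6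
          (by rw [hk'] at h2; simpa using h2)
        omega
    · rcases Nat.lt_or_ge c (Q - 1) with h5 | h5
      · have h6 : c = Q - 2 := by omega
        have h7 : u = Q - 2 := by omega
        rw [h6, h7, hk'] at h2
        have h9 := YAR_.odd_case (K + 1) Q m hQ2 hB2 hB3 f h2
        omega
      rcases Nat.lt_or_ge c Q with h6 | h6
      · have h7 : c = Q - 1 := by omega
        have h8 : (K + 1) * c = Q * (K + 1) - (K + 1) := by
          rw [h7, Nat.mul_sub, mul_one, mul_comm]
        rw [h8, hk'] at h2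
        omega
      · have h9 : f + 1 < Q := YAR_.big_case (K + 1) Q 0 u c f _ (by omega) (by omega) hQ2 hu h6
          (by rw [hk'] at h2; simpa using h2)
        omega
  · have hdm := Nat.div_add_mod k (K + 1)
    have hr := Nat.mod_lt k (Nat.succ_pos K)
    have hQ2 : 2 ≤ k / (K + 1) := by
      rw [Nat.le_div_iff_mul_le (Nat.succ_pos K)]
      omega
    set Q := k / (K + 1) with hQ
    set r := k % (K + 1) with hrr
    clear_value Q r
    have hk' : k = Q * (K + 1) + r := by rw [← hdm]; ring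
    rcases Nat.lt_or_ge c (Q - 1) with h5 | h5
    · omega
    rcases Nat.lt_or_ge c Q with h6 | h6
    · have h7 : c = Q - 1 := by omega
      have h8 : (K + 1) * c = Q * (K + 1) - (K + 1) := by
        rw [h7, Nat.mul_sub, mul_one, mul_comm]
      rw [h8, hk'] at h2
      have h9 : K + 1 ≤ Q * (K + 1) := Nat.le_mul_of_pos_left _ (by omega)
      omega
    · have h9 : f + 1 < Q := YAR_.big_case (K + 1) Q r u c f _ (by omega) hr hQ2 hu h6
        (by rw [hk'] at h2; exact h2)
      omega

end Pool.Agent.SFG
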