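import Pool.Agent.SFG.Targets3

/-!
# SFG: the converse of the state lemma (YCV)
-/

set_option autoImplicit false

open Finset

namespace Pool.Agent.SFG

open Pool.Agent.StarF (starForest ramsey)
open Pool.Agent.SFB (Con dg nc Chain Two)

namespace YCV_

lemma aux_mul {B k c r z : ℕ} (hz : z ≤ B * c + r % 2) (hB : B ≤ k) (hc : c ≤ k) :
    z ≤ k * k + 1 := by
  have h1 : B * c ≤ k * k := Nat.mul_le_mul hB hc
  have h2 : r % 2 < 2 := Nat.mod_lt _ (by norm_num)
  omega

end YCV_

open YCV_ in
theorem p_YCV : T_YCV := by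
  intro a k K q e N h gen x y c P hxy hc hS hx hpf
  obtain ⟨A, hA, hAB⟩ := hpf
  have hk := h.hk
  have hk2 := h.k2
  have hlo := h.lo
  have hPK : P ⊆ range K := hS.sub
  have hKP : K ∉ P := fun h1 => by
    have h2 := mem_range.1 (hPK h1)
    omega
  have hPk : P ⊆ range k := hPK.trans (range_subset_range.2 hk.le)
  have hiP : insert K P ⊆ range k := by
    intro t ht
    rcases mem_insert.1 ht with h1 | h1
    · exact mem_range.2 (by omega)
    · exact hPk h1
  have hdE : Disjoint P (Ico (K + 1) k) := by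
    rw [disjoint_left]
    intro t ht h1
    have h2 := mem_range.1 (hPK ht)
    have h3 := mem_Ico.1 h1
    omega
  have hPE : P ∪ Ico (K + 1) k ⊆ range k := by
    intro t ht
    rcases mem_union.1 ht with h1 | h1
    · exact hPk h1
    · exact mem_range.2 (mem_Ico.1 h1).2
  have sI : ∑ t ∈ insert K P, a t = ∑ t ∈ P, a t + a K := by
    rw [sum_insert hKP, add_comm]
  have sE : ∑ t ∈ P ∪ Ico (K + 1) k, a t = ∑ t ∈ P, a t + ∑ t ∈ Ico (K + 1) k, a t :=
    sum_union hdE
  have cI : (insert K P).card = P.card + 1 := card_insert_of_notMem hKP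
  have cE : (P ∪ Ico (K + 1) k).card = P.card + (k - 1 - K) := by
    rw [card_union_of_disjoint hdE, Nat.card_Ico]
    omega
  have cP : P.card ≤ K := by
    have h1 := card_le_card hPK
    rwa [card_range] at h1
  have sQ : ∑ t ∈ range K \ P, a t + ∑ t ∈ P, a t = ∑ t ∈ range K, a t := sum_sdiff hPK
  have sK : ∑ t ∈ range (K + 1), a t = ∑ t ∈ range K, a t + a K := sum_range_succ _ _
  have sk : ∑ t ∈ range k, a t = ∑ t ∈ range (K + 1), a t + ∑ t ∈ Ico (K + 1) k, a t :=
    (sum_range_add_sum_Ico a (by omega)).symm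
  have sA : ∑ t ∈ range k \ A, a t + ∑ t ∈ A, a t = ∑ t ∈ range k, a t := sum_sdiff hA
  have cA : (range k \ A).card + A.card = k := by
    rw [card_sdiff_add_card_eq_card hA, card_range]
  have x2 := hS.x2
  have y1 := hS.y1
  have y2 := hS.y2
  have hkk : 5 * k ^ 2 = 5 * (k * k) := by ring
  have hkk2 : 2 * k ≤ k * k := Nat.mul_le_mul_right _ hk2
  rcases Nat.lt_or_ge (∑ t ∈ A, a t) (∑ t ∈ P, a t + a K) with h1 | h1
  · -- the case `s(A) < s(P) + a K`
    have h2 : ∑ t ∈ A, a t ≤ ∑ t ∈ P, a t + ∑ t ∈ Ico (K + 1) k, a t := by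
      by_contra h3
      exact hS.rel A hA ⟨by omega, h1⟩
    by_cases h3 : A = P ∪ Ico (K + 1) k
    · rw [h3] at sA cA
      rw [h3] at hAB
      rw [sE] at sA
      rw [cE] at cA
      have cB : (range k \ (P ∪ Ico (K + 1) k)).card = K + 1 - P.card := by omega
      rcases hAB with ⟨_, h5, _⟩ | ⟨z, h5, _, _, h6⟩
      · rw [cB] at h5
        omega
      · rw [cB] at h5
        rw [cE] at h6
        omega
    · have h4 := gen A hA _ hPE h3 (by rw [sE]; exact h2)
      rw [sE, hkk] at h4
      rcases hAB with ⟨_, h5, _⟩ | ⟨z, h5, _, _, h6⟩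
      · omega
      · have h7 : z ≤ k * k + 1 := aux_mul h5 (by omega) (by omega)
        omega
  · by_cases h3 : A = insert K P
    · rw [h3] at sA cA
      rw [h3] at hAB
      rw [cI] at cA
      rcases hAB with ⟨h4, _, h5⟩ | ⟨z, _, _, h4, _⟩
      · rw [sI, cI] at h4
        by_cases h6 : P.card = 0
        · have h7 := hS.x0 h6
          have h8 := h5 (by rw [cI, h6])
          rw [sI] at h8
          omega
        · have h7 := hS.x1 h6
          omega
      · rw [sI] at h4
        omega
    · have h4 := gen _ hiP A hA (fun h5 => h3 h5.symm) (by rw [sI]; exact h1)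
      rw [sI, hkk] at h4
      rcases hAB with ⟨h5, _, _⟩ | ⟨z, _, _, h5, _⟩
      · omega
      · omega

end Pool.Agent.SFG
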