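import Pool.Agent.SFG.Targets3

/-!
# SFG, YFN: conversion to sizes indexed by `Fin k`
-/

set_option autoImplicit false

open Finset

namespace Pool.Agent.SFG

open Pool.Agent.StarF (starForest ramsey)
open Pool.Agent.SFB (Con dg nc Chain Two)

namespace YFN_

/-- the subset of `Fin k` -/
def inv (k : ℕ) (A : Finset ℕ) : Finset (Fin k) := univ.filter fun i : Fin k => (i : ℕ) ∈ A

lemma map_inv {k : ℕ} {A : Finset ℕ} (hA : A ⊆ range k) :
    (inv k A).map Fin.valEmbedding = A := by
  ext t
  simp only [inv, mem_map, mem_filter, mem_univ, true_and, Fin.valEmbedding_apply]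
  constructor
  · rintro ⟨i, hi, rfl⟩
    exact hi
  · intro ht
    exact ⟨⟨t, mem_range.1 (hA ht)⟩, ht, rfl⟩

lemma map_sub {k : ℕ} (B : Finset (Fin k)) : B.map Fin.valEmbedding ⊆ range k := by
  intro t ht
  obtain ⟨i, -, rfl⟩ := mem_map.1 ht
  exact mem_range.2 i.isLt

lemma map_Iio {k : ℕ} (j : Fin k) : (Iio j).map Fin.valEmbedding = range (j : ℕ) := by
  ext t
  simp only [mem_map, mem_Iio, Fin.valEmbedding_apply, mem_range]
  constructor
  · rintro ⟨i, hi, rfl⟩
    exact hi
  · intro ht
    exact ⟨⟨t, ht.trans j.isLt⟩, ht, rfl⟩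

lemma map_Ioi {k : ℕ} (j : Fin k) : (Ioi j).map Fin.valEmbedding = Ico ((j : ℕ) + 1) k := by
  ext t
  simp only [mem_map, mem_Ioi, Fin.valEmbedding_apply, mem_Ico]
  constructor
  · rintro ⟨i, hi, rfl⟩
    exact ⟨hi, i.isLt⟩
  · rintro ⟨h1, h2⟩
    exact ⟨⟨t, h2⟩, h1, rfl⟩

lemma sum_fin {k : ℕ} (a : ℕ → ℕ) (B : Finset (Fin k)) :
    ∑ t ∈ B.map Fin.valEmbedding, a t = ∑ i ∈ B, a i := by
  rw [sum_map]
  rfl

lemma sum_Ioi {k : ℕ} (a : ℕ → ℕ) (j : Fin k) :
    ∑ i ∈ Ioi j, a i = ∑ t ∈ Ico ((j : ℕ) + 1) k, a t := by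
  rw [← map_Ioi, sum_fin]

lemma rel_iff {k : ℕ} (a : ℕ → ℕ) (j : Fin k) (P : Finset (Fin k)) :
    RelF (fun i : Fin k => a i) j P ↔ Rel a k j (P.map Fin.valEmbedding) := by
  constructor
  · intro h A hA h'
    refine h (inv k A) ?_
    rw [sum_Ioi, ← sum_fin, ← sum_fin, map_inv hA]
    exact h'
  · intro h A h'
    refine h (A.map Fin.valEmbedding) (map_sub A) ?_
    rw [sum_fin, sum_fin, ← sum_Ioi]
    exact h'

end YFN_

open YFN_ in
/-- YFN. -/
theorem p_YFN : T_YFN := by
  classical
  intro k a j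
  refine ⟨?_, ?_, ?_⟩
  · intro h A hA B hB hne hle
    have h1 := h (inv k A) (inv k B) (by
      intro he
      apply hne
      rw [← map_inv hA, ← map_inv hB, he]) (by
      rw [← sum_fin, ← sum_fin, map_inv hA, map_inv hB]
      exact hle)
    rw [← sum_fin, ← sum_fin, map_inv hA, map_inv hB] at h1
    exact h1
  · intro P hP hne hPj hrel
    have hPk : P ⊆ range k := hP.trans (range_subset_range.2 j.isLt.le)
    have h1 : inv k P ∈ (univ : Finset (Finset (Fin k))).filter
        (fun P => P ⊂ Iio j ∧ P.Nonempty ∧ RelF (fun i : Fin k => a i) j P) := by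
      rw [mem_filter]
      refine ⟨mem_univ _, ?_, ?_, ?_⟩
      · rw [Finset.ssubset_iff_subset_ne]
        constructor
        · rw [← Finset.map_subset_map (f := Fin.valEmbedding), map_inv hPk, map_Iio]
          exact hP
        · intro he
          apply hPj
          rw [← map_inv hPk, he, map_Iio]
      · rw [← Finset.map_nonempty (f := Fin.valEmbedding), map_inv hPk]
        exact hne
      · rw [rel_iff, map_inv hPk]
        exact hrel
    have h2 : (inv k P).card = P.card := by
      rw [← Finset.card_map Fin.valEmbedding, map_inv hPk]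
    rw [← h2]
    exact Finset.le_sup (f := fun P : Finset (Fin k) => ww k j P.card) h1
  · intro hpos
    have hne : ((univ : Finset (Finset (Fin k))).filter
        (fun P => P ⊂ Iio j ∧ P.Nonempty ∧ RelF (fun i : Fin k => a i) j P)).Nonempty := by
      rw [Finset.nonempty_iff_ne_empty]
      intro he
      unfold supF at hpos
      rw [he, Finset.sup_empty] at hpos
      exact absurd hpos (lt_irrefl _)
    obtain ⟨P, hP, he⟩ := Finset.exists_mem_eq_sup _ hne
      (fun P : Finset (Fin k) => ww k j P.card)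
    obtain ⟨-, h1, h2, h3⟩ := mem_filter.1 hP
    refine ⟨P.map Fin.valEmbedding, ?_, h2.map, ?_, (rel_iff a j P).1 h3, ?_⟩
    · rw [← map_Iio, Finset.map_subset_map]
      exact h1.subset
    · intro he'
      rw [← map_Iio] at he'
      exact h1.ne (Finset.map_injective _ he')
    · rw [Finset.card_map]
      exact he.symm

end Pool.Agent.SFG
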