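import Pool.Agent.SFG.Targets3

/-!
# SFG: YLV, the lower bound from the first value
-/

set_option autoImplicit false

open Finset

namespace Pool.Agent.SFG

open Pool.Agent.StarF (starForest ramsey)
open Pool.Agent.SFB (Con dg nc Chain Two)

namespace YLV_

variable {a : ℕ → ℕ} {k K q e N : ℕ}

/-- the empty set is relevant -/
lemma rel (h : Par a k K q e N) : Rel a k K ∅ := by
  rintro A hA ⟨h1, h2⟩
  rw [sum_empty, zero_add] at h1 h2
  have h3 : A ⊆ Ico (K + 1) k := by
    intro t ht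
    rw [mem_Ico]
    refine ⟨?_, mem_range.1 (hA ht)⟩
    by_contra h4
    have h5 := h.top t (by omega)
    have h6 : a t ≤ ∑ t ∈ A, a t := single_le_sum (f := a) (fun _ _ => Nat.zero_le _) ht
    omega
  have h4 : ∑ t ∈ A, a t ≤ ∑ t ∈ Ico (K + 1) k, a t :=
    sum_le_sum_of_subset_of_nonneg h3 (fun _ _ _ => Nat.zero_le _)
  omega

lemma core (hYCV : T_YCV) (h : Par a k K q e N) (hG : Gen a k (5 * k ^ 2)) (f c : ℕ)
    (hN : N = ∑ t ∈ range (K + 1), a t + a K + f) (hc : c + 1 < k) (h1 : f < K + 1 + c)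
    (h2 : f + K * c + (a K + c) * c % 2 < k - 1 - K) :
    ∃ x y c : ℕ, x + y = N ∧ c + 1 < k ∧ (c < x ∨ c = 0) ∧ ¬ pf a k x y c := by
  have hm := h.m1 K h.hk
  have hl := h.l2
  have hk := h.k2
  have hkm : k ≤ a K := by
    refine le_trans ?_ hm
    calc k = 1 * k * 1 := by ring
      _ ≤ 10 * k * el k q := Nat.mul_le_mul (Nat.mul_le_mul (by omega) le_rfl) (by omega)
  rw [sum_range_succ] at hN
  have hK1 : (K + 1) * c = K * c + c := by ring
  refine ⟨a K + c, N - (a K + c), c, by omega, hc, by omega, ?_⟩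
  refine hYCV a k K q e N h hG _ _ c ∅ (by omega) hc ⟨empty_subset _, rel h, ?_, ?_, ?_, ?_, ?_⟩ ?_
  · intro _
    omega
  · intro h3
    exact absurd card_empty h3
  · rw [sum_empty, card_empty]
    omega
  · rw [sdiff_empty, card_empty]
    omega
  · rw [sdiff_empty, card_empty, Nat.sub_zero, hK1]
    omega
  · rw [sum_empty]
    omega

end YLV_

open YLV_ in
theorem p_YLV (hYCV : T_YCV) : T_YLV := by
  intro a k K q e N h hG hN
  have hK := h.hK
  have hk := h.hk
  obtain ⟨f, hf⟩ : ∃ f, N = ∑ t ∈ range (K + 1), a t + a K + f :=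
    ⟨N - (∑ t ∈ range (K + 1), a t + a K), by have := h.lo; omega⟩
  have hfv : f < vv k K (a K) := by omega
  unfold vv at hfv
  by_cases hk2 : k < 2 * (K + 1)
  · rw [if_pos hk2] at hfv
    refine core hYCV h hG f 0 hf (by omega) (by omega) ?_
    rw [mul_zero, mul_zero, Nat.zero_mod]
    omega
  · rw [if_neg hk2] at hfv
    obtain ⟨Q, hQ⟩ : ∃ Q, Q = k / (K + 1) := ⟨_, rfl⟩
    obtain ⟨r, hr⟩ : ∃ r, r = k % (K + 1) := ⟨_, rfl⟩
    rw [← hQ, ← hr] at hfv
    have hdm : (K + 1) * Q + r = k := by rw [hQ, hr]; exact Nat.div_add_mod _ _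
    have hQ2 : 2 ≤ Q := by
      rw [hQ, Nat.le_div_iff_mul_le (by omega)]
      omega
    by_cases hτ : r = 0 ∧ Q % 2 = 1 ∧ a K % 2 = 0
    · rw [if_pos hτ] at hfv
      obtain ⟨c, hc⟩ : ∃ c, Q = c + 3 := ⟨Q - 3, by omega⟩
      subst hc
      have e1 : (K + 1) * (c + 3) = K * c + 3 * K + c + 3 := by ring
      have e2 : (a K + c) * c % 2 = 0 := by
        have : c % 2 = 0 := by omega
        rw [Nat.mul_mod, this, mul_zero, Nat.zero_mod]
      exact core hYCV h hG f c hf (by omega) (by omega) (by rw [e2]; omega)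
    · rw [if_neg hτ] at hfv
      obtain ⟨c, hc⟩ : ∃ c, Q = c + 2 := ⟨Q - 2, by omega⟩
      subst hc
      have e1 : (K + 1) * (c + 2) = K * c + 2 * K + c + 2 := by ring
      refine core hYCV h hG f c hf (by omega) (by omega) ?_
      by_cases hr0 : r = 0
      · have e2 : (a K + c) * c % 2 = 0 := by
          rcases Nat.mod_two_eq_zero_or_one c with h3 | h3
          · rw [Nat.mul_mod, h3, mul_zero, Nat.zero_mod]
          · have h4 : a K % 2 = 1 := by
              by_contra h5
              exact hτ ⟨hr0, by omega, by omega⟩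
            have h5 : (a K + c) % 2 = 0 := by omega
            rw [Nat.mul_mod, h5, zero_mul, Nat.zero_mod]
        rw [e2]
        omega
      · have e2 : (a K + c) * c % 2 < 2 := Nat.mod_lt _ (by omega)
        omega

end Pool.Agent.SFG
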