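import Pool.Agent.SFG.Targets3

/-!
# SFG: YLW, the lower bound from the second value
-/

set_option autoImplicit false

open Finset

namespace Pool.Agent.SFG

open Pool.Agent.StarF (starForest ramsey)
open Pool.Agent.SFB (Con dg nc Chain Two)

namespace YLW_

/-- Cardinality of a proper non-empty subset of `range K`. -/
lemma cards {K : ℕ} {P : Finset ℕ} (h1 : P ⊆ range K) (h2 : P.Nonempty) (h3 : P ≠ range K) :
    1 ≤ P.card ∧ P.card + 1 ≤ K := by
  refine ⟨card_pos.2 h2, ?_⟩
  have h4 := card_lt_card (h1.ssubset_of_ne h3)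
  rw [card_range] at h4
  omega

end YLW_

open YLW_ in
theorem p_YLW (hYCV : T_YCV) : T_YLW := by
  intro a k K q e N P h hG hP hne hn hR hN
  have hK := h.hK
  have hk := h.hk
  obtain ⟨hp1, hp2⟩ := cards hP hne hn
  have hS : ∑ t ∈ range K, a t = ∑ t ∈ range K \ P, a t + ∑ t ∈ P, a t :=
    (sum_sdiff hP).symm
  have hN2 := h.lo
  have hN3 := hN
  rw [sum_range_succ] at hN2 hN3
  obtain ⟨p, hp⟩ : ∃ p, p = P.card := ⟨_, rfl⟩
  rw [← hp] at hp1 hp2 hN3
  unfold ww at hN3
  refine ⟨∑ t ∈ P, a t + a K + min (p + 1) (k - 1 - p) - 1,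
    N - (∑ t ∈ P, a t + a K + min (p + 1) (k - 1 - p) - 1), 0, ?_, by omega, Or.inr rfl, ?_⟩
  · have hm := h.m1 K h.hk
    have hl := h.l2
    have hkm : k ≤ a K := by
      refine le_trans ?_ hm
      calc k = 1 * k * 1 := by ring
        _ ≤ 10 * k * el k q := Nat.mul_le_mul (Nat.mul_le_mul (by omega) le_rfl) (by omega)
    omega
  have hm := h.m1 K h.hk
  have hl := h.l2
  have hkm : k ≤ a K := by
    refine le_trans ?_ hm
    calc k = 1 * k * 1 := by ring
      _ ≤ 10 * k * el k q := Nat.mul_le_mul (Nat.mul_le_mul (by omega) le_rfl) (by omega)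
  refine hYCV a k K q e N h hG _ _ 0 P (by omega) (by omega) ⟨hP, hR, ?_, ?_, ?_, ?_, ?_⟩ ?_
  · intro h3
    omega
  · intro _
    rw [← hp]
    omega
  · rw [← hp]
    omega
  · rw [← hp]
    omega
  · rw [← hp, mul_zero, mul_zero, Nat.zero_mod]
    omega
  · omega

end Pool.Agent.SFG
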