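import Pool.Agent.SFG.Targets3

/-!
# SFG: the state of a bad colouring (YST)
-/

set_option autoImplicit false

open Finset

namespace Pool.Agent.SFG

open Pool.Agent.StarF (starForest ramsey)
open Pool.Agent.SFB (Con dg nc Chain Two)

theorem p_YST (hPCK : T_PCK) (hSFT : T_SFT) : T_YST := by
  intro a k K q e N h gen x y c hxy hc hbad
  have hk := h.hk
  have hk2 := h.k2
  have hlo := h.lo
  have hlo' := h.lo'
  have hpost := h.post
  have he1 := h.e1
  have hl2 := h.l2
  have haK := h.aK
  have hkk : 5 * k ^ 2 = 5 * (k * k) := by ring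
  have hkk2 : 2 * k ≤ k * k := Nat.mul_le_mul_right _ hk2
  have hke : k * k + 10 * k + 10 ≤ e := by
    have h2 := h.e2
    have h5 : k ≤ el k q := by omega
    have h6 : 1 ≤ el k q := by omega
    have h7 : k * k ≤ el k q * el k q := Nat.mul_le_mul h5 h5
    have h8 : el k q * el k q * 1 ≤ el k q * el k q * el k q := Nat.mul_le_mul_left _ h6
    have h9 : 10 * (el k q * el k q) * el k q = 10 * (el k q * el k q * el k q) := by ring
    have h10 : el k q * 1 ≤ el k q * el k q := Nat.mul_le_mul_left _ h6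
    omega
  obtain ⟨P, hPK, _, hPx, hQy⟩ := hPCK a K 0 (2 * k) x y ∅ (Nat.zero_le _)
    (empty_subset _) (Or.inl rfl) (Or.inl (by simp)) (by
      intro i _ hi
      have h1 := h.gap' (i := i) (by omega) (by omega)
      omega)
  have hKP : K ∉ P := fun h1 => by
    have h2 := mem_range.1 (hPK h1)
    omega
  have hPk : P ⊆ range k := hPK.trans (range_subset_range.2 hk.le)
  have hiP : insert K P ⊆ range k := by
    intro t ht
    rcases mem_insert.1 ht with h1 | h1
    · exact mem_range.2 (by omega)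
    · exact hPk h1
  have hdE : Disjoint P (Ico (K + 1) k) := by
    rw [disjoint_left]
    intro t ht h1
    have h2 := mem_range.1 (hPK ht)
    have h3 := mem_Ico.1 h1
    omega
  have hPE : P ∪ Ico (K + 1) k ⊆ range k := by
    intro t ht
    rcases mem_union.1 ht with h1 | h1
    · exact hPk h1
    · exact mem_range.2 (mem_Ico.1 h1).2
  have sI : ∑ t ∈ insert K P, a t = ∑ t ∈ P, a t + a K := by
    rw [sum_insert hKP, add_comm]
  have sE : ∑ t ∈ P ∪ Ico (K + 1) k, a t = ∑ t ∈ P, a t + ∑ t ∈ Ico (K + 1) k, a t :=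
    sum_union hdE
  have cI : (insert K P).card = P.card + 1 := card_insert_of_notMem hKP
  have cE : (P ∪ Ico (K + 1) k).card = P.card + (k - 1 - K) := by
    rw [card_union_of_disjoint hdE, Nat.card_Ico]
    omega
  have cP : P.card ≤ K := by
    have h1 := card_le_card hPK
    rwa [card_range] at h1
  have sQ : ∑ t ∈ range K \ P, a t + ∑ t ∈ P, a t = ∑ t ∈ range K, a t := sum_sdiff hPK
  have sK : ∑ t ∈ range (K + 1), a t = ∑ t ∈ range K, a t + a K := sum_range_succ _ _
  have sk : ∑ t ∈ range k, a t = ∑ t ∈ range (K + 1), a t + ∑ t ∈ Ico (K + 1) k, a t :=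
    (sum_range_add_sum_Ico a (by omega)).symm
  have cA : ∀ A : Finset ℕ, A ⊆ range k → (range k \ A).card + A.card = k := fun A hA => by
    rw [card_sdiff_add_card_eq_card hA, card_range]
  have sA : ∀ A : Finset ℕ, A ⊆ range k →
      ∑ t ∈ range k \ A, a t + ∑ t ∈ A, a t = ∑ t ∈ range k, a t := fun A hA => sum_sdiff hA
  have sI' := sA _ hiP
  have sE' := sA _ hPE
  have cI' := cA _ hiP
  have cE' := cA _ hPE
  rw [sI] at sI'
  rw [sE] at sE'
  rw [cI] at cI'
  rw [cE] at cE'
  have hP0 : P = ∅ → ∑ t ∈ P, a t = 0 := fun h1 => by rw [h1, sum_empty]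
  have hQ0 : range K \ P = ∅ → ∑ t ∈ range K \ P, a t = 0 := fun h1 => by rw [h1, sum_empty]
  have pack : ∀ A0 : Finset ℕ, A0 ⊆ range (K + 1) → (A0 = ∅ ∨ ∑ t ∈ A0, a t + 2 * k ≤ x) →
      (range (K + 1) \ A0 = ∅ ∨ ∑ t ∈ range (K + 1) \ A0, a t + 2 * k ≤ y) → False := by
    intro A0 h0 h1 h2
    obtain ⟨A, hA, _, hA2, hA3⟩ := hPCK a k (K + 1) (2 * k) x y A0 (by omega) h0 h1 h2 (by
      intro i hi1 hi2
      have := h.gap' hi2 (by omega)
      omega)
    exact hbad (hSFT a k x y c A hA (by omega) hA2 hA3)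
  have hPK1 : P ⊆ range (K + 1) := hPK.trans (range_subset_range.2 (Nat.le_succ K))
  have hiP1 : insert K P ⊆ range (K + 1) := by
    intro t ht
    rcases mem_insert.1 ht with h1 | h1
    · exact mem_range.2 (by omega)
    · exact hPK1 h1
  -- the two upper bounds
  have u1 : x < ∑ t ∈ P, a t + a K + 2 * k := by
    by_contra hd
    refine pack (insert K P) hiP1 (Or.inr (by rw [sI]; omega)) ?_
    have h3 : range (K + 1) \ insert K P = range K \ P := by
      ext t
      simp only [mem_sdiff, mem_range, mem_insert, not_or]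
      constructor
      · rintro ⟨h4, h5, h6⟩
        exact ⟨by omega, h6⟩
      · rintro ⟨h4, h5⟩
        exact ⟨by omega, by omega, h5⟩
    rw [h3]
    exact hQy
  have u2 : y < ∑ t ∈ range K \ P, a t + a K + 2 * k := by
    by_contra hd
    refine pack P hPK1 hPx (Or.inr ?_)
    have h3 : ∑ t ∈ range (K + 1) \ P, a t + ∑ t ∈ P, a t = ∑ t ∈ range (K + 1), a t :=
      sum_sdiff hPK1
    omega
  have hrel : Rel a k K P := by
    rintro A hA ⟨h1, h2⟩
    have h3 : P ∪ Ico (K + 1) k ≠ A := by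
      intro h4
      rw [← h4, sE] at h1
      omega
    have h4 := gen _ hPE A hA h3 (by rw [sE]; omega)
    have h5 : A ≠ insert K P := by
      intro h6
      rw [h6, sI] at h2
      omega
    have h6 := gen A hA _ hiP h5 (by rw [sI]; omega)
    rw [sE, hkk] at h4
    rw [sI, hkk] at h6
    have h7 := sA A hA
    exact hbad (hSFT a k x y c A hA (by omega) (Or.inr (by omega)) (Or.inr (by omega)))
  refine ⟨P, hPK, hrel, ?_, ?_, ?_, ?_, ?_⟩
  · intro h0
    by_contra hd
    have h1 := hP0 (card_eq_zero.1 h0)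
    refine hbad ⟨insert K P, hiP, Or.inl ⟨?_, ?_, ?_⟩⟩
    · rw [sI, cI]
      omega
    · omega
    · intro _
      rw [sI]
      omega
  · intro h0
    by_contra hd
    refine hbad ⟨insert K P, hiP, Or.inl ⟨?_, ?_, ?_⟩⟩
    · rw [sI, cI]
      omega
    · omega
    · intro h1
      omega
  · by_contra hd
    refine hbad ⟨insert K P, hiP, Or.inr ⟨0, Nat.zero_le _, fun _ => rfl, ?_, ?_⟩⟩
    · rw [sI]
      omega
    · rw [cI]
      omega
  · by_contra hd
    refine hbad ⟨P ∪ Ico (K + 1) k, hPE, Or.inl ⟨?_, ?_, ?_⟩⟩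
    · rw [sE, cE]
      omega
    · omega
    · intro _
      rw [sE]
      omega
  · by_contra hd
    have hcB : (range k \ (P ∪ Ico (K + 1) k)).card = K + 1 - P.card := by omega
    have hm : x * c % 2 < 2 := Nat.mod_lt _ (by norm_num)
    have hmul : (K + 1 - P.card) * c ≤ k * k := Nat.mul_le_mul (by omega) (by omega)
    refine hbad ⟨P ∪ Ico (K + 1) k, hPE, Or.inr
      ⟨∑ t ∈ range K \ P, a t + a K + P.card + (k - 1 - K) - y, ?_, ?_, ?_, ?_⟩⟩
    · rw [hcB]
      omega
    · intro h1
      rw [h1, card_empty] at hcB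
      omega
    · rw [sE, hcB]
      omega
    · rw [cE]
      omega

end Pool.Agent.SFG
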