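import Pool.Agent.SFG.Defs
import Pool.Agent.SFB.Targets

/-!
# SFG: exact diagonal Ramsey numbers of star forests outside near ties (MP_705b7e_co): targets

The proofs are in the docstrings. Conventions: `k` stars with sizes `a 0 ≥ .. ≥ a (k - 1)`, `K` the
critical index (`1 ≤ K < k`), `N = |V|`, `s(J) = ∑ t ∈ J, a t`, `S_i = s(range i)`,
`L = LL k q = 400 k q ^ 3`, `l = el k q = 200 L`. `Par` gives (see Defs): `N ≥ S_i + 2 a i + 4 e`
for `i < k`, `i ≠ K` (`Par.gap'`), `N ≥ S_K + 2 a K` (`Par.lo'`), `a K ≥ 4 e` (`Par.aK`),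
`N ≥ S_k + 4 e` (`Par.all`), `N ≥ a u + a t + 4 e` for all `u, t < k` (`Par.two`), and `e` is much
larger than `l` (`Par.e1`, `Par.e2`). The targets EMB, SUR, MCH, BLQ, CL2, BLK, FTB, FTR are those
of `Pool.Agent.SFB` (proved there).
-/

set_option autoImplicit false

open Finset

namespace Pool.Agent.SFG

open Pool.Agent.StarF (starForest ramsey)
open Pool.Agent.SFB (Con dg nc Chain Two)

/-! ### minimax, averaging, chains -/

/-- MMX. Minimax on the sets with `L` elements. Proof: `Pool.Agent.StarF.ville` for the finset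
`powersetCard L Y` (nonempty as `L ≤ |Y|`) and the symmetric matrix
`M' A B = ∑ u ∈ A, ∑ w ∈ B, M u w`, where `M u w = 0` if `u = w`, `1` if `G.Adj u w`, `-1`
otherwise. It gives weights `Q A ≥ 0` with sum 1 and, say, `∑ A, Q A * M' A B ≥ 0` for all `B`.
`P u = (∑ A ∋ u, Q A) / L` (zero outside `Y`): the sum of `P` is 1 (double counting, `|A| = L`),
`L * P u ≤ 1`, and `∑ A, Q A * M' A B = L * ∑ w ∈ B, g w` with `g w = ∑ u, P u * M u w`. So the set
`Bad = {w ∈ Y | g w < 0}` has fewer than `L` elements (otherwise take `B ⊆ Bad`, `|B| = L`);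
`X = Y \ Bad`. For `w ∈ X` let `p, p'` be the probabilities of the neighbours and of the
non-neighbours (other than `w`) of `w`: `p + p' + P w = 1`, `p ≥ p'`. In the other case the same
with `Gᶜ` (see `Pool/Agent/SFB/P_MMX.lean` for `M` and this step). -/
def T_MMX : Prop := ∀ (V : Type) [Fintype V] [DecidableEq V] (G : SimpleGraph V) (Y : Finset V)
  (L : ℕ), 1 ≤ L → L ≤ Y.card → ∃ X ⊆ Y, (Y \ X).card < L ∧
  ((∃ P, Cov G Y X L P) ∨ ∃ P, Cov Gᶜ Y X L P)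

/-- AVE. Averaging. Proof: as in `Pool/Agent/SFB/P_AVE.lean` (only `nn`, `one`, `cov` are used):
`∑ v, P v * |dg v ∩ W| = ∑ w ∈ W, ∑ v ∈ dg w, P v`, and for `w ∈ W ∩ X` twice the term is at
least `1 - P w`. -/
def T_AVE : Prop := ∀ (V : Type) [Fintype V] [DecidableEq V] (G : SimpleGraph V)
  (Y X : Finset V) (L : ℕ) (P : V → ℝ), Cov G Y X L P → ∀ W : Finset V,
  ((W ∩ X).card : ℝ) - 1 ≤ 2 * ∑ v, P v * ((dg G v ∩ W).card : ℝ)

/-- EXT (from AVE). Extension of a chain. Proof: as in `Pool/Agent/SFB/P_EXT.lean`: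
`W = univ \ (range i).biUnion D`, `|W ∩ X| ≥ N - r - S_i`, so by AVE
`∑ v, P v * |dg v ∩ W| ≥ a i + f`, hence some `v` with `P v ≠ 0` (so `v ∈ Y`) has
`|dg v ∩ W| ≥ a i + f`. If `i ≥ 1` put `c' i = v` (it differs from the `c t ∉ Y`), `D' i` a subset
of `dg v ∩ W` with `a i` elements. If `i = 0` let `c' 0` be a vertex of maximal degree. -/
def T_EXT : Prop := ∀ (V : Type) [Fintype V] [DecidableEq V] (G : SimpleGraph V)
  (Y X : Finset V) (L : ℕ) (P : V → ℝ) (a : ℕ → ℕ) (f i r : ℕ) (c : ℕ → V) (D : ℕ → Finset V),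
  Cov G Y X L P → (Xᶜ).card ≤ r → (∀ t < i, c t ∉ Y) → Chain G a f i c D →
  2 * (a i + f) + r + 1 + ∑ t ∈ range i, a t ≤ Fintype.card V →
  ∃ (c' : ℕ → V) (D' : ℕ → Finset V), Chain G a f (i + 1) c' D'

/-- GRD (from SFB.EMB). Greedy extension. Proof: by induction on `i`, `i0 ≤ i ≤ k`, there is `c'`
injective on `Iio i` with `s(J) + k ≤ |nc G c' J|` for all nonempty `J ⊆ range i`. Step: by
`Pool.Agent.StarF.hall` there are disjoint sets `D t ⊆ dg (c' t)` with `a t` elements, `t < i`;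
`W = univ \ (range i).biUnion D`, `U = (range i).image c'`; the oracle gives `u ∉ U` with
`|dg u ∩ W| ≥ a i + k`; put `c' i = u` (`Function.update`). For `J ∋ i` the set `nc J` contains
the disjoint sets `D t`, `t ∈ J`, `t < i`, and `dg u ∩ W`. For `i = k` apply EMB:
`|nc J \ (range k).image c'| ≥ s(J) + k - k`. -/
def T_GRD : Prop := ∀ (V : Type) [Fintype V] [DecidableEq V] (G : SimpleGraph V) (k i0 : ℕ)
  (a : ℕ → ℕ) (c : ℕ → V), i0 ≤ k → Set.InjOn c (Set.Iio i0) →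
  (∀ J ⊆ range i0, J.Nonempty → ∑ t ∈ J, a t + k ≤ (nc G c J).card) →
  (∀ i, i0 ≤ i → i < k → Orc G a k i) → Con G k a

/-- ORC (from AVE). The oracle of a cover. Proof: let `|U| ≤ k`, `|W| ≥ N - S_i`, and suppose
`|dg v ∩ W| < a i + k` for all `v ∉ U`. Then `∑ v, P v * |dg v ∩ W|` is at most
`|U| * (1 / (k q)) * N + (a i + k) ≤ e + a i + k`, and by AVE twice this sum is at least
`|W ∩ X| - 1 ≥ N - S_i - r - 1`: contradiction. -/
def T_ORC : Prop := ∀ (V : Type) [Fintype V] [DecidableEq V] (G : SimpleGraph V)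
  (Y X : Finset V) (P : V → ℝ) (a : ℕ → ℕ) (k q e i r : ℕ), 1 ≤ k → 1 ≤ q →
  Cov G Y X (k * q) P → (Xᶜ).card ≤ r → Fintype.card V ≤ q * e →
  ∑ t ∈ range i, a t + 2 * a i + 2 * k + 2 * e + r + 2 ≤ Fintype.card V → Orc G a k i

/-- VIO (from GRD). Every further vertex has a violator. Proof: `c' = Function.update c K v`
(injective on `Iio (K + 1)`). By GRD (`i0 = K + 1`) some nonempty `J' ⊆ range (K + 1)` has
`|nc G c' J'| < s(J') + k`; `K ∈ J'` (otherwise `nc G c' J' = nc G c J'`), `J = J'.erase K`: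
`nc G c' J' = dg G v ∪ nc G c J`. -/
def T_VIO : Prop := ∀ (V : Type) [Fintype V] [DecidableEq V] (G : SimpleGraph V) (a : ℕ → ℕ)
  (k K : ℕ) (c : ℕ → V) (v : V), K < k → Set.InjOn c (Set.Iio K) →
  (∀ J ⊆ range K, J.Nonempty → ∑ t ∈ J, a t + k ≤ (nc G c J).card) →
  (∀ i, K < i → i < k → Orc G a k i) → ¬ Con G k a → v ∉ (range K).image c →
  ∃ J, Vio G a k K c v J

/-! ### systems and the violators -/

/-- AVD. A system avoiding a small set `E`. Proof: `Pool.Agent.StarF.hall` with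
`A t = dg (c t) \ E` (see `Pool/Agent/SFB/P_AVD.lean`). -/
def T_AVD : Prop := ∀ (V : Type) [Fintype V] [DecidableEq V] (G : SimpleGraph V) (a : ℕ → ℕ)
  (K e : ℕ) (c : ℕ → V) (E : Finset V),
  (∀ J ⊆ range K, J.Nonempty → ∑ t ∈ J, a t + e ≤ (nc G c J).card) → E.card ≤ e →
  ∃ D : ℕ → Finset V, Sys G a K c E D

/-- AV0 (from AVD). A system with `D 0 ⊇ E`. Proof: let `D'` be a system avoiding `E` (AVD);
`D 0 = E ∪ Q` where `Q ⊆ D' 0` has `a 0 - |E|` elements, `D t = D' t` for `t ≥ 1`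
(see `Pool/Agent/SFB/P_AV0.lean`). -/
def T_AV0 : Prop := ∀ (V : Type) [Fintype V] [DecidableEq V] (G : SimpleGraph V) (a : ℕ → ℕ)
  (K e : ℕ) (c : ℕ → V) (E : Finset V),
  (∀ J ⊆ range K, J.Nonempty → ∑ t ∈ J, a t + e ≤ (nc G c J).card) → E.card ≤ e →
  E ⊆ dg G (c 0) → e ≤ a 0 → ∃ D : ℕ → Finset V, Sys G a K c ∅ D ∧ (0 < K → E ⊆ D 0)

/-- INE. Proof: the three sets and `J.biUnion D` (`s(J)` elements) are pairwise disjoint subsets
of `dg v ∪ nc J`, which has at most `s(J) + a K + k` elements (see `Pool/Agent/SFB/P_INE.lean`). -/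
def T_INE : Prop := ∀ (V : Type) [Fintype V] [DecidableEq V] (G : SimpleGraph V) (a : ℕ → ℕ)
  (k K : ℕ) (c : ℕ → V) (v : V) (J : Finset ℕ) (D : ℕ → Finset V), Vio G a k K c v J →
  Sys G a K c ∅ D →
  (dg G v ∩ Out K D).card + (dg G v ∩ (range K \ J).biUnion D).card +
    ((nc G c J ∩ Out K D) \ dg G v).card ≤ a K + k

/-- AVG (from AVE, INE). Proof: average INE over `P` (`P v = 0` outside `Y`): the sum of the three
expectations is at most `a K + k`. `|Out ∩ X| ≥ N - r - S_K ≥ 2 a K - r`, so by AVE the first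
expectation is at least `a K - (r + 1) / 2`; the other two are together at most
`k + (r + 1) / 2 ≤ r + k` (see `Pool/Agent/SFB/P_AVG.lean`). -/
def T_AVG : Prop := ∀ (V : Type) [Fintype V] [DecidableEq V] (G : SimpleGraph V)
  (Y X : Finset V) (L : ℕ) (P : V → ℝ) (a : ℕ → ℕ) (k K r : ℕ) (c : ℕ → V)
  (J : V → Finset ℕ) (D : ℕ → Finset V),
  Cov G Y X L P → (Xᶜ).card ≤ r → 1 ≤ r → (∀ v ∈ Y, Vio G a k K c v (J v)) →
  Sys G a K c ∅ D → ∑ t ∈ range K, a t + 2 * a K ≤ Fintype.card V →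
  ∑ v, P v * (((dg G v ∩ (range K \ J v).biUnion D).card : ℝ) +
    (((nc G c (J v) ∩ Out K D) \ dg G v).card : ℝ)) ≤ r + k

/-- SMA (from AVD, AVG, SFB.BLQ). Proof: for every block `B j` (BLQ) take a system avoiding `B j`
(AVD), so `B j ⊆ Out` and AVG gives `∑ v, P v * |(nc (J v) ∩ B j) \ dg v| ≤ r + k`. Sum over
`j < q` (see `Pool/Agent/SFB/P_SMA.lean`). -/
def T_SMA : Prop := ∀ (V : Type) [Fintype V] [DecidableEq V] (G : SimpleGraph V)
  (Y X : Finset V) (L : ℕ) (P : V → ℝ) (a : ℕ → ℕ) (k K q e r : ℕ) (c : ℕ → V)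
  (J : V → Finset ℕ),
  Cov G Y X L P → (Xᶜ).card ≤ r → 1 ≤ r → (∀ v ∈ Y, Vio G a k K c v (J v)) →
  (∀ J ⊆ range K, J.Nonempty → ∑ t ∈ J, a t + e ≤ (nc G c J).card) →
  ∑ t ∈ range K, a t + 2 * a K ≤ Fintype.card V → Fintype.card V ≤ q * e →
  ∑ v, P v * ((nc G c (J v) \ dg G v).card : ℝ) ≤ q * (r + k)

/-- SMB (from AV0, AVG, SFB.BLQ). Proof: for every block `B j` put `E = B j ∩ dg (c 0)` and take a
system with `E ⊆ D 0` (AV0). If `0 ∉ J v` then `dg v ∩ E ⊆ dg v ∩ (range K \ J v).biUnion D`;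
apply AVG and sum over `j < q` (see `Pool/Agent/SFB/P_SMB.lean`). -/
def T_SMB : Prop := ∀ (V : Type) [Fintype V] [DecidableEq V] (G : SimpleGraph V)
  (Y X : Finset V) (L : ℕ) (P : V → ℝ) (a : ℕ → ℕ) (k K q e r : ℕ) (c : ℕ → V)
  (J : V → Finset ℕ),
  Cov G Y X L P → (Xᶜ).card ≤ r → 1 ≤ r → (∀ v ∈ Y, Vio G a k K c v (J v)) →
  (∀ J ⊆ range K, J.Nonempty → ∑ t ∈ J, a t + e ≤ (nc G c J).card) →
  ∑ t ∈ range K, a t + 2 * a K ≤ Fintype.card V → Fintype.card V ≤ q * e → 1 ≤ K → e ≤ a 0 →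
  ∑ v, P v * (if 0 ∈ J v then 0 else ((dg G v ∩ dg G (c 0)).card : ℝ)) ≤ q * (r + k)

/-- TYP (from AVE). Two witnesses. Proof: as in `Pool/Agent/SFB/P_TYP.lean` with other constants.
`X0 = dg (c 0)`, `r = 9 k q`, `M = 10 k q ^ 2`, `p` = the sum of `P v` over the `v` with
`0 ∈ J v`.
(1) AVE with `W = X0`: `|X0| - r - 1 ≤ 2 (p |X0| + M)`, so `(1 - 2 p) |X0| ≤ r + 1 + 2 M ≤
30 k q ^ 2` and `p ≥ 1 / 4` as `|X0| ≥ e ≥ 60 k q ^ 2`.
(2) So some `v ∈ Y` has `0 ∈ J v`, hence `X0 ⊆ nc (J v)` has at most `S_K + a K + k` elements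
(Vio), so `|X0ᶜ| ≥ a K - k ≥ e`.
(3) If `0 ∈ J v` then `|dg v \ X0| ≤ |X0 \ dg v| ≤ |nc (J v) \ dg v|` (`|dg v| ≤ |X0|`).
(4) AVE with `W = X0ᶜ`: `|X0ᶜ| - r - 1 ≤ 2 (M + (1 - p) |X0ᶜ| - E)`, `E` = the sum of
`P v * |X0ᶜ \ dg v|` over `0 ∉ J v`. So `2 E ≤ 2 M + r + 1 + (1 - 2 p) |X0ᶜ| ≤ 60 k q ^ 3` because
`|X0ᶜ| ≤ N ≤ q e ≤ q |X0|`; and `(1 - 2 (1 - p)) |X0ᶜ| ≤ 30 k q ^ 2` gives `1 - p ≥ 1 / 4`.
(5) Sum over `0 ∈ J v` of `P v * (|symmDiff| + |nc (J v) \ dg v|) ≤ 3 M < L / 4 ≤ L p`: so some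
`v` with `P v ≠ 0`, `0 ∈ J v` has both terms at most `L`. Similarly for `0 ∉ J v`:
`symmDiff (dg v) X0ᶜ = (dg v ∩ X0) ∪ (X0ᶜ \ dg v)`, the sum is at most `M + 30 k q ^ 3 + M ≤
50 k q ^ 3 < L / 4`. -/
def T_TYP : Prop := ∀ (V : Type) [Fintype V] [DecidableEq V] (G : SimpleGraph V)
  (Y X : Finset V) (L : ℕ) (P : V → ℝ) (a : ℕ → ℕ) (k K q e : ℕ) (c : ℕ → V)
  (J : V → Finset ℕ),
  Par a k K q e (Fintype.card V) → Cov G Y X L P → (Xᶜ).card ≤ 9 * (k * q) →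
  (∀ v ∈ Y, Vio G a k K c v (J v)) → (∀ v, (dg G v).card ≤ (dg G (c 0)).card) →
  e ≤ (dg G (c 0)).card →
  ∑ v, P v * ((nc G c (J v) \ dg G v).card : ℝ) ≤ 10 * (k * q ^ 2) →
  ∑ v, P v * (if 0 ∈ J v then 0 else ((dg G v ∩ dg G (c 0)).card : ℝ)) ≤ 10 * (k * q ^ 2) →
  (∃ v ∈ Y, 0 ∈ J v ∧ (symmDiff (dg G v) (dg G (c 0))).card ≤ LL k q ∧
    (nc G c (J v) \ dg G v).card ≤ LL k q) ∧
  (∃ v ∈ Y, 0 ∉ J v ∧ (symmDiff (dg G v) (dg G (c 0))ᶜ).card ≤ LL k q ∧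
    (nc G c (J v) \ dg G v).card ≤ LL k q)

/-- STR. The sizes. Proof: as in `Pool/Agent/SFB/P_STR.lean`. `X0 = dg (c 0)`. If `t ∈ J1 ∩ J2`
then all but `2 L` elements of `dg (c t)` are in `dg v1 ∩ dg v2`, which has at most `2 L` elements:
`e ≤ |dg (c t)| ≤ 4 L`, contradiction. `|dg v| ≤ |dg v ∪ nc J| ≤ s(J) + a K + k` (Vio), so
`|X0| ≤ s(J1) + a K + k + L` and `|X0ᶜ| ≤ s(J2) + a K + k + L`; the sum is `N ≥ S_K + 2 a K`. If
some `t < K` is not in `J1 ∪ J2` then `s(J1) + s(J2) ≤ S_K - a K`: contradiction. The lower bounds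
follow from `|X0| = N - |X0ᶜ|`. -/
def T_STR : Prop := ∀ (V : Type) [Fintype V] [DecidableEq V] (G : SimpleGraph V)
  (a : ℕ → ℕ) (k K q e : ℕ) (c : ℕ → V) (v1 v2 : V) (J1 J2 : Finset ℕ),
  Par a k K q e (Fintype.card V) → (∀ t < K, e ≤ (dg G (c t)).card) →
  Vio G a k K c v1 J1 → Vio G a k K c v2 J2 →
  (symmDiff (dg G v1) (dg G (c 0))).card ≤ LL k q → (nc G c J1 \ dg G v1).card ≤ LL k q →
  (symmDiff (dg G v2) (dg G (c 0))ᶜ).card ≤ LL k q → (nc G c J2 \ dg G v2).card ≤ LL k q →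
  k + 2 ≤ (univ.filter (fun v => (symmDiff (dg G v) (dg G (c 0))).card ≤ LL k q)).card →
  k + 2 ≤ (univ.filter (fun v => (symmDiff (dg G v) (dg G (c 0))ᶜ).card ≤ LL k q)).card →
  Typ G a k K (LL k q) (LL k q) (dg G (c 0)) J1 J2

/-- COL (from EXT, SFB.SUR, ORC, VIO, SMA, SMB, TYP, STR). One colour. Proof: as in
`Pool/Agent/SFB/P_COL.lean`. If `i < K` then EXT with `f = e`, `r = 9 k q` contradicts the
maximality (`Par.gap'`: `N ≥ S_i + 2 a i + 4 e`). So `i = K`. SUR gives the surplus `e ≥ k`; ORC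
gives `Orc G a k i` for `K < i < k` (`Par.gap'` again); VIO gives the violators `J v` for `v ∈ Y`
(choose `J v = ∅` outside; the centres are not in `Y`). SMA and SMB with `r = 9 k q` give the
hypotheses of TYP (`q (9 k q + k) ≤ 10 k q ^ 2`, `e ≤ a 0`), `Chain.top` the maximality,
`Chain.sur` the bounds `e ≤ |dg (c t)|`. The two witnesses are in `Y`, so the two filter sets have
more than `k + 1` elements (hypotheses). STR. -/
def T_COL : Prop := ∀ (V : Type) [Fintype V] [DecidableEq V] (G : SimpleGraph V)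
  (Y X : Finset V) (P : V → ℝ) (a : ℕ → ℕ) (k K q e i : ℕ) (c : ℕ → V) (D : ℕ → Finset V),
  Par a k K q e (Fintype.card V) → ¬ Con G k a → Cov G Y X (k * q) P →
  (Xᶜ).card ≤ 9 * (k * q) → i ≤ K → Chain G a e i c D →
  (i < K → ∀ (c' : ℕ → V) (D' : ℕ → Finset V), ¬ Chain G a e (i + 1) c' D') →
  (∀ t < i, c t ∉ Y) →
  ((univ.filter (fun v => (symmDiff (dg G v) (dg G (c 0))).card ≤ LL k q)).card ≤ k + 1 →
    ∀ v ∈ Y, LL k q < (symmDiff (dg G v) (dg G (c 0))).card) →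
  ((univ.filter (fun v => (symmDiff (dg G v) (dg G (c 0))ᶜ).card ≤ LL k q)).card ≤ k + 1 →
    ∀ v ∈ Y, LL k q < (symmDiff (dg G v) (dg G (c 0))ᶜ).card) →
  ∃ J1 J2, Typ G a k K (LL k q) (LL k q) (dg G (c 0)) J1 J2

/-! ### classification and blocks -/

/-- TYC. The type of the complement. Proof: as in `Pool/Agent/SFB/P_TYC.lean`:
`dg Gᶜ v = (dg G v)ᶜ \ {v}`, so `symmDiff (dg Gᶜ v) X0 ⊆ symmDiff (dg G v) X0ᶜ ∪ {v}` and vice
versa. -/
def T_TYC : Prop := ∀ (V : Type) [Fintype V] [DecidableEq V] (G : SimpleGraph V) (a : ℕ → ℕ)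
  (k K L : ℕ) (X0 : Finset V) (J1 J2 : Finset ℕ), Typ G a k K L L X0 J1 J2 →
  Typ Gᶜ a k K L (L + 1) X0 J1 J2

/-- CL1 (from GRD). Proof: `T1, T2` = the two filter sets of Typ, disjoint as `N > 2 M`; each has
at least `k + 2` elements. Choose distinct `c t ∈ T1 \ {u}` for `t ∈ J1`, `c t ∈ T2 \ {u}` for
`t ∈ J2`, `c K = u` (see `Pool/Agent/SFB/P_CL1.lean`). Oracle for `K < i < k`: given `U, W` take
`u1 ∈ T1 \ U`, `u2 ∈ T2 \ U`; `|dg u1 ∩ W| + |dg u2 ∩ W| ≥ |W| - 2 M ≥ N - S_i - 2 M ≥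
2 (a i + k)` (`Par.gap'`), so one of them is at least `a i + k`. By GRD (`i0 = K + 1`) there is a
nonempty `J ⊆ range (K + 1)` with `|nc J| < s(J) + k`. Let `A = J ∩ J1`, `B = J ∩ J2`.
If `A ≠ ∅` then `|nc A| ≥ |X0| - M ≥ s(J1) + a K - 2 L - M`, similarly for `B`; if both are
nonempty then `|nc (A ∪ B)| ≥ N - 2 M ≥ S_K + 2 a K - 2 M ≥ s(J) + a K - 2 M`, contradiction.
If `K ∉ J`: contradiction with `|nc J| < s(J) + k` as `a K` is large. So `K ∈ J`.
`A = B = ∅`: `|dg u| < a K + k`. `A ≠ ∅ = B`, `t ∈ A`: `|dg u ∪ dg (c t)| ≤ s(J1) + a K + k`, so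
`|dg u \ dg (c t)| ≤ 2 L + M + k` and `|dg u \ X0| ≤ 2 L + 2 M + k ≤ 6 L`. `A = ∅ ≠ B`: the same
with `X0ᶜ`. -/
def T_CL1 : Prop := ∀ (V : Type) [Fintype V] [DecidableEq V] (G : SimpleGraph V) (a : ℕ → ℕ)
  (k K q e M : ℕ) (X0 : Finset V) (J1 J2 : Finset ℕ), Par a k K q e (Fintype.card V) →
  ¬ Con G k a → M ≤ LL k q + 1 → Typ G a k K (LL k q) M X0 J1 J2 →
  ∀ u, (dg G u).card ≤ a K + k ∨ (dg G u \ X0).card ≤ 6 * LL k q ∨
    (dg G u ∩ X0).card ≤ 6 * LL k q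

/-- STC (from MMX, SFB.MCH, COL, TYC, CL1, SFB.CL2, SFB.BLK). The structure. Proof: as in
`Pool/Agent/SFB/P_STC.lean`. Take maximal chains `(i, c, D)` of `G` and `(i', c', D')` of `Gᶜ`
(MCH with `f = e`). Let `R` consist of the centres `c t` (`t < i`), `c' t` (`t < i'`) and of those
of the four filter sets (in COL, for `G` and `c`, and for `Gᶜ` and `c'`) which have at most `k + 1`
elements: `|R| ≤ 2 K + 4 (k + 1) ≤ 6 k + 2`. `Y = Rᶜ`, MMX with `L = k q` gives `X ⊆ Y` with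
`|Xᶜ| ≤ |R| + k q - 1 ≤ 9 k q` and `Cov G Y X (k q) P` or `Cov Gᶜ Y X (k q) P`, COL the type of
this colour, say `G'`, TYC the type of `G'ᶜ`, CL1 (for `G'` with `M = L` and for `G'ᶜ` with
`M = L + 1`) and SFB.CL2 (with `K := k`, `m = a K`, `3 a K ≤ N`) the hypothesis of SFB.BLK with
`20 L` and `b = a K - 2 L`; `5 (20 L) + 1 ≤ el`. -/
def T_STC : Prop := ∀ (V : Type) [Fintype V] [DecidableEq V] (G : SimpleGraph V)
  (a : ℕ → ℕ) (k K q e : ℕ), Par a k K q e (Fintype.card V) → ¬ Con G k a →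
  ¬ Con Gᶜ k a → ∃ X : Finset V, (Two G X (el k q) ∨ Two Gᶜ X (el k q)) ∧
    a K ≤ X.card + el k q ∧ a K ≤ (Xᶜ).card + el k q

/-! ### the exact embeddings -/

/-- FAR. Points which are pairwise far apart in the graph with the neighbourhoods `E u`, one of
them prescribed. Proof: induction on the finset `B.erase b` (start with `c = fun _ => v0`): if the
points `c s`, `s ∈ B'`, are chosen (`|B'| < |B|`), choose the next one in `X` outside the union of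
`{c s} ∪ E (c s) ∪ (E (c s)).biUnion E`, `s ∈ B'`, which has at most
`|B'| (1 + l + l ^ 2) < |X|` elements. A common element `w` of `E u` and `E (c s)` would give
`u ∈ E w`. -/
def T_FAR : Prop := ∀ (V : Type) [Fintype V] [DecidableEq V] (E : V → Finset V) (l : ℕ)
  (X : Finset V) (B : Finset ℕ) (b : ℕ) (v0 : V), (∀ u w, w ∈ E u → u ∈ E w) →
  (∀ u, (E u).card ≤ l) → b ∈ B → v0 ∈ X → B.card * (l ^ 2 + l + 1) ≤ X.card →
  ∃ c : ℕ → V, c b = v0 ∧ (∀ t ∈ B, c t ∈ X) ∧ ∀ s ∈ B, ∀ t ∈ B, s ≠ t →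
    c s ≠ c t ∧ c s ∉ E (c t) ∧ Disjoint (E (c s)) (E (c t))

/-- FTI (from SFB.EMB, FAR). The exact blue embedding which uses the blue edges inside `X`. Proof:
let `E u = symmDiff (dg G u) X \ {u}` for `u ∈ X` and `symmDiff (dg G u) Xᶜ \ {u}` for `u ∉ X`; it
is symmetric, `|E u| ≤ l`. Write `d v = dg Gᶜ v`. For `v ∈ X`: `d v ∩ X = E v ∩ X` and
`Xᶜ \ d v = E v ∩ Xᶜ`; for `w ∉ X`: `X \ d w = E w ∩ X`. Choose `b ∈ B`; FAR gives the centres
`c t ∈ X`, `t ∈ B`, with `c b = v0`; the centres `c t`, `t ∈ A`, are any distinct elements of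
`Xᶜ`. `C` = the set of centres, `|C ∩ X| = |B|`, `|C ∩ Xᶜ| = |A|`. Hall's condition (EMB for
`Gᶜ`) for `J = A' ∪ B'`, `A' = J ∩ A`, `B' = J ∩ B`:
`A' = ∅`, `B' = B`: `nc B` contains `Xᶜ` (`w ∈ Xᶜ` is not in `E (c s) ∩ E (c t)` for two distinct
`s, t ∈ B`) and the disjoint sets `d (c t) ∩ X`, `t ∈ B`, which do not meet `C`; so
`|nc B \ C| ≥ |Xᶜ| - |A| + |B| c + ε ≥ s(B)`.
`A' = ∅`, `B' ≠ B` nonempty: `|nc B' \ C| ≥ |Xᶜ| - l - |A| ≥ s(B) - |B| c - ε - l ≥ s(B')`, as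
`a t ≥ k c + ε + l + k` for some `t ∈ B \ B'`.
`A' ≠ ∅ = B'`: `|nc A' \ C| ≥ |X| - l - |B| ≥ s(A)`.
Both nonempty: `|nc J \ C| ≥ (|X| - l - |B|) + (|Xᶜ| - l - |A|) = N - 2 l - k ≥ S_k`. -/
def T_FTI : Prop := ∀ (V : Type) [Fintype V] [DecidableEq V] (G : SimpleGraph V)
  (k l c ε : ℕ) (a : ℕ → ℕ) (A B : Finset ℕ) (X : Finset V) (v0 : V), Two G X l →
  A ∪ B = range k → Disjoint A B → 2 ≤ B.card →
  (∀ v ∈ X, c ≤ (dg Gᶜ v ∩ X).card) → v0 ∈ X → c + ε ≤ (dg Gᶜ v0 ∩ X).card →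
  k * (l ^ 2 + l + 1) ≤ X.card → k ≤ (Xᶜ).card → ∑ t ∈ A, a t + k + l ≤ X.card →
  ∑ t ∈ B, a t + A.card ≤ (Xᶜ).card + B.card * c + ε →
  ∑ t ∈ range k, a t + 2 * l + k ≤ Fintype.card V → (∀ t < k, k * c + ε + l + k ≤ a t) →
  Con Gᶜ k a

/-- E1B (from SFB.EMB). A vertex `v ∈ X` of large degree. Proof: as in
`Pool/Agent/SFB/P_E1B.lean`. `c t = v`, the other centres are distinct elements of `Xᶜ \ dg v`
(`|dg v ∩ Xᶜ| ≤ l`). Write `R = s((range k).erase t)`. Hall's condition: `J = {t}`: `dg v`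
contains no centre, `|dg v| ≥ a t`. `t ∉ J`: `|nc J \ C| ≥ |Xᶜ| - l - k ≥ R ≥ s(J)`.
`t ∈ J ≠ {t}`: `|nc J \ C| ≥ |dg v ∩ X| + (|Xᶜ| - l - k) ≥ (a t - l) + (R + l) ≥ s(J)` (the centres
other than `v ∉ dg v` are in `Xᶜ`). -/
def T_E1B : Prop := ∀ (V : Type) [Fintype V] [DecidableEq V] (G : SimpleGraph V)
  (k l t : ℕ) (a : ℕ → ℕ) (X : Finset V) (v : V), Two G X l → v ∈ X → t < k →
  a t ≤ (dg G v).card → ∑ s ∈ (range k).erase t, a s + 2 * l + k ≤ (Xᶜ).card → Con G k a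

/-- PRT. Parity. Proof: if `|X| c` is even any `v0 ∈ X` works. Otherwise some `v ∈ X` has
`|dg v ∩ X| ≠ c`: the sum of `|dg v ∩ X|` over `v ∈ X` is even (degree sum of `G.induce X`, or the
number of ordered adjacent pairs in `X`). -/
def T_PRT : Prop := ∀ (V : Type) [Fintype V] [DecidableEq V] (G : SimpleGraph V) (X : Finset V)
  (c : ℕ), X.Nonempty → (∀ v ∈ X, c ≤ (dg G v ∩ X).card) →
  ∃ v0 ∈ X, c + X.card * c % 2 ≤ (dg G v0 ∩ X).card

/-- TGC (from SFB.FTB, SFB.FTR, FTI). The tight case with few inner blue edges. Proof: `x = |X|`,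
`y = |Xᶜ|`, `x + y = N`, `l = el k q`, `c = x - a t`, so `1 ≤ c < k - 1`, `x = a t + c`. Every
single star `u` has slack in `Xᶜ`: `y = N - x > N - a t - k - l ≥ a u + 4 e - k - l ≥
a u + k + l` (`Par.two`). Let `A` be as in `pf`, `B = range k \ A`.
First alternative: SFB.FTB for `A, B` (`m = l`). Slack if `A = {u}`: `a u + 1 + c ≤ x = a t + c`,
so `a u < a t` and `Tig.min` gives `a u + k + l ≤ x`. Slack if `|B| = 1`: see above.
Second alternative, `s(B) + |A| ≤ y`: SFB.FTR for `A, B`. Slack if `A = {u}`: `|B| = k - 1`; if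
`a u < a t` use `Tig.min`; if `a u ≥ a t` then `a u + k - 1 ≤ x = a t + c ≤ a u + c`:
contradiction to `c < k - 1`. Slack if `|B| = 1`: see above.
Second alternative, `s(B) + |A| > y`: then `|B| ≥ 2` (`B = ∅` would give `k > y`, and single stars
have slack in `Xᶜ`), and `s(A) + k + l ≤ x` (`s(A) = S_k - s(B) < N - 4 e - y + k`). FTI with
`ε = x c % 2`: `s(B) + |A| ≤ y + z ≤ y + |B| c + ε`. Sizes by `Par.b1`, `Par.b2`, `Par.m1`. -/
def T_TGC : Prop := ∀ (V : Type) [Fintype V] [DecidableEq V] (G : SimpleGraph V)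
  (a : ℕ → ℕ) (k K q e t : ℕ) (X : Finset V) (v0 : V), Par a k K q e (Fintype.card V) →
  Two G X (el k q) → a K ≤ X.card + el k q → a K ≤ (Xᶜ).card + el k q →
  Tig a k (el k q) t X → (∀ v ∈ X, X.card - a t ≤ (dg Gᶜ v ∩ X).card) → v0 ∈ X →
  X.card - a t + X.card * (X.card - a t) % 2 ≤ (dg Gᶜ v0 ∩ X).card → X.card + 1 < a t + k →
  pf a k X.card (Xᶜ).card (X.card - a t) → Con G k a ∨ Con Gᶜ k a

/-- TGD (from SFB.FTR, FTI). The tight case with many inner blue edges. Proof: as TGC, now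
`c = x - a t ≥ k - 1`, and `pf` is used for the blocks `x' = a t`, `y' = N - a t = y + c` and
degree 0. Let `A` be as in `pf`, `B = range k \ A`.
If `s(B) + |A| ≤ y`: SFB.FTR for `A, B` in `X, Xᶜ`. `s(A) + |B| ≤ x`: in the second alternative
`s(A) + |B| ≤ a t`; in the first one `s(A) + |A| ≤ a t = x - c` and `|B| ≤ k - 1 ≤ c` if `A ≠ ∅`;
if `A = ∅` it is `k ≤ x`. Slack if `A = {u}`: in both alternatives `a u < a t` (`|B| ≥ 1` as
`k ≥ 2`), so `a u + k + l ≤ x` by `Tig.min`. Slack if `|B| = 1`: single stars have slack in `Xᶜ`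
(see TGC).
If `s(B) + |A| > y`: as in TGC `|B| ≥ 2` and `s(A) + k + l ≤ x`. FTI with `ε = 0` (`v0` any point
of `X`): in the second alternative (`z = 0`) `s(B) + |A| ≤ y + c ≤ y + |B| c`; in the first one
`s(B) + |B| ≤ y + c`, so `s(B) + |A| ≤ y + c + k ≤ y + 2 c + 1`, more exactly
`s(B) + |A| ≤ y + c + |A| - |B| ≤ y + c + (k - 4) ≤ y + 2 c ≤ y + |B| c` (`|A| ≤ k - 2`,
`|B| ≥ 2`). -/
def T_TGD : Prop := ∀ (V : Type) [Fintype V] [DecidableEq V] (G : SimpleGraph V)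
  (a : ℕ → ℕ) (k K q e t : ℕ) (X : Finset V), Par a k K q e (Fintype.card V) →
  Two G X (el k q) → a K ≤ X.card + el k q → a K ≤ (Xᶜ).card + el k q →
  Tig a k (el k q) t X → (∀ v ∈ X, X.card - a t ≤ (dg Gᶜ v ∩ X).card) →
  a t + k ≤ X.card + 1 → pf a k (a t) (Fintype.card V - a t) 0 → Con Gᶜ k a

/-- TIG (from E1B, PRT, TGC, TGD). A star which is tight in `X`. Proof: choose `t` with
`a t + 1 ≤ |X| < a t + k + l` and minimal `a t`: `Tig a k l t X` (if `a u < a t` and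
`|X| < a u + k + l` then `u` would be a smaller choice). If some `v ∈ X` has `|dg v| ≥ a t`: E1B
(`|Xᶜ| = N - |X| > N - a t - k - l ≥ s((range k).erase t) + 4 e - k - l`, `Par.rest`). Otherwise
every `v ∈ X` has at least `|X| - 1 - (a t - 1) = |X| - a t` neighbours in `Gᶜ` inside `X`. PRT for
`Gᶜ` gives `v0`. If `|X| + 1 < a t + k` use TGC with `pf` for `x = |X|`, `c = |X| - a t < |X|`;
otherwise TGD with `pf` for `x = a t`, `c = 0`. -/
def T_TIG : Prop := ∀ (V : Type) [Fintype V] [DecidableEq V] (G : SimpleGraph V)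
  (a : ℕ → ℕ) (k K q e : ℕ) (X : Finset V), Par a k K q e (Fintype.card V) →
  Two G X (el k q) → a K ≤ X.card + el k q → a K ≤ (Xᶜ).card + el k q →
  (∀ x y c : ℕ, x + y = Fintype.card V → c + 1 < k → (c < x ∨ c = 0) → pf a k x y c) →
  (∃ t < k, a t + 1 ≤ X.card ∧ X.card < a t + k + el k q) → Con G k a ∨ Con Gᶜ k a

/-- EXA (from SFB.FTB, SFB.FTR, TIG). Proof: if some star is tight in `X` use TIG, if some star is
tight in `Xᶜ` use TIG for `Xᶜ` (`Two.symm`, `compl_compl`). Otherwise take `A` for `pf` with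
`x = |X|`, `y = |Xᶜ|`, `c = 0` (so `z = 0`) and SFB.FTB or SFB.FTR. Slack: if `A = {u}` then
`a u + 1 ≤ |X|` (in the second alternative because `|B| = k - 1 ≥ 1`), so
`|X| ≥ a u + k + l` as `u` is not tight; the same for `B = {u}` and `Xᶜ`. -/
def T_EXA : Prop := ∀ (V : Type) [Fintype V] [DecidableEq V] (G : SimpleGraph V)
  (a : ℕ → ℕ) (k K q e : ℕ) (X : Finset V), Par a k K q e (Fintype.card V) →
  Two G X (el k q) → a K ≤ X.card + el k q → a K ≤ (Xᶜ).card + el k q →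
  (∀ x y c : ℕ, x + y = Fintype.card V → c + 1 < k → (c < x ∨ c = 0) → pf a k x y c) →
  Con G k a ∨ Con Gᶜ k a

/-- UPP (from STC, EXA). The upper bound. Proof: suppose neither; STC gives `X` with
`Two G X (el k q)` or `Two Gᶜ X (el k q)`; apply EXA to `G` or to `Gᶜ` (`compl_compl`). -/
def T_UPP : Prop := ∀ (a : ℕ → ℕ) (k K q e N : ℕ), Par a k K q e N →
  (∀ x y c : ℕ, x + y = N → c + 1 < k → (c < x ∨ c = 0) → pf a k x y c) →
  ∀ G : SimpleGraph (Fin N),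
  Con G k a ∨ Con Gᶜ k a

/-! ### the colourings -/

/-- REG. Almost regular graphs. Proof: `c = 0`: `H = ⊥`. Otherwise, for `S ⊆ ZMod x` (or `Fin x`)
with `S = -S`, `0 ∉ S`, the graph `i ~ j` iff `j - i ∈ S` is `|S|`-regular. Let `h = c / 2`,
`S = {±1, .., ±h}` (`2 h < x`, so `|S| = 2 h`). `c` even: this graph. `c` odd, `x` even: add
`x / 2` to `S` (`h < x / 2`). Both odd: `c ≤ x - 2`, `m = (x - 1) / 2 > h`; add the edges
`i ~ i + m`, `i = 0, .., m` (new, because the difference is `±m`): they cover every point once, the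
point `m` twice; `v0 = m`. -/
def T_REG : Prop := ∀ x c : ℕ, c < x → ∃ (H : SimpleGraph (Fin x)) (v0 : Fin x),
  (∀ v, v ≠ v0 → (dg H v).card = c) ∧ (dg H v0).card = c + x * c % 2

/-- LWR. Red copies. Proof: as in `Pool/Agent/SFB/P_LOW.lean` (`StarF.of_contained` gives the
centres and the leaves): `A` = the stars with centre in the first block; all their vertices are
there (`∑ i ∈ A, n i + |A| ≤ x`), those of the other stars are in the second block. If `|A| = 1`,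
`A = {i}`: the leaves of the star `i` are not adjacent in `H` to its centre `u` and different from
`u`, so `n i ≤ x - 1 - |dg H u| ≤ x - 1 - c`. -/
def T_LWR : Prop := ∀ (k : ℕ) (n : Fin k → ℕ) (x y c : ℕ) (H : SimpleGraph (Fin x)),
  (∀ v, c ≤ (dg H v).card) → (starForest n).IsContained (red y H) → PF n x y c

/-- LWB. Blue copies. Proof: `A` = the stars with centre in the second block: all their leaves are
in the first block. `B = Aᶜ`; `z` = the number of leaves of the stars of `B` in the first block: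
such a leaf is adjacent in `H` to its centre, so `z` is at most the sum of `|dg H v|` over the
(distinct) centres `v` of the stars of `B`. The vertices of the copy in the first block: leaves of
`A`, centres of `B`, `z` leaves; in the second block: centres of `A` and `∑ i ∈ B, n i - z`
leaves. -/
def T_LWB : Prop := ∀ (k : ℕ) (n : Fin k → ℕ) (x y c : ℕ) (H : SimpleGraph (Fin x)),
  (∀ S : Finset (Fin x), ∑ v ∈ S, (dg H v).card ≤ S.card * c + x * c % 2) →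
  (starForest n).IsContained (red y H)ᶜ → PF n x y c

/-- LOW (from REG, LWR, LWB). Proof: `H` from REG if `c < x`, `H = ⊥` if `c = 0`; then `red y H`
transported to `Fin (x + y)` along `finSumFinEquiv`. The sum of the degrees over `S` is at most
`|S| c + x c % 2` since only `v0` has degree `c + x c % 2` instead of `c`. -/
def T_LOW : Prop := ∀ (k : ℕ) (n : Fin k → ℕ) (x y c : ℕ), (c < x ∨ c = 0) → ¬ PF n x y c →
  ∃ G : SimpleGraph (Fin (x + y)), ¬ (starForest n).IsContained G ∧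
    ¬ (starForest n).IsContained Gᶜ

/-- CNV. Proof: subsets of `range k` are the images of the sets of `Fin k` under `Fin.val`
(see `Pool/Agent/SFB/P_CNV.lean`). -/
def T_CNV : Prop := ∀ (k : ℕ) (a : ℕ → ℕ) (x y c : ℕ),
  pf a k x y c ↔ PF (fun i : Fin k => a i) x y c

/-- LOB. Proof: `x = min (a K) N`, `y = N - x`, so (`c = 0`) `z = 0` below. Let `A` be as in `pf`,
`B = range k \ A`. If `N < a K` then `x = N`, `y = 0`: the first alternative gives `B = ∅` and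
`s(A) ≥ a K > x`; the second one `A = ∅` and `s(B) = 0`, but `s(B) ≥ a K ≥ 1`. If `N ≥ a K` then
`x = a K` and `y < S_{K+1}`. First alternative: every `t ∈ A` has `a t + 1 ≤ a K`, so `t > K`;
hence `range (K + 1) ⊆ B` and `s(B) ≥ S_{K+1} > y`. Second alternative: if no `t ≤ K` is in `A`
then again `s(B) ≥ S_{K+1} > y`; if `t ∈ A`, `t ≤ K` then `s(A) ≥ a K = x`, so `|B| = 0` and
`s(A) = S_k ≥ S_{K+1} ≥ 2 a K > x`. -/
def T_LOB : Prop := ∀ (a : ℕ → ℕ) (k K : ℕ), 1 ≤ K → K < k →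
  (∀ s t, s ≤ t → t < k → a t ≤ a s) → 1 ≤ a K → ∀ N, N < ∑ t ∈ range (K + 1), a t + a K →
  ∃ x y, x + y = N ∧ ¬ pf a k x y 0

/-- BVL (from UPP, LOW, CNV, LOB). The Ramsey number. Proof: `R` = the set in the definition of
`ramsey` (it contains `N1`), `S` = the set on the right. `R ⊆ S`: if `x + y = N ∈ R` and
`¬ PF n x y c` then LOW gives a colouring on `Fin (x + y)`, contradiction. So `S` is nonempty,
`N = sInf S ∈ S`, `N ≤ sInf R ≤ N1`. By LOB and CNV `N ≥ S_{K+1} + a K`. So `Par a k K q e N`, UPP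
with CNV gives `N ∈ R`, and `sInf R ≤ N`. -/
def T_BVL : Prop := ∀ (a : ℕ → ℕ) (k K q e N1 : ℕ), 1 ≤ K → K < k →
  (∀ s t, s ≤ t → t < k → a t ≤ a s) → 1 ≤ a K →
  (∀ N : ℕ, ∑ t ∈ range (K + 1), a t + a K ≤ N → N ≤ N1 → Par a k K q e N) →
  (∀ G : SimpleGraph (Fin N1), Con G k a ∨ Con Gᶜ k a) →
  ramsey (starForest (fun i : Fin k => a i)) (starForest (fun i : Fin k => a i)) =
    sInf {N : ℕ | ∀ x y c : ℕ, x + y = N → c + 1 < k → (c < x ∨ c = 0) →
      PF (fun i : Fin k => a i) x y c}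

end Pool.Agent.SFG
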