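import Pool.Agent.SFG.Targets

/-!
# SFG: explicit values of the block number (MP_705b7e_co): targets

Conventions of `Pool/Agent/SFG/Targets.lean`; `S_i = s(range i)`. In `Par a k K q e N` the slack `e` is
at least `400000 * el k q`, and `el k q ≥ 80000 * k` (`Par.e1`, `Par.l2`), every `a t` is at least
`10 * k * el k q` (`Par.min`). So `2 k`, `k ^ 2` and so on are tiny compared with `e` and `a t`
(`k * k ≤ k * el k q`).
-/

set_option autoImplicit false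

open Finset

namespace Pool.Agent.SFG

/-- PCK. Greedy packing. Proof: by induction on `i`, `i0 ≤ i ≤ k`, there is `A ⊆ range i` with the
three properties (for `range i`). Step: the rooms `x - s(A)` and `y - s(range i \ A)` have the sum
`x + y - S_i ≥ 2 a i + 2 C`, so one of them is at least `a i + C`: put `i` there. -/
def T_PCK : Prop := ∀ (a : ℕ → ℕ) (k i0 C x y : ℕ) (A0 : Finset ℕ), i0 ≤ k → A0 ⊆ range i0 →
  (A0 = ∅ ∨ ∑ t ∈ A0, a t + C ≤ x) →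
  (range i0 \ A0 = ∅ ∨ ∑ t ∈ range i0 \ A0, a t + C ≤ y) →
  (∀ i, i0 ≤ i → i < k → ∑ t ∈ range i, a t + 2 * a i + 2 * C ≤ x + y) →
  ∃ A ⊆ range k, A ∩ range i0 = A0 ∧ (A = ∅ ∨ ∑ t ∈ A, a t + C ≤ x) ∧
    (range k \ A = ∅ ∨ ∑ t ∈ range k \ A, a t + C ≤ y)

/-- SFT. A packing with slack. Proof: the first alternative of `pf` for `A`; `|A| ≤ k`,
`|range k \ A| ≤ k`, `1 + c ≤ k`. -/
def T_SFT : Prop := ∀ (a : ℕ → ℕ) (k x y c : ℕ) (A : Finset ℕ), A ⊆ range k → c < k →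
  (A = ∅ ∨ ∑ t ∈ A, a t + 2 * k ≤ x) →
  (range k \ A = ∅ ∨ ∑ t ∈ range k \ A, a t + 2 * k ≤ y) → pf a k x y c

/-- XUA (from PCK, SFT). The case `K = 1`, upper bound. Proof: `f = k / 2 - (0 or 1)`,
`N = a 0 + 2 a 1 + f`, `E = {2, .., k - 1}`, `1 ≤ |E| = k - 2`, `C = 2 k`. `Par.pre`:
`a 0 + 4 e ≤ 2 a 1`; `Par.all`: `a 0 + a 1 + s(E) + 4 e ≤ N`, so `s(E) + 3 e ≤ a 1`; `Par.gap'` for
`i ≥ 2` is the condition of PCK with `i0 = 2` (`C ≤ 2 e`). `2 (a 0 + e) ≤ N`.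
Case `x ≤ y`: then `y ≥ a 0 + C`. If `x ≥ a 1 + C`: PCK with `A0 = {1}`; if `y ≥ a 0 + a 1 + C`:
PCK with `A0 = ∅` (in `range 2`); then SFT. Otherwise write `x = a 1 + u`,
`y = a 0 + a 1 + f - u` with an integer `u`, `|u| ≤ 3 k`. One of the following holds:
`u ≤ f - 2`: first alternative of `pf` with `A = E`;
`u ≥ c + 1`: first alternative with `A = {1}` (the other side has slack: `a 0 + s(E) + k ≤ y`);
`u ≥ k - 1`: second alternative with `A = {1}`, `z = 0`;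
`k - 2 - f + u ≤ 2 c + x c % 2`: second alternative with `A = E`, `z = k - 2 - f + u` (or 0 if this
is negative).
If all four fail then `f - 1 ≤ u ≤ c` and `2 c + ε ≤ k - 3 - f + u` (`ε = x c % 2`), so
`c + ε ≤ k - 3 - f` and `2 f + ε ≤ k - 2`. If `f = k / 2` this is false. Otherwise `k % 4 = 2`,
`a 1` is even, `f = k / 2 - 1`, `ε = 0` and `u = c = k / 2 - 2` is odd, `x = a 1 + c` is odd, so
`x c` is odd: contradiction.
Case `y < x`: then `x ≥ a 0 + C`. If `y ≥ a 1 + C`: PCK with `A0 = {0}`; if `x ≥ a 0 + a 1 + C`: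
PCK with `A0 = {0, 1}`; then SFT. Otherwise `y = a 1 + u`, `x = a 0 + a 1 + f - u`, `|u| ≤ 3 k`.
`u ≤ f - 2`: first alternative with `A = {0, 1}`. `u ≥ 1`: first alternative with
`A = range k \ {1}` (at least 2 elements). If both fail then `f - 1 ≤ u ≤ 0`, so `f ≤ 1`, which
means `k = 3` (`k ≥ 4` gives `f ≥ 2`), `f = 1`, `u = 0`: second alternative with `A = {0, 1}`,
`B = {2}`, `z = 0`: `a 0 + a 1 + 1 ≤ x`, `a 2 + 2 ≤ y`. -/
def T_XUA : Prop := ∀ (a : ℕ → ℕ) (k q e N : ℕ), Par a k 1 q e N → 3 ≤ k →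
  N = a 0 + 2 * a 1 + k / 2 - (if k % 4 = 2 ∧ a 1 % 2 = 0 then 1 else 0) →
  ∀ x y c : ℕ, x + y = N → c + 1 < k → pf a k x y c

/-- XLA. The case `K = 1`, lower bound. Proof: `f` as in XUA, `c = f - 2` (natural subtraction, so
`c = 0` if `f = 1`), `x = a 1 + c`, `y = N - x`, where `a 0 + 2 a 1 ≤ N ≤ a 0 + 2 a 1 + f - 1`. So
`y ≤ a 0 + a 1 + 1`, and `y + 2 c + ε ≤ a 0 + a 1 + k - 3`, `ε = x c % 2`: this is
`f - 1 + c + ε ≤ k - 3`; for `f ≥ 2` it is `2 f + ε ≤ k`, which holds as `2 f ≤ k - 1`, or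
`f = k / 2`, `k` even and `ε = 0` (`k % 4 = 0`: `c` even; `k % 4 = 2`: `a 1` and `c` are odd, so
`x` is even); for `f = 1` (`k = 3`) it is `0 ≤ 0`. Suppose `pf` with `A`, `B = range k \ A`;
`m` = the smallest size, larger than `3 k ^ 2`.
First alternative. `0, 1 ∉ A`: `s(B) + |B| ≥ a 0 + a 1 + 2 > y`. Otherwise `s(A) ≥ a 1`; if
`|A| = 1` then `s(A) + 1 + c > x`; if `|A| ≥ 2` then `s(A) ≥ a 1 + m > x`.
Second alternative. `0, 1 ∉ A`: if `B = {0, 1}` then `|A| = k - 2` and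
`s(B) + |A| = a 0 + a 1 + k - 2 > y + 2 c + ε`; otherwise `s(B) ≥ a 0 + a 1 + m > y + k c + ε`.
Otherwise `s(A) ≥ a 1`: if `|A| = 1` then `|B| = k - 1 > c`, `s(A) + |B| > x`; if `|A| ≥ 2` then
`s(A) ≥ a 1 + m > x`. -/
def T_XLA : Prop := ∀ (a : ℕ → ℕ) (k q e N : ℕ), Par a k 1 q e N → 3 ≤ k →
  N + 1 ≤ a 0 + 2 * a 1 + k / 2 - (if k % 4 = 2 ∧ a 1 % 2 = 0 then 1 else 0) →
  ∃ x y c : ℕ, x + y = N ∧ c + 1 < k ∧ (c < x ∨ c = 0) ∧ ¬ pf a k x y c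

/-- XUB (from PCK, SFT). Three stars, `K = 2`, upper bound. Proof: `f` = 1 or 0, `C = 6`,
`N = a 0 + a 1 + 2 a 2 + f`; `Par.pre`: `a 1 + 4 e ≤ 2 a 2`; `Par.gap'` for `i = 0`:
`2 a 0 + 4 e ≤ N`; for `i = 1`: `a 0 + 2 a 1 + 4 e ≤ N`. By PCK for `i0 = 0` and two items (`k = 2`
there) the stars 0 and 1 can be placed with slack: `P ⊆ {0, 1}` in the block `x`,
`Q = {0, 1} \ P` in the block `y` (PCK with `C = 6`). If `x ≥ s(P) + a 2 + 6` or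
`y ≥ s(Q) + a 2 + 6` then SFT with the star 2 added. Otherwise `x = s(P) + a 2 + u`,
`y = s(Q) + a 2 + f - u`, `|u| ≤ 6`. Below R(A) and B(A) are the two alternatives of `pf` for `A`.
`P = ∅`: R({2}) if `u ≥ c + 1`; B(∅) if `u ≤ f + 3 c` (`z = max(0, u - f)`). One of them holds as
`c + 1 ≤ f + 3 c + 1`.
`P = {0, 1}`: R({0, 1}) if `u ≤ f - 1`; B({0, 1, 2}) with `z = 0` if `u ≥ 0`.
`P = {0}`: B({0, 2}) if `u ≥ 1` (`z = 0`); B({0}) if `u ≤ f + 2 c - 1`, `z = max(0, u + 1 - f)`. If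
both fail then `f = c = u = 0`, so `a 1 < a 0 < a 1 + a 2`, `x = a 0 + a 2`, `y = a 1 + a 2`:
R({1, 2}) if `a 0 ≥ a 1 + 2`; B({1, 2}) with `z = 0` if `a 0 = a 1 + 1`.
`P = {1}`: B({1, 2}) if `u ≥ 1`; B({1}) if `u ≤ f + 2 c - 1`. If both fail then
`a 1 < a 0 < a 1 + a 2`, `x = a 1 + a 2`, `y = a 0 + a 2`, `c = 0`: R({0}) if `a 0 ≥ a 1 + 2`;
B({0}) with `z = 0` if `a 0 = a 1 + 1`. -/
def T_XUB : Prop := ∀ (a : ℕ → ℕ) (q e N : ℕ), Par a 3 2 q e N →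
  N = a 0 + a 1 + 2 * a 2 + (if a 0 = a 1 ∨ a 1 + a 2 ≤ a 0 then 1 else 0) →
  ∀ x y c : ℕ, x + y = N → c + 1 < 3 → pf a 3 x y c

/-- XLB. Three stars, `K = 2`, lower bound. Proof: `x = a 0 + a 2`, `y = a 1 + a 2`, `c = 0`; go
through the eight sets `A`. -/
def T_XLB : Prop := ∀ (a : ℕ → ℕ) (q e N : ℕ), Par a 3 2 q e N → N = a 0 + a 1 + 2 * a 2 →
  (a 0 = a 1 ∨ a 1 + a 2 ≤ a 0) →
  ∃ x y c : ℕ, x + y = N ∧ c + 1 < 3 ∧ (c < x ∨ c = 0) ∧ ¬ pf a 3 x y c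

end Pool.Agent.SFG
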