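import Pool.Agent.SFG.Targets2

/-!
# SFG: the closed formula for generic sizes (MP_705b7e_co): targets

Conventions of `Pool/Agent/SFG/Targets.lean`: `s(J) = ∑ t ∈ J, a t`, `S_i = s(range i)`,
`N0 = S_{K+1} + a K = S_K + 2 a K`, `E = Ico (K + 1) k`, `g = |E| = k - 1 - K`; for
`P ⊆ range K` write `Q = range K \ P`, `p = |P|`, so `|Q| = K - p`. In `Par a k K q e N` the slack
`e` is at least `400000 * el k q`, and `el k q ≥ 80000 * k` (`Par.e1`, `Par.l2`), also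
`e ≥ 10 * k * k` and so on; `s(E) + 4 e ≤ a K` (from `Par.post`), `Par.gap'`, `Par.lo'`.
-/

set_option autoImplicit false

open Finset

namespace Pool.Agent.SFG

/-- Different subset sums differ by more than `D`. -/
def Gen (a : ℕ → ℕ) (k D : ℕ) : Prop :=
  ∀ A ⊆ range k, ∀ B ⊆ range k, A ≠ B → ∑ t ∈ A, a t ≤ ∑ t ∈ B, a t →
    ∑ t ∈ A, a t + D < ∑ t ∈ B, a t

/-- No subset sum lies strictly between `s(P) + s(E)` and `s(P) + a K`. -/
def Rel (a : ℕ → ℕ) (k K : ℕ) (P : Finset ℕ) : Prop :=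
  ∀ A ⊆ range k, ¬ (∑ t ∈ P, a t + ∑ t ∈ Ico (K + 1) k, a t < ∑ t ∈ A, a t ∧
    ∑ t ∈ A, a t < ∑ t ∈ P, a t + a K)

/-- The state `P` of a two block colouring without the star forest. -/
structure Sta (a : ℕ → ℕ) (k K x y c : ℕ) (P : Finset ℕ) : Prop where
  sub : P ⊆ range K
  rel : Rel a k K P
  x0 : P.card = 0 → x < a K + 1 + c
  x1 : P.card ≠ 0 → x < ∑ t ∈ P, a t + a K + P.card + 1
  x2 : x < ∑ t ∈ P, a t + a K + (k - 1 - P.card)
  y1 : y < ∑ t ∈ range K \ P, a t + a K + (K + 1 - P.card)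
  y2 : y + (K + 1 - P.card) * c + x * c % 2 <
    ∑ t ∈ range K \ P, a t + a K + P.card + (k - 1 - K)

/-- The first value. -/
def vv (k K m : ℕ) : ℕ :=
  if k < 2 * (K + 1) then k - (K + 1)
  else K - 1 + k / (K + 1) -
    (if k % (K + 1) = 0 ∧ k / (K + 1) % 2 = 1 ∧ m % 2 = 0 then 1 else 0)

/-- The second value. -/
def ww (k K p : ℕ) : ℕ := min (p + 1) (k - 1 - p) + min (K + 1 - p) (p + (k - 1 - K)) - 1

/-- YST (from PCK, SFT). The state of a bad colouring. Proof: `C = 2 k`. By PCK for `k := K`,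
`i0 = 0` (`Par.gap'` for `i < K`) there is `P ⊆ range K` with `P = ∅ ∨ s(P) + C ≤ x` and
`Q = ∅ ∨ s(Q) + C ≤ y`. If `x ≥ s(P) + a K + C`: PCK with `i0 = K + 1`, `A0 = insert K P`
(`Par.gap'` for `i > K`), SFT: contradiction. If `y ≥ s(Q) + a K + C`: the same with `A0 = P`. So
`x < s(P) + a K + C`, `y < s(Q) + a K + C`, and since `x + y = N ≥ N0` also
`x > s(P) + a K - C`, `y > s(Q) + a K - C`. Note `s(E) + 4 e ≤ a K`, so both blocks have slack at
least `3 e` for `P ∪ E`, and for `Q ∪ E` respectively.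
`rel`: suppose `s(P) + s(E) < s(A) < s(P) + a K`. By `Gen` (for `P ∪ E` and `A`, for `A` and
`insert K P`): `s(P) + s(E) + D < s(A)`, `s(A) + D < s(P) + a K` with `D = 5 k ^ 2`. So
`s(A) + C ≤ x` and `s(range k \ A) = S_k - s(A) < s(Q) + a K - D`, so
`s(range k \ A) + C ≤ y`: SFT, contradiction.
If one of the inequalities fails then `pf` holds: `x0` or `x1`: first alternative with
`A = insert K P` (the other side: `s(Q) + s(E) + k ≤ y`); `x2`: second alternative with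
`A = insert K P`, `z = 0`, `|range k \ A| = k - 1 - p`; `y1`: first alternative with `A = P ∪ E`,
`range k \ A = insert K Q`; `y2`: second alternative with `A = P ∪ E`, `|A| = p + g`,
`z = s(Q) + a K + p + g - y` (natural subtraction, so 0 if this is negative),
`z ≤ (K + 1 - p) c + x c % 2 ≤ k * k` and `s(P) + s(E) + k + z ≤ x`. -/
def T_YST : Prop := ∀ (a : ℕ → ℕ) (k K q e N : ℕ), Par a k K q e N → Gen a k (5 * k ^ 2) →
  ∀ x y c : ℕ, x + y = N → c + 1 < k → ¬ pf a k x y c → ∃ P, Sta a k K x y c P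

/-- YCV. The converse. Proof: suppose `pf` with `A`, `B = range k \ A`, `D = 5 k ^ 2`. Since
`x + y = N ≥ N0`, `y ≥ s(Q) + a K - k` and `x ≥ s(P) + a K`.
Case `s(A) ≥ s(P) + a K = s(insert K P)`: if `A ≠ insert K P` then `s(A) > s(P) + a K + D > x`
(`x2`), contradiction in both alternatives. If `A = insert K P`, `|A| = p + 1`,
`|B| = k - 1 - p`: the first alternative contradicts `x0` (`p = 0`, `|A| = 1`) or `x1`, the second
one contradicts `x2`.
Case `s(A) < s(P) + a K`: by `Rel` `s(A) ≤ s(P) + s(E) = s(P ∪ E)`. If `A ≠ P ∪ E` then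
`s(A) + D < s(P) + s(E)`, so `s(B) > s(Q) + a K + D`, but both alternatives give
`s(B) ≤ y + k c + 1 ≤ s(Q) + a K + K + 1 + k * k + 1` (`y1`): contradiction. If `A = P ∪ E`,
`B = insert K Q`, `|B| = K + 1 - p`, `|A| = p + g`: the first alternative contradicts `y1`, the
second one `y2`. -/
def T_YCV : Prop := ∀ (a : ℕ → ℕ) (k K q e N : ℕ), Par a k K q e N → Gen a k (5 * k ^ 2) →
  ∀ (x y c : ℕ) (P : Finset ℕ), x + y = N → c + 1 < k → Sta a k K x y c P →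
  ∑ t ∈ P, a t + a K ≤ x → ¬ pf a k x y c

/-- YAR. Arithmetic for `P = ∅`: `u = x - a K`. Proof: `j = K + 1 ≥ 2`, `g = k - j`, write
`ε = (m + u) c % 2`. Case `k < 2 j`: `vv = g` and `u + g ≤ g + j c`. Case `k ≥ 2 j`:
`k = Q j + r`, `r < j`, `Q ≥ 2`, `vv = j - 2 + Q - τ`. `c ≤ Q - 3`: `u + j ≤ Q - 3 + j ≤ vv`.
`c = Q - 2`: `u + j ≤ Q - 2 + j`, fine if `τ = 0` or `u < c`; if `τ = 1` and `u = c` then `r = 0`,
`c` is odd, `m + u` is odd, `ε = 1`, `g - j c = j`, so the second inequality gives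
`f + 1 ≤ u + j - 1 = vv`. `c = Q - 1`: `g - j c = r`, `u + r ≤ Q - 1 + r`, which is at most `vv` (`r ≤ j - 1`
if `τ = 0`; `r = 0` if `τ = 1`). `c ≥ Q`: `u + g - j c ≤ Q - j + r ≤ Q - 1 ≤ vv`. -/
def T_YAR : Prop := ∀ k K m u c f : ℕ, 1 ≤ K → K < k → u ≤ c → f < u + (K + 1) →
  f + (K + 1) * c + (m + u) * c % 2 < u + (k - 1 - K) → f < vv k K m

/-- YUP (from YST, YAR). The upper bound. Proof: suppose `¬ pf`; YST gives `P`, `p = |P|`;
`N = N0 + f`, `S_K = s(P) + s(Q)`. Note `vv k K m ≥ min (K + 1) g`: if `k < 2 (K + 1)` it is `g`,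
otherwise `vv = K - 1 + k / (K + 1) - τ ≥ K + 1` as `k / (K + 1) ≥ 2`, and at least 3 if it is
odd. If `p = 0` then `P = ∅`. If moreover `x < a K` then `y ≥ S_K + a K + f + 1`, so `y1`, `y2`
give `f + 1 ≤ K` and `f + 2 ≤ g`, so `f < min (K + 1) g ≤ vv`: contradiction. If `p = 0` and
`x ≥ a K`, `u = x - a K ≤ c` (`x0`): `f < u + (K + 1)` (`y1`) and
`f + (K + 1) c + (a K + u) c % 2 < u + g` (`y2`): YAR gives `f < vv`: contradiction.
If `1 ≤ p < K`: `x1`, `x2`, `y1`, `y2` give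
`f + 2 ≤ min (p + 1) (k - 1 - p) + min (K + 1 - p) (p + g)`: contradiction to `ww k K p ≤ f`
(hypothesis for `P`). If `p = K` then `P = range K`: `f + 2 ≤ min (K + 1) (k - 1 - K) + 1`, so
`f + 1 ≤ min (K + 1) g ≤ vv`: contradiction. -/
def T_YUP : Prop := ∀ (a : ℕ → ℕ) (k K q e N f : ℕ), Par a k K q e N → Gen a k (5 * k ^ 2) →
  vv k K (a K) ≤ f →
  (∀ P ⊆ range K, P.Nonempty → P ≠ range K → Rel a k K P → ww k K P.card ≤ f) →
  N = ∑ t ∈ range (K + 1), a t + a K + f → ∀ x y c : ℕ, x + y = N → c + 1 < k → pf a k x y c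

/-- YLV (from YCV). The lower bound from the first value. Proof: `P = ∅` is relevant: a set
`A ⊆ range k` with `s(A) < a K` has no element `t ≤ K`, so `A ⊆ E` and `s(A) ≤ s(E)`. `j = K + 1`,
`g = k - j`. If `k < 2 j`: `c = 0`, `x = a K`. If `k ≥ 2 j`: `k = Q j + r`; `τ = 0`: `c = Q - 2`;
`τ = 1`: `c = Q - 3` (`Q ≥ 3`); `x = a K + c`. `y = N - x`, where `N0 ≤ N ≤ N0 + vv - 1`. The
conditions of `Sta` for `P = ∅` are: `x0` clear; `x2`: `c < k - 1`; `y1`: `vv - 1 - c < K + 1`;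
`y2`: `vv - 1 - c + j c + ε < g`, `ε = (a K + c) c % 2`: for `k < 2 j` it is `g - 1 < g`; for
`τ = 0` it is `j - 1 + ε + (Q - 2) j < (Q - 1) j + r`, true if `ε = 0` or `r ≥ 1`, and if `ε = 1`
then `c` is odd and `a K` is even, so `r = 0` would give `τ = 1`; for `τ = 1` `c` is even,
`ε = 0`. -/
def T_YLV : Prop := ∀ (a : ℕ → ℕ) (k K q e N : ℕ), Par a k K q e N → Gen a k (5 * k ^ 2) →
  N + 1 ≤ ∑ t ∈ range (K + 1), a t + a K + vv k K (a K) →
  ∃ x y c : ℕ, x + y = N ∧ c + 1 < k ∧ (c < x ∨ c = 0) ∧ ¬ pf a k x y c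

/-- YLW (from YCV). The lower bound from the second value. Proof: `c = 0`,
`x = s(P) + a K + min (p + 1) (k - 1 - p) - 1` (`1 ≤ p ≤ K - 1 ≤ k - 2`, so the minimum is at least
1), `y = N - x ≤ s(Q) + a K + min (K + 1 - p) (p + g) - 1`. -/
def T_YLW : Prop := ∀ (a : ℕ → ℕ) (k K q e N : ℕ) (P : Finset ℕ), Par a k K q e N →
  Gen a k (5 * k ^ 2) → P ⊆ range K → P.Nonempty → P ≠ range K → Rel a k K P →
  N + 1 ≤ ∑ t ∈ range (K + 1), a t + a K + ww k K P.card →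
  ∃ x y c : ℕ, x + y = N ∧ c + 1 < k ∧ (c < x ∨ c = 0) ∧ ¬ pf a k x y c

/-- The same as `Rel` for sizes indexed by `Fin k`. -/
def RelF {k : ℕ} (n : Fin k → ℕ) (j : Fin k) (P : Finset (Fin k)) : Prop :=
  ∀ A : Finset (Fin k), ¬ (∑ i ∈ P, n i + ∑ i ∈ Ioi j, n i < ∑ i ∈ A, n i ∧
    ∑ i ∈ A, n i < ∑ i ∈ P, n i + n j)

open Classical in
/-- The second value for sizes indexed by `Fin k`. -/
noncomputable def supF {k : ℕ} (n : Fin k → ℕ) (j : Fin k) : ℕ :=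
  ((univ : Finset (Finset (Fin k))).filter
    (fun P => P ⊂ Iio j ∧ P.Nonempty ∧ RelF n j P)).sup (fun P => ww k j P.card)

/-- YFN. Conversion. Proof: subsets of `range k` are the images of the sets of `Fin k` under
`Fin.val` (`Finset.map Fin.valEmbedding`); the image of `Iio j` is `range j` and the image of
`Ioi j` is `Ico (j + 1) k` (see `Pool/Agent/SFB/P_CNV.lean` and `P_CNV.lean`). -/
def T_YFN : Prop := ∀ (k : ℕ) (a : ℕ → ℕ) (j : Fin k),
  ((∀ A B : Finset (Fin k), A ≠ B → ∑ i ∈ A, a i ≤ ∑ i ∈ B, a i →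
    ∑ i ∈ A, a i + 5 * k ^ 2 < ∑ i ∈ B, a i) → Gen a k (5 * k ^ 2)) ∧
  (∀ P ⊆ range (j : ℕ), P.Nonempty → P ≠ range (j : ℕ) → Rel a k j P →
    ww k j P.card ≤ supF (fun i : Fin k => a i) j) ∧
  (0 < supF (fun i : Fin k => a i) j → ∃ P ⊆ range (j : ℕ), P.Nonempty ∧ P ≠ range (j : ℕ) ∧
    Rel a k j P ∧ ww k j P.card = supF (fun i : Fin k => a i) j)

end Pool.Agent.SFG
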